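import Pool.Agent.PST.B5

/-!
# MP_332d77_co, second term of `P(2,t)`: the uncovered area of a packing of equilateral triangles in a disc
-/

set_option autoImplicit false

open MeasureTheory Set Metric
open scoped ComplexConjugate

namespace PST

theorem isClosed_tri' (c u : ℂ) (r : ℝ) : IsClosed (Tri c u r) := by
  have : Tri c u r = ⋂ k : Fin 3, {z | (conj (nrm u k) * (z - c)).re ≤ r} := by
    ext z; simp [Tri]
  rw [this]
  apply isClosed_iInter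
  intro k
  apply isClosed_le _ continuous_const
  fun_prop

theorem meas_unc {ι : Type} [Fintype ι] (F : ι → Tg) {Q : Set ℂ} (hQ : MeasurableSet Q) : MeasurableSet (unc F Q) :=
  hQ.diff (MeasurableSet.iUnion fun _ => (isClosed_tri' _ _ _).measurableSet)

theorem meas_disc (R : ℝ) : MeasurableSet {z : ℂ | ‖z‖ ^ 2 < R ^ 2 + 72} := by
  apply measurableSet_lt <;> fun_prop

theorem disc_eq (R : ℝ) : {z : ℂ | ‖z‖ ^ 2 < R ^ 2 + 72} = ball 0 (Real.sqrt (R ^ 2 + 72)) := by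
  ext z
  rw [mem_ball_zero_iff, mem_setOf_eq, Real.lt_sqrt (norm_nonneg z)]

/-- the annulus has area `72 π` -/
theorem unc_disc {ι : Type} [Fintype ι] (F : ι → Tg) {R : ℝ} (hR : 0 ≤ R) :
    ar (unc F {z : ℂ | ‖z‖ ^ 2 < R ^ 2 + 72}) ≤ ar (unc F (closedBall 0 R)) + 72 * Real.pi := by
  have hsub : unc F {z : ℂ | ‖z‖ ^ 2 < R ^ 2 + 72} ⊆
      unc F (closedBall 0 R) ∪ (ball 0 (Real.sqrt (R ^ 2 + 72)) \ ball 0 R) := by
    rintro z ⟨hz, hn⟩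
    by_cases h : z ∈ closedBall (0 : ℂ) R
    · exact Or.inl ⟨h, hn⟩
    · refine Or.inr ⟨by rw [← disc_eq]; exact hz, fun h' => h (ball_subset_closedBall h')⟩
  have hv1 : volume (unc F (closedBall 0 R)) ≠ ⊤ :=
    ((measure_mono diff_subset).trans_lt measure_closedBall_lt_top).ne
  have hv2 : volume (ball (0 : ℂ) (Real.sqrt (R ^ 2 + 72)) \ ball 0 R) ≠ ⊤ :=
    ((measure_mono diff_subset).trans_lt measure_ball_lt_top).ne
  have hRs : R ≤ Real.sqrt (R ^ 2 + 72) := by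
    apply Real.le_sqrt_of_sq_le; linarith
  have h1 : ar (ball (0 : ℂ) (Real.sqrt (R ^ 2 + 72)) \ ball 0 R) = 72 * Real.pi := by
    unfold ar
    rw [measure_diff (ball_subset_ball hRs) measurableSet_ball.nullMeasurableSet measure_ball_lt_top.ne,
      ENNReal.toReal_sub_of_le (measure_mono (ball_subset_ball hRs)) measure_ball_lt_top.ne]
    have e1 := ar_ball 0 (Real.sqrt_nonneg (R ^ 2 + 72))
    have e2 := ar_ball 0 hR
    unfold ar at e1 e2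
    rw [e1, e2, Real.sq_sqrt (by positivity)]; ring
  calc ar (unc F {z : ℂ | ‖z‖ ^ 2 < R ^ 2 + 72})
      ≤ ar (unc F (closedBall 0 R) ∪ (ball 0 (Real.sqrt (R ^ 2 + 72)) \ ball 0 R)) :=
        ar_mono hsub (measure_union_ne_top hv1 hv2)
    _ ≤ ar (unc F (closedBall 0 R)) + ar (ball 0 (Real.sqrt (R ^ 2 + 72)) \ ball 0 R) := by
        unfold ar
        rw [← ENNReal.toReal_add hv1 hv2]
        exact ENNReal.toReal_mono (ENNReal.add_ne_top.2 ⟨hv1, hv2⟩) (measure_union_le _ _)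
    _ = _ := by rw [h1]

/-- THEOREM B -/
theorem theoremB (LL : LLs) (OV : OVs) : ∃ cB > (0 : ℝ), ∃ RB : ℝ, ∀ R ≥ RB, ∀ (ι : Type) [Fintype ι] (F : ι → Tg), Dj F →
    (∀ i, (F i).s ⊆ closedBall 0 R) → cB * R ≤ ar (unc F (closedBall 0 R)) := by
  classical
  refine ⟨1 / 10 ^ 10, by norm_num, 10 ^ 13, ?_⟩
  intro R hRB ι _ F hF hFR
  have hR : 100 ≤ R := by linarith [hRB.le]
  set N := unc F {z : ℂ | ‖z‖ ^ 2 < R ^ 2 + 72} with hN
  have hNm : MeasurableSet N := meas_unc F (meas_disc R)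
  have hNf : volume N ≠ ⊤ := by
    have : N ⊆ ball 0 (Real.sqrt (R ^ 2 + 72)) := by
      rw [← disc_eq]; exact diff_subset
    exact ((measure_mono this).trans_lt measure_ball_lt_top).ne
  set f : ℤ × ℤ → ℝ := fun p => ar (N ∩ Bx (⟨(p.1 : ℝ), (p.2 : ℝ)⟩ : ℂ) 6) with hf
  have hf0 : ∀ p, 0 ≤ f p := fun p => ar_nonneg _
  set M : ℤ := ⌊R⌋ with hM
  set Kset : Finset ℕ := Finset.Icc ⌈R / 8⌉₊ ⌊R / 3⌋₊ with hK
  have hmem : ∀ k ∈ Kset, R / 8 ≤ (k : ℝ) ∧ (k : ℝ) ≤ R / 3 := by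
    intro k hk
    rw [hK, Finset.mem_Icc] at hk
    exact ⟨Nat.ceil_le.1 hk.1, (Nat.le_floor_iff (by linarith)).1 hk.2⟩
  -- each row
  have hrow : ∀ k ∈ Kset, 3 / 5 ≤ 2 * 10 ^ 6 * ∑ j ∈ Finset.Icc (-M) M, f (j, (k : ℤ)) := by
    intro k hk
    obtain ⟨h1, h2⟩ := hmem k hk
    have h := row LL hR h1 h2 F hF hFR
    have hXR : XX R k ≤ R := by
      have h3 := XX_sq hR h2
      have hk0 : (0 : ℝ) ≤ k := Nat.cast_nonneg k
      by_contra hlt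
      rw [not_le] at hlt
      nlinarith
    have hJM : ⌊XX R k⌋ ≤ M := Int.floor_le_floor hXR
    have h4 : ∑ j ∈ Finset.Icc (-⌊XX R k⌋) ⌊XX R k⌋,
        ar (unc F {z | ‖z‖ ^ 2 < R ^ 2 + 72} ∩ Bx (⟨(j : ℝ), (k : ℝ)⟩ : ℂ) 6)
        ≤ ∑ j ∈ Finset.Icc (-M) M, f (j, (k : ℤ)) := by
      have e : ∀ j : ℤ, ar (unc F {z | ‖z‖ ^ 2 < R ^ 2 + 72} ∩ Bx (⟨(j : ℝ), (k : ℝ)⟩ : ℂ) 6) = f (j, (k : ℤ)) := by
        intro j; simp [hf, hN]
      simp only [e]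
      apply Finset.sum_le_sum_of_subset_of_nonneg
      · exact Finset.Icc_subset_Icc (by omega) hJM
      · intro j _ _; exact hf0 _
    linarith
  have hcard : R / 6 ≤ (Kset.card : ℝ) := by
    rw [hK, Nat.card_Icc]
    have a1 : (⌈R / 8⌉₊ : ℝ) < R / 8 + 1 := Nat.ceil_lt_add_one (by linarith)
    have a2 : R / 3 < (⌊R / 3⌋₊ : ℝ) + 1 := Nat.lt_floor_add_one _
    have a3 : ((⌊R / 3⌋₊ + 1 : ℕ) : ℝ) - (⌈R / 8⌉₊ : ℝ) ≤ ((⌊R / 3⌋₊ + 1 - ⌈R / 8⌉₊ : ℕ) : ℝ) := by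
      rw [sub_le_iff_le_add]
      exact_mod_cast (by omega : ⌊R / 3⌋₊ + 1 ≤ ⌊R / 3⌋₊ + 1 - ⌈R / 8⌉₊ + ⌈R / 8⌉₊)
    push_cast at a3
    linarith
  have hsum : (Kset.card : ℝ) * (3 / 5) ≤ 2 * 10 ^ 6 * ∑ k ∈ Kset, ∑ j ∈ Finset.Icc (-M) M, f (j, (k : ℤ)) := by
    rw [Finset.mul_sum, ← nsmul_eq_mul, ← Finset.sum_const]
    exact Finset.sum_le_sum hrow
  have hdouble : ∑ k ∈ Kset, ∑ j ∈ Finset.Icc (-M) M, f (j, (k : ℤ)) ≤ 196 * ar N := by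
    have e1 : ∑ k ∈ Kset, ∑ j ∈ Finset.Icc (-M) M, f (j, (k : ℤ))
        = ∑ p ∈ (Finset.Icc (-M) M ×ˢ Kset.image (fun k : ℕ => (k : ℤ))), f p := by
      rw [Finset.sum_product_right, Finset.sum_image]
      intro a _ b _ h
      simp only at h
      exact_mod_cast h
    rw [e1]
    exact OV N hNm hNf _
  have hann := unc_disc F (by linarith : (0 : ℝ) ≤ R)
  rw [← hN] at hann
  have hpi := Real.pi_lt_four
  have hU := ar_nonneg (unc F (closedBall 0 R))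
  have : R / 6 * (3 / 5) ≤ 2 * 10 ^ 6 * (196 * (ar (unc F (closedBall 0 R)) + 72 * Real.pi)) := by
    calc R / 6 * (3 / 5) ≤ (Kset.card : ℝ) * (3 / 5) := by gcongr
      _ ≤ _ := hsum
      _ ≤ 2 * 10 ^ 6 * (196 * ar N) := by gcongr
      _ ≤ _ := by gcongr
  have hRB' : (10 : ℝ) ^ 13 ≤ R := hRB
  norm_num at this hRB' ⊢
  linarith

end PST
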