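import Pool.Agent.PST.Defs

/-!
Overlap of the boxes centred at the integer points: every point is in at most `196` of them.
-/

set_option autoImplicit false

open MeasureTheory Set Metric
open scoped ComplexConjugate ENNReal

namespace PST

lemma ovl_card1 (x : ℝ) : (Finset.Icc ⌈x - 6⌉ ⌊x + 6⌋).card ≤ 14 := by
  rw [Int.card_Icc]
  have h1 : (⌊x + 6⌋ : ℝ) ≤ x + 6 := Int.floor_le _
  have h2 : x - 6 ≤ (⌈x - 6⌉ : ℝ) := Int.le_ceil _
  have h3 : ((⌊x + 6⌋ - ⌈x - 6⌉ : ℤ) : ℝ) ≤ ((12 : ℤ) : ℝ) := by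
    push_cast
    linarith
  have h4 : ⌊x + 6⌋ - ⌈x - 6⌉ ≤ 12 := by exact_mod_cast h3
  omega

lemma measurableSet_bx (x : ℂ) (a : ℝ) : MeasurableSet (Bx x a) := by
  apply IsClosed.measurableSet
  apply IsClosed.inter
  · exact isClosed_le (f := fun z : ℂ => |z.re - x.re|) (by fun_prop) continuous_const
  · exact isClosed_le (f := fun z : ℂ => |z.im - x.im|) (by fun_prop) continuous_const

open Classical in
lemma ovl_card (P : Finset (ℤ × ℤ)) (z : ℂ) :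
    (P.filter fun p => z ∈ Bx (⟨(p.1 : ℝ), (p.2 : ℝ)⟩ : ℂ) 6).card ≤ 196 := by
  have h : (P.filter fun p => z ∈ Bx (⟨(p.1 : ℝ), (p.2 : ℝ)⟩ : ℂ) 6) ⊆
      Finset.Icc ⌈z.re - 6⌉ ⌊z.re + 6⌋ ×ˢ Finset.Icc ⌈z.im - 6⌉ ⌊z.im + 6⌋ := by
    intro p hp
    rw [Finset.mem_filter] at hp
    have h1 := (abs_le.1 hp.2.1)
    have h2 := (abs_le.1 hp.2.2)
    simp only at h1 h2
    rw [Finset.mem_product, Finset.mem_Icc, Finset.mem_Icc]
    refine ⟨⟨Int.ceil_le.2 (by linarith [h1.2]), Int.le_floor.2 (by linarith [h1.1])⟩,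
      ⟨Int.ceil_le.2 (by linarith [h2.2]), Int.le_floor.2 (by linarith [h2.1])⟩⟩
  refine (Finset.card_le_card h).trans ?_
  rw [Finset.card_product]
  calc _ ≤ 14 * 14 := Nat.mul_le_mul (ovl_card1 _) (ovl_card1 _)
    _ = 196 := by norm_num

/-- overlap -/
theorem overlap (N : Set ℂ) (hN : MeasurableSet N) (hfin : volume N ≠ ⊤) (P : Finset (ℤ × ℤ)) :
    ∑ p ∈ P, ar (N ∩ Bx (⟨(p.1 : ℝ), (p.2 : ℝ)⟩ : ℂ) 6) ≤ 196 * ar N := by
  classical
  have key : ∑ p ∈ P, volume (N ∩ Bx (⟨(p.1 : ℝ), (p.2 : ℝ)⟩ : ℂ) 6) ≤ 196 * volume N := by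
    have h1 : ∀ p ∈ P, volume (N ∩ Bx (⟨(p.1 : ℝ), (p.2 : ℝ)⟩ : ℂ) 6) =
        ∫⁻ z in N, (Bx (⟨(p.1 : ℝ), (p.2 : ℝ)⟩ : ℂ) 6).indicator 1 z := by
      intro p _
      rw [lintegral_indicator_one (measurableSet_bx _ _), Measure.restrict_apply (measurableSet_bx _ _),
        inter_comm]
    rw [Finset.sum_congr rfl h1, ← lintegral_finsetSum _ (fun p _ => measurable_one.indicator (measurableSet_bx _ _))]
    calc _ ≤ ∫⁻ _ in N, (196 : ℝ≥0∞) := by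
          apply lintegral_mono
          intro z
          have e : ∑ p ∈ P, (Bx (⟨(p.1 : ℝ), (p.2 : ℝ)⟩ : ℂ) 6).indicator (1 : ℂ → ℝ≥0∞) z =
              ((P.filter fun p => z ∈ Bx (⟨(p.1 : ℝ), (p.2 : ℝ)⟩ : ℂ) 6).card : ℝ≥0∞) := by
            rw [Finset.card_filter, Nat.cast_sum]
            apply Finset.sum_congr rfl
            intro p _
            by_cases hz : z ∈ Bx (⟨(p.1 : ℝ), (p.2 : ℝ)⟩ : ℂ) 6 <;> simp [hz]
          show ∑ p ∈ P, (Bx (⟨(p.1 : ℝ), (p.2 : ℝ)⟩ : ℂ) 6).indicator (1 : ℂ → ℝ≥0∞) z ≤ 196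
          rw [e]
          exact_mod_cast ovl_card P z
      _ = 196 * volume N := by rw [lintegral_const, Measure.restrict_apply_univ]
  have hf : ∀ p ∈ P, volume (N ∩ Bx (⟨(p.1 : ℝ), (p.2 : ℝ)⟩ : ℂ) 6) ≠ ⊤ := fun p _ =>
    ne_top_of_le_ne_top hfin (measure_mono inter_subset_left)
  unfold ar
  rw [← ENNReal.toReal_sum hf]
  have h2 := ENNReal.toReal_mono (ENNReal.mul_ne_top (by simp) hfin) key
  rw [ENNReal.toReal_mul] at h2
  simpa using h2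

end PST
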