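import Pool.Agent.PST.B3
import Pool.Agent.PST.B6
import Pool.Agent.PST.Ovl

/-!
# MP_332d77_co, second term of `P(2,t)`: Theorem B
-/

set_option autoImplicit false

open MeasureTheory Set Metric

namespace PST

/-- THEOREM B: equilateral triangles of inradius at least one, packed into a disc of radius `R`, leave an area of at least
`cB * R` uncovered -/
theorem thmB : ∃ cB > (0 : ℝ), ∃ RB : ℝ, ∀ R ≥ RB, ∀ (ι : Type) [Fintype ι] (F : ι → Tg), Dj F →
    (∀ i, (F i).s ⊆ closedBall 0 R) → cB * R ≤ ar (unc F (closedBall 0 R)) :=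
  theoremB (fun _ _ F hF x i j hi hj => local_lemma F hF x i j hi hj) (fun N hN hf P => overlap N hN hf P)

end PST
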