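import Pool.Agent.PST.Loc71

/-!
Row B1 of theorem B, in the form of the skeleton.
-/

set_option autoImplicit false

open MeasureTheory Set Metric
open scoped ComplexConjugate

namespace PST

theorem tri_sub_ball {c u : ℂ} {r : ℝ} (hu : ‖u‖ = 1) (hr : 1 ≤ r) {z : ℂ} (hz : z ∈ Tri c u r) :
    ∃ c' : ℂ, closedBall c' 1 ⊆ Tri c u r ∧ ‖c' - z‖ ≤ 2 :=
  Tg.exists_ball ⟨c, u, r, hu, hr⟩ hz

/-- L5 -/
theorem edge (T S : Tg) (hd : Disjoint (interior T.s) (interior S.s)) {za zb : ℂ} (hza : za ∈ T.s)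
    (hzb : zb ∈ S.s) {κ : ℝ} (hκ : 0 < κ)
    (hT : ∀ k, ∀ z ∈ segment ℝ za zb, κ ≤ ‖z - cor T.c T.u T.r k‖)
    (hS : ∀ k, ∀ z ∈ segment ℝ za zb, κ ≤ ‖z - cor S.c S.u S.r k‖) :
    ‖T.w - S.w‖ ≤ 48 * ‖za - zb‖ / κ :=
  angle_gap hd hza hzb hκ hT hS

theorem isClosed_tri (c u : ℂ) (r : ℝ) : IsClosed (Tri c u r) := isClosed_Tri c u r

theorem convex_tri (c u : ℂ) (r : ℝ) : Convex ℝ (Tri c u r) := convex_Tri c u r

theorem interior_tri (c u : ℂ) (r : ℝ) :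
    {z : ℂ | ∀ k : Fin 3, (conj (nrm u k) * (z - c)).re < r} ⊆ interior (Tri c u r) :=
  fun _ hz => strict_mem_interior hz

end PST
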