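import Pool.Agent.PST.Chain71

/-!
Row B2 of theorem B, in the form of the skeleton.
-/

set_option autoImplicit false

open MeasureTheory Set Metric
open scoped ComplexConjugate

namespace PST

/-- L6: chain on an interval -/
theorem chain1D {ι : Type} (S : Finset ι) (f : ι → Set ℝ) (hf : ∀ i ∈ S, IsClosed (f i)) (φ : ι → ℂ)
    {K : ℝ} (hK : 0 ≤ K) {a b : ℝ} (hab : a ≤ b)
    (H : ∀ i ∈ S, ∀ j ∈ S, ∀ s ∈ f i ∩ Icc a b, ∀ s' ∈ f j ∩ Icc a b, ‖φ i - φ j‖ ≤ K * |s - s'|)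
    {i0 i1 : ι} (h0 : i0 ∈ S) (h1 : i1 ∈ S) (ha : a ∈ f i0) (hb : b ∈ f i1) :
    ‖φ i0 - φ i1‖ ≤ K * (volume (Icc a b \ ⋃ i ∈ S, f i)).toReal :=
  chain S f φ hK hf h0 h1 hab ha hb H

end PST
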