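import Pool.Agent.PST.Defs
import Pool.Agent.PST.B1
import Pool.Agent.PST.B2

/-!
# MP_332d77_co, second term: the local lemma (row B3, helper37)
-/

set_option autoImplicit false

open MeasureTheory Set Metric
open scoped ComplexConjugate

namespace PST

/-- Markov on lines, in the product plane -/
theorem gen37 {M : Set (ℝ × ℝ)} (hM : MeasurableSet M) (hfin : volume M ≠ ⊤) (a : ℝ) (P : Finset ℝ)
    (hP : P.card ≤ 309) :
    ∃ G ⊆ Icc (a - 1 / 2) (a + 1 / 2), MeasurableSet G ∧ 1 / 2 ≤ (volume G).toReal ∧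
      ∀ ξ ∈ G, (∀ p ∈ P, 1 / 2500 ≤ |ξ - p|) ∧
        (volume {y : ℝ | (ξ, y) ∈ M}).toReal ≤ 4 * (volume M).toReal := by
  set I := Icc (a - 1 / 2) (a + 1 / 2) with hI
  set B1 : Set ℝ := ⋃ p ∈ P, ball p (1 / 2500) with hB1
  set B2 : Set ℝ := {ξ | ENNReal.ofReal (4 * (volume M).toReal) < volume {y : ℝ | (ξ, y) ∈ M}} with hB2
  have hmeas : Measurable (fun ξ : ℝ => volume {y : ℝ | (ξ, y) ∈ M}) := measurable_measure_prodMk_left hM
  have hB2m : MeasurableSet B2 := measurableSet_lt measurable_const hmeas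
  have hB1m : MeasurableSet B1 := Finset.measurableSet_biUnion _ fun p _ => isOpen_ball.measurableSet
  have hint : volume M = ∫⁻ ξ : ℝ, volume {y : ℝ | (ξ, y) ∈ M} := by
    rw [Measure.volume_eq_prod, Measure.prod_apply hM]
    rfl
  have hv1 : volume B1 ≤ ENNReal.ofReal (309 * (2 / 2500)) := by
    refine (measure_biUnion_finset_le _ _).trans ?_
    have h1 : ∀ p ∈ P, volume (ball p (1 / 2500 : ℝ)) ≤ ENNReal.ofReal (2 / 2500) := by
      intro p _
      rw [Real.volume_ball]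
      apply ENNReal.ofReal_le_ofReal
      norm_num
    refine (Finset.sum_le_card_nsmul _ _ _ h1).trans ?_
    rw [nsmul_eq_mul, ENNReal.ofReal_mul (by norm_num : (0 : ℝ) ≤ 309)]
    refine mul_le_mul_left ?_ _
    have h2 : (P.card : ENNReal) ≤ ((309 : ℕ) : ENNReal) := by exact_mod_cast hP
    refine h2.trans (le_of_eq ?_)
    rw [ENNReal.ofReal_ofNat]
    rfl
  have hv2 : volume B2 ≤ ENNReal.ofReal (1 / 4) := by
    by_cases h0 : (volume M).toReal = 0
    · have h1 : volume M = 0 := by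
        rcases (ENNReal.toReal_eq_zero_iff _).1 h0 with h | h
        · exact h
        · exact absurd h hfin
      rw [h1] at hint
      have h2 := (lintegral_eq_zero_iff hmeas).1 hint.symm
      have h3 : volume B2 = 0 := by
        refine measure_mono_null ?_ (ae_iff.1 h2)
        intro ξ hξ
        have h4 : ENNReal.ofReal (4 * (volume M).toReal) < volume {y : ℝ | (ξ, y) ∈ M} := hξ
        rw [h0, mul_zero, ENNReal.ofReal_zero] at h4
        intro h5
        have h6 : volume {y : ℝ | (ξ, y) ∈ M} = 0 := h5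
        rw [h6] at h4
        exact lt_irrefl _ h4
      rw [h3]
      exact bot_le
    · have hpos : 0 < (volume M).toReal := lt_of_le_of_ne ENNReal.toReal_nonneg (Ne.symm h0)
      set ε : ENNReal := ENNReal.ofReal (4 * (volume M).toReal) with hε
      have hε0 : ε ≠ 0 := by
        rw [hε, Ne, ENNReal.ofReal_eq_zero, not_le]
        positivity
      have h1 := mul_meas_ge_le_lintegral₀ (μ := (volume : Measure ℝ)) hmeas.aemeasurable ε
      rw [← hint] at h1
      have h2 : ε * volume B2 ≤ volume M := by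
        refine le_trans (mul_le_mul_right (measure_mono ?_) _) h1
        intro ξ hξ
        have h5 : ε < volume {y : ℝ | (ξ, y) ∈ M} := hξ
        exact h5.le
      have h3 : ε * ENNReal.ofReal (1 / 4) = volume M := by
        rw [hε, ← ENNReal.ofReal_mul (by positivity)]
        rw [show 4 * (volume M).toReal * (1 / 4) = (volume M).toReal by ring, ENNReal.ofReal_toReal hfin]
      rw [← h3] at h2
      exact (ENNReal.mul_le_mul_iff_right hε0 ENNReal.ofReal_ne_top).1 h2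
  refine ⟨I \ (B1 ∪ B2), Set.sdiff_subset, measurableSet_Icc.diff (hB1m.union hB2m), ?_, ?_⟩
  · have hvI : volume I = ENNReal.ofReal 1 := by
      rw [hI, Real.volume_Icc]
      congr 1
      ring
    have h1 : volume I ≤ volume (I \ (B1 ∪ B2)) + volume (B1 ∪ B2) := by
      refine (measure_mono ?_).trans (measure_union_le _ _)
      intro z hz
      by_cases h : z ∈ B1 ∪ B2
      · exact Or.inr h
      · exact Or.inl ⟨hz, h⟩
    have h2 : volume (B1 ∪ B2) ≤ ENNReal.ofReal (1 / 2) := by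
      refine (measure_union_le _ _).trans ((add_le_add hv1 hv2).trans ?_)
      rw [← ENNReal.ofReal_add (by norm_num) (by norm_num)]
      apply ENNReal.ofReal_le_ofReal
      norm_num
    have h3 : volume (I \ (B1 ∪ B2)) ≠ ⊤ := by
      refine ne_top_of_le_ne_top ?_ (measure_mono Set.sdiff_subset)
      rw [hvI]
      exact ENNReal.ofReal_ne_top
    have h4 : ENNReal.ofReal 1 ≤ ENNReal.ofReal ((volume (I \ (B1 ∪ B2))).toReal + 1 / 2) := by
      rw [ENNReal.ofReal_add ENNReal.toReal_nonneg (by norm_num), ENNReal.ofReal_toReal h3, ← hvI]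
      exact h1.trans (add_le_add_right h2 _)
    have h5 := (ENNReal.ofReal_le_ofReal_iff (by positivity)).1 h4
    linarith
  · intro ξ hξ
    have h1 : ξ ∉ B1 := fun h => hξ.2 (Or.inl h)
    have h2 : ξ ∉ B2 := fun h => hξ.2 (Or.inr h)
    refine ⟨fun p hp => ?_, ?_⟩
    · by_contra hcon
      push Not at hcon
      refine h1 (Set.mem_biUnion hp ?_)
      rw [mem_ball, Real.dist_eq]
      exact hcon
    · have h3 : volume {y : ℝ | (ξ, y) ∈ M} ≤ ENNReal.ofReal (4 * (volume M).toReal) := not_lt.1 h2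
      have h4 := ENNReal.toReal_mono ENNReal.ofReal_ne_top h3
      rwa [ENNReal.toReal_ofReal (by positivity)] at h4

/-- the plane as a product -/
lemma vol_pre37 {N : Set ℂ} (hN : MeasurableSet N) :
    MeasurableSet {p : ℝ × ℝ | (⟨p.1, p.2⟩ : ℂ) ∈ N} ∧
      volume {p : ℝ × ℝ | (⟨p.1, p.2⟩ : ℂ) ∈ N} = volume N := by
  have h := Complex.volume_preserving_equiv_real_prod.symm Complex.measurableEquivRealProd
  have h1 : {p : ℝ × ℝ | (⟨p.1, p.2⟩ : ℂ) ∈ N} = Complex.measurableEquivRealProd.symm ⁻¹' N := rfl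
  rw [h1]
  exact ⟨Complex.measurableEquivRealProd.symm.measurable hN, h.measure_preimage hN.nullMeasurableSet⟩

/-- generic vertical lines; `P` the real parts of the corners -/
theorem genericV {N : Set ℂ} (hN : MeasurableSet N) (hfin : volume N ≠ ⊤) (a : ℝ) (P : Finset ℝ) (hP : P.card ≤ 309) :
    ∃ G ⊆ Icc (a - 1 / 2) (a + 1 / 2), MeasurableSet G ∧ 1 / 2 ≤ (volume G).toReal ∧
      ∀ ξ ∈ G, (∀ p ∈ P, 1 / 2500 ≤ |ξ - p|) ∧
        (volume {y : ℝ | (⟨ξ, y⟩ : ℂ) ∈ N}).toReal ≤ 4 * ar N := by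
  obtain ⟨h1, h2⟩ := vol_pre37 hN
  have h3 := gen37 h1 (by rw [h2]; exact hfin) a P hP
  rw [h2] at h3
  exact h3

theorem genericH {N : Set ℂ} (hN : MeasurableSet N) (hfin : volume N ≠ ⊤) (a : ℝ) (P : Finset ℝ) (hP : P.card ≤ 309) :
    ∃ G ⊆ Icc (a - 1 / 2) (a + 1 / 2), MeasurableSet G ∧ 1 / 2 ≤ (volume G).toReal ∧
      ∀ η ∈ G, (∀ p ∈ P, 1 / 2500 ≤ |η - p|) ∧
        (volume {x : ℝ | (⟨x, η⟩ : ℂ) ∈ N}).toReal ≤ 4 * ar N := by
  obtain ⟨h1, h2⟩ := vol_pre37 hN
  have h4 : volume (Prod.swap ⁻¹' {p : ℝ × ℝ | (⟨p.1, p.2⟩ : ℂ) ∈ N}) = volume N := by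
    rw [← h2]
    exact (Measure.measurePreserving_swap (μ := (volume : Measure ℝ)) (ν := (volume : Measure ℝ))).measure_preimage
      h1.nullMeasurableSet
  have h3 := gen37 (M := Prod.swap ⁻¹' {p : ℝ × ℝ | (⟨p.1, p.2⟩ : ℂ) ∈ N}) (measurable_swap h1)
    (by rw [h4]; exact hfin) a P hP
  rw [h4] at h3
  exact h3

theorem box_pt {N : Set ℂ} (hN : MeasurableSet N) (hlt : ar N < 1 / 4) (hfin : volume N ≠ ⊤) {G H : Set ℝ} (hG : MeasurableSet G)
    (hH : MeasurableSet H) (hG1 : 1 / 2 ≤ (volume G).toReal) (hH1 : 1 / 2 ≤ (volume H).toReal) :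
    ∃ ξ ∈ G, ∃ η ∈ H, (⟨ξ, η⟩ : ℂ) ∉ N := by
  by_contra hcon
  push Not at hcon
  obtain ⟨h1, h2⟩ := vol_pre37 hN
  have h3 : G ×ˢ H ⊆ {p : ℝ × ℝ | (⟨p.1, p.2⟩ : ℂ) ∈ N} := fun p hp => hcon p.1 hp.1 p.2 hp.2
  have h4 := measure_mono (μ := (volume : Measure (ℝ × ℝ))) h3
  rw [h2, Measure.volume_eq_prod, Measure.prod_prod] at h4
  have h5 := ENNReal.toReal_mono hfin h4
  rw [ENNReal.toReal_mul] at h5
  have h6 : (1 / 2 : ℝ) * (1 / 2) ≤ (volume G).toReal * (volume H).toReal :=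
    mul_le_mul hG1 hH1 (by norm_num) (by linarith)
  have h7 : ar N = (volume N).toReal := rfl
  rw [h7] at hlt
  linarith

lemma isClosed_Bx37 (x : ℂ) (a : ℝ) : IsClosed (Bx x a) := by
  have h1 : Bx x a = {z : ℂ | |z.re - x.re| ≤ a} ∩ {z : ℂ | |z.im - x.im| ≤ a} := rfl
  rw [h1]
  refine IsClosed.inter ?_ ?_
  · exact isClosed_le (continuous_abs.comp (Complex.continuous_re.sub continuous_const)) continuous_const
  · exact isClosed_le (continuous_abs.comp (Complex.continuous_im.sub continuous_const)) continuous_const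

lemma vol_Bx37 (x : ℂ) (a : ℝ) : volume (Bx x a) = ENNReal.ofReal (2 * a) * ENNReal.ofReal (2 * a) := by
  obtain ⟨_, h2⟩ := vol_pre37 (isClosed_Bx37 x a).measurableSet
  rw [← h2]
  have h3 : {p : ℝ × ℝ | (⟨p.1, p.2⟩ : ℂ) ∈ Bx x a} = Icc (x.re - a) (x.re + a) ×ˢ Icc (x.im - a) (x.im + a) := by
    ext p
    show |p.1 - x.re| ≤ a ∧ |p.2 - x.im| ≤ a ↔ (x.re - a ≤ p.1 ∧ p.1 ≤ x.re + a) ∧ (x.im - a ≤ p.2 ∧ p.2 ≤ x.im + a)
    rw [abs_le, abs_le]
    constructor
    · rintro ⟨⟨h1, h2⟩, h3, h4⟩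
      exact ⟨⟨by linarith, by linarith⟩, by linarith, by linarith⟩
    · rintro ⟨⟨h1, h2⟩, h3, h4⟩
      exact ⟨⟨by linarith, by linarith⟩, by linarith, by linarith⟩
  rw [h3, Measure.volume_eq_prod, Measure.prod_prod, Real.volume_Icc, Real.volume_Icc]
  congr 2 <;> ring

lemma mem_Bx37 {x z : ℂ} {a : ℝ} (h : ‖z - x‖ ≤ a) : z ∈ Bx x a := by
  refine ⟨?_, ?_⟩
  · have := Complex.abs_re_le_norm (z - x)
    rw [Complex.sub_re] at this
    linarith
  · have := Complex.abs_im_le_norm (z - x)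
    rw [Complex.sub_im] at this
    linarith

theorem count {ι : Type} (F : ι → Tg) (hF : Dj F) (x : ℂ) (S : Finset ι)
    (hS : ∀ i ∈ S, ((F i).s ∩ Bx x 6).Nonempty) : S.card ≤ 103 := by
  classical
  have h1 : ∀ i ∈ S, ∃ c' : ℂ, ball c' 1 ⊆ interior (F i).s ∧ ball c' 1 ⊆ Bx x 9 := by
    intro i hi
    obtain ⟨z, hz, hzB⟩ := hS i hi
    obtain ⟨c', hc', hcz⟩ := tri_sub_ball (F i).hu (F i).hr hz
    refine ⟨c', interior_maximal (ball_subset_closedBall.trans hc') isOpen_ball, ?_⟩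
    intro y hy
    rw [mem_ball, dist_eq_norm] at hy
    have e1 := Complex.abs_re_le_norm (y - c')
    have e2 := Complex.abs_im_le_norm (y - c')
    have e3 := Complex.abs_re_le_norm (c' - z)
    have e4 := Complex.abs_im_le_norm (c' - z)
    rw [Complex.sub_re] at e1 e3
    rw [Complex.sub_im] at e2 e4
    have e5 := hzB.1
    have e6 := hzB.2
    refine ⟨?_, ?_⟩
    · have : |y.re - x.re| ≤ |y.re - c'.re| + |c'.re - z.re| + |z.re - x.re| := by
        have t1 := abs_sub_le y.re c'.re x.re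
        have t2 := abs_sub_le c'.re z.re x.re
        linarith
      linarith
    · have : |y.im - x.im| ≤ |y.im - c'.im| + |c'.im - z.im| + |z.im - x.im| := by
        have t1 := abs_sub_le y.im c'.im x.im
        have t2 := abs_sub_le c'.im z.im x.im
        linarith
      linarith
  choose! c' hc1 hc2 using h1
  have h2 : volume (⋃ i ∈ S, ball (c' i) 1) = ∑ i ∈ S, volume (ball (c' i) 1) := by
    refine measure_biUnion_finset ?_ (fun i _ => isOpen_ball.measurableSet)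
    intro i hi j hj hij
    exact (hF i j hij).mono (hc1 i hi) (hc1 j hj)
  have h3 : volume (⋃ i ∈ S, ball (c' i) 1) ≤ volume (Bx x 9) :=
    measure_mono (Set.iUnion₂_subset fun i hi => hc2 i hi)
  rw [h2, vol_Bx37] at h3
  have h4 : ∑ i ∈ S, volume (ball (c' i) 1) = ENNReal.ofReal (S.card * Real.pi) := by
    have h5 : ∀ i ∈ S, volume (ball (c' i) 1) = ENNReal.ofReal Real.pi := by
      intro i _
      rw [Complex.volume_ball, ENNReal.ofReal_one, one_pow, one_mul]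
      exact (ENNReal.ofReal_eq_coe_nnreal Real.pi_pos.le).symm
    rw [Finset.sum_congr rfl h5, Finset.sum_const, nsmul_eq_mul, ENNReal.ofReal_mul (Nat.cast_nonneg _),
      ENNReal.ofReal_natCast]
  rw [h4, ← ENNReal.ofReal_mul (by norm_num)] at h3
  have h5 := (ENNReal.ofReal_le_ofReal_iff (by norm_num)).1 h3
  have h6 := Real.pi_gt_d2
  by_contra hcon
  push Not at hcon
  have h7 : (104 : ℝ) ≤ S.card := by exact_mod_cast hcon
  nlinarith

lemma isClosed_s37 (T : Tg) : IsClosed T.s := isClosed_tri T.c T.u T.r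

lemma isClosed_iU37 {ι : Type} [Fintype ι] (F : ι → Tg) : IsClosed (⋃ i, (F i).s) :=
  isClosed_iUnion_of_finite fun i => isClosed_s37 (F i)

lemma meas_unc37 {ι : Type} [Fintype ι] (F : ι → Tg) (x : ℂ) (a : ℝ) : MeasurableSet (unc F (Bx x a)) :=
  (isClosed_Bx37 x a).measurableSet.diff (isClosed_iU37 F).measurableSet

lemma fin_unc37 {ι : Type} (F : ι → Tg) (x : ℂ) (a : ℝ) : volume (unc F (Bx x a)) ≠ ⊤ := by
  refine ne_top_of_le_ne_top ?_ (measure_mono Set.sdiff_subset)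
  rw [vol_Bx37]
  exact ENNReal.mul_ne_top ENNReal.ofReal_ne_top ENNReal.ofReal_ne_top

lemma norm_w37 (T : Tg) : ‖T.w‖ = 1 := by
  unfold Tg.w
  rw [norm_pow, T.hu, one_pow]

/-- one generic segment -/
lemma line37 {ι : Type} (F : ι → Tg) (hF : Dj F) (x : ℂ) (S : Finset ι)
    (hS : ∀ i, ((F i).s ∩ Bx x 6).Nonempty → i ∈ S) (g : ℝ → ℂ) (hg : Continuous g)
    (hgd : ∀ s s', ‖g s - g s'‖ = |s - s'|) (hgs : ∀ s s', segment ℝ (g s) (g s') ⊆ range g)
    (hc : ∀ i ∈ S, ∀ k, ∀ s, 1 / 2500 ≤ ‖g s - cor (F i).c (F i).u (F i).r k‖)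
    (a b : ℝ) (hab : a ≤ b) (hB : ∀ s ∈ Icc a b, g s ∈ Bx x 6) (hfin : volume {y : ℝ | g y ∈ unc F (Bx x 6)} ≠ ⊤)
    (i j : ι) (hi : g a ∈ (F i).s) (hj : g b ∈ (F j).s) :
    ‖(F i).w - (F j).w‖ ≤ 120000 * (volume {y : ℝ | g y ∈ unc F (Bx x 6)}).toReal := by
  have hiS : i ∈ S := hS i ⟨g a, hi, hB a ⟨le_refl _, hab⟩⟩
  have hjS : j ∈ S := hS j ⟨g b, hj, hB b ⟨hab, le_refl _⟩⟩
  have h1 := chain1D S (fun i => g ⁻¹' (F i).s) (fun i _ => (isClosed_s37 (F i)).preimage hg)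
    (fun i => (F i).w) (K := 120000) (by norm_num) hab (by
      intro k hk l hl s hs s' hs'
      by_cases hkl : k = l
      · rw [hkl, sub_self, norm_zero]
        positivity
      · have h2 := edge (F k) (F l) (hF k l hkl) (za := g s) (zb := g s') hs.1 hs'.1
          (κ := 1 / 2500) (by norm_num) (by
            intro m z hz
            obtain ⟨y, rfl⟩ := hgs s s' hz
            exact hc k hk m y) (by
            intro m z hz
            obtain ⟨y, rfl⟩ := hgs s s' hz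
            exact hc l hl m y)
        rw [hgd] at h2
        refine h2.trans (le_of_eq ?_)
        ring) hiS hjS hi hj
  refine h1.trans (mul_le_mul_of_nonneg_left (ENNReal.toReal_mono hfin (measure_mono ?_)) (by norm_num))
  intro s hs
  refine ⟨hB s hs.1, ?_⟩
  intro h2
  obtain ⟨k, hk⟩ := Set.mem_iUnion.1 h2
  refine hs.2 (Set.mem_biUnion (hS k ⟨g s, hk, hB s hs.1⟩) hk)

/-- both directions -/
lemma line37' {ι : Type} (F : ι → Tg) (hF : Dj F) (x : ℂ) (S : Finset ι)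
    (hS : ∀ i, ((F i).s ∩ Bx x 6).Nonempty → i ∈ S) (g : ℝ → ℂ) (hg : Continuous g)
    (hgd : ∀ s s', ‖g s - g s'‖ = |s - s'|) (hgs : ∀ s s', segment ℝ (g s) (g s') ⊆ range g)
    (hc : ∀ i ∈ S, ∀ k, ∀ s, 1 / 2500 ≤ ‖g s - cor (F i).c (F i).u (F i).r k‖)
    (a b : ℝ) (hB : ∀ s, (a ≤ s ∧ s ≤ b) ∨ (b ≤ s ∧ s ≤ a) → g s ∈ Bx x 6)
    (hfin : volume {y : ℝ | g y ∈ unc F (Bx x 6)} ≠ ⊤)
    (i j : ι) (hi : g a ∈ (F i).s) (hj : g b ∈ (F j).s) :
    ‖(F i).w - (F j).w‖ ≤ 120000 * (volume {y : ℝ | g y ∈ unc F (Bx x 6)}).toReal := by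
  rcases le_total a b with hab | hab
  · exact line37 F hF x S hS g hg hgd hgs hc a b hab (fun s hs => hB s (Or.inl hs)) hfin i j hi hj
  · rw [norm_sub_rev]
    exact line37 F hF x S hS g hg hgd hgs hc b a hab (fun s hs => hB s (Or.inr hs)) hfin j i hj hi

/-- affine lines -/
lemma seg37 (p e : ℂ) (s s' : ℝ) : segment ℝ (p + s * e) (p + s' * e) ⊆ range (fun s : ℝ => p + (s : ℂ) * e) := by
  rintro z ⟨a, b, _, _, hab, rfl⟩
  refine ⟨a * s + b * s', ?_⟩
  have h : (a : ℂ) + b = 1 := by exact_mod_cast hab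
  show p + ((a * s + b * s' : ℝ) : ℂ) * e = a • (p + s * e) + b • (p + s' * e)
  rw [Complex.real_smul, Complex.real_smul]
  push_cast
  calc p + ((a : ℂ) * s + b * s') * e = (a + b) * p + ((a : ℂ) * s + b * s') * e := by rw [h, one_mul]
    _ = a * (p + s * e) + b * (p + s' * e) := by ring

lemma dist_line37 (p e : ℂ) (he : ‖e‖ = 1) (s s' : ℝ) :
    ‖(p + (s : ℂ) * e) - (p + (s' : ℂ) * e)‖ = |s - s'| := by
  have h : (p + (s : ℂ) * e) - (p + (s' : ℂ) * e) = ((s - s' : ℝ) : ℂ) * e := by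
    push_cast
    ring
  rw [h, norm_mul, he, mul_one, Complex.norm_real, Real.norm_eq_abs]

/-- LL -/
theorem local_lemma {ι : Type} [Fintype ι] (F : ι → Tg) (hF : Dj F) (x : ℂ) (i j : ι)
    (hi : ((F i).s ∩ closedBall x 3).Nonempty) (hj : ((F j).s ∩ closedBall x 3).Nonempty) :
    ‖(F i).w - (F j).w‖ ≤ 10 ^ 6 * ar (unc F (Bx x 6)) := by
  classical
  set N := unc F (Bx x 6) with hN
  by_cases hom : 1 / 4 ≤ ar N
  · have h1 := norm_sub_le (F i).w (F j).w
    rw [norm_w37, norm_w37] at h1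
    linarith
  push Not at hom
  have hNm : MeasurableSet N := meas_unc37 F x 6
  have hNf : volume N ≠ ⊤ := fin_unc37 F x 6
  set S := Finset.univ.filter (fun i => ((F i).s ∩ Bx x 6).Nonempty) with hSdef
  have hS : ∀ i, ((F i).s ∩ Bx x 6).Nonempty → i ∈ S := fun i h => Finset.mem_filter.2 ⟨Finset.mem_univ _, h⟩
  have hcard : S.card ≤ 103 := count F hF x S fun i hi => (Finset.mem_filter.1 hi).2
  set Pre : Finset ℝ := (S ×ˢ (Finset.univ : Finset (Fin 3))).image
    (fun q => (cor (F q.1).c (F q.1).u (F q.1).r q.2).re) with hPre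
  set Pim : Finset ℝ := (S ×ˢ (Finset.univ : Finset (Fin 3))).image
    (fun q => (cor (F q.1).c (F q.1).u (F q.1).r q.2).im) with hPim
  have hPc : (S ×ˢ (Finset.univ : Finset (Fin 3))).card ≤ 309 := by
    rw [Finset.card_product, Finset.card_univ, Fintype.card_fin]
    omega
  have hPre1 : Pre.card ≤ 309 := Finset.card_image_le.trans hPc
  have hPim1 : Pim.card ≤ 309 := Finset.card_image_le.trans hPc
  have hex : ∀ k, ((F k).s ∩ closedBall x 3).Nonempty → ∃ c' : ℂ, closedBall c' 1 ⊆ (F k).s ∧ ‖c' - x‖ ≤ 5 := by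
    rintro k ⟨z, hz, hzB⟩
    obtain ⟨c', hc', hcz⟩ := tri_sub_ball (F k).hu (F k).hr hz
    refine ⟨c', hc', ?_⟩
    rw [mem_closedBall, dist_eq_norm] at hzB
    have : c' - x = (c' - z) + (z - x) := by ring
    rw [this]
    exact (norm_add_le _ _).trans (by linarith)
  obtain ⟨c1, hc1, hc1x⟩ := hex i hi
  obtain ⟨c2, hc2, hc2x⟩ := hex j hj
  obtain ⟨G, hGI, hGm, hGv, hG⟩ := genericV hNm hNf c1.re Pre hPre1
  obtain ⟨H, hHI, hHm, hHv, hH⟩ := genericH hNm hNf c2.im Pim hPim1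
  obtain ⟨ξ, hξ, η, hη, hξη⟩ := box_pt hNm hom hNf hGm hHm hGv hHv
  have hξI := hGI hξ
  have hηI := hHI hη
  have e1 := Complex.abs_re_le_norm (c1 - x)
  have e2 := Complex.abs_im_le_norm (c1 - x)
  have e3 := Complex.abs_re_le_norm (c2 - x)
  have e4 := Complex.abs_im_le_norm (c2 - x)
  rw [Complex.sub_re, abs_le] at e1 e3
  rw [Complex.sub_im, abs_le] at e2 e4
  have hpt : (⟨ξ, η⟩ : ℂ) ∈ Bx x 6 := by
    refine ⟨?_, ?_⟩
    · show |ξ - x.re| ≤ 6
      rw [abs_le]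
      exact ⟨by linarith [hξI.1, e1.1], by linarith [hξI.2, e1.2]⟩
    · show |η - x.im| ≤ 6
      rw [abs_le]
      exact ⟨by linarith [hηI.1, e4.1], by linarith [hηI.2, e4.2]⟩
  obtain ⟨k, hk⟩ : ∃ k, (⟨ξ, η⟩ : ℂ) ∈ (F k).s := by
    by_contra hcon
    push Not at hcon
    refine hξη ⟨hpt, fun h => ?_⟩
    obtain ⟨k, hk⟩ := Set.mem_iUnion.1 h
    exact hcon k hk
  have hcor : ∀ l ∈ S, ∀ m, (cor (F l).c (F l).u (F l).r m).re ∈ Pre ∧ (cor (F l).c (F l).u (F l).r m).im ∈ Pim := by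
    intro l hl m
    have h1 : (l, m) ∈ S ×ˢ (Finset.univ : Finset (Fin 3)) := Finset.mem_product.2 ⟨hl, Finset.mem_univ _⟩
    exact ⟨Finset.mem_image_of_mem _ h1, Finset.mem_image_of_mem _ h1⟩
  -- vertical
  have hvert : ‖(F i).w - (F k).w‖ ≤ 120000 * (4 * ar N) := by
    have hg0 : ∀ s : ℝ, (ξ : ℂ) + (s : ℂ) * Complex.I = ⟨ξ, s⟩ := by
      intro s
      apply Complex.ext <;> simp
    have h1 := line37' F hF x S hS (fun s : ℝ => (ξ : ℂ) + (s : ℂ) * Complex.I) (by fun_prop)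
      (dist_line37 _ _ (by simp)) (fun s s' => seg37 _ _ s s') (by
        intro l hl m s
        have h2 := (hG ξ hξ).1 _ (hcor l hl m).1
        refine h2.trans ?_
        have h3 := Complex.abs_re_le_norm ((ξ : ℂ) + (s : ℂ) * Complex.I - cor (F l).c (F l).u (F l).r m)
        rw [hg0, Complex.sub_re] at h3
        rw [hg0]
        exact h3) c1.im η (by
        intro s hs
        show (ξ : ℂ) + (s : ℂ) * Complex.I ∈ Bx x 6
        rw [hg0]
        refine ⟨?_, ?_⟩
        · exact hpt.1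
        · show |s - x.im| ≤ 6
          rw [abs_le]
          rcases hs with hs | hs
          · exact ⟨by linarith [hs.1, e2.1], by linarith [hs.2, hηI.2, e4.2]⟩
          · exact ⟨by linarith [hs.1, hηI.1, e4.1], by linarith [hs.2, e2.2]⟩) (by
        refine ne_top_of_le_ne_top ?_ (measure_mono (t := Icc (x.im - 6) (x.im + 6)) ?_)
        · rw [Real.volume_Icc]
          exact ENNReal.ofReal_ne_top
        · intro s hs
          have h2 : ((ξ : ℂ) + (s : ℂ) * Complex.I) ∈ Bx x 6 := hs.1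
          rw [hg0] at h2
          have h3 : |s - x.im| ≤ 6 := h2.2
          rw [abs_le] at h3
          exact ⟨by linarith [h3.1], by linarith [h3.2]⟩) i k (by
        refine hc1 ?_
        show (ξ : ℂ) + (c1.im : ℂ) * Complex.I ∈ closedBall c1 1
        rw [hg0, mem_closedBall, dist_eq_norm]
        have h2 : (⟨ξ, c1.im⟩ : ℂ) - c1 = ((ξ - c1.re : ℝ) : ℂ) := by
          apply Complex.ext <;> simp
        rw [h2, Complex.norm_real, Real.norm_eq_abs, abs_le]
        exact ⟨by linarith [hξI.1], by linarith [hξI.2]⟩) (by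
        show (ξ : ℂ) + (η : ℂ) * Complex.I ∈ (F k).s
        rw [hg0]
        exact hk)
    refine h1.trans (mul_le_mul_of_nonneg_left ?_ (by norm_num))
    have h2 := (hG ξ hξ).2
    have h3 : {y : ℝ | (fun s : ℝ => (ξ : ℂ) + (s : ℂ) * Complex.I) y ∈ unc F (Bx x 6)}
        = {y : ℝ | (⟨ξ, y⟩ : ℂ) ∈ N} := by
      ext y
      show (ξ : ℂ) + (y : ℂ) * Complex.I ∈ unc F (Bx x 6) ↔ (⟨ξ, y⟩ : ℂ) ∈ N
      rw [hg0, hN]
    rw [h3]
    exact h2
  -- horizontal
  have hhor : ‖(F k).w - (F j).w‖ ≤ 120000 * (4 * ar N) := by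
    have hg0 : ∀ s : ℝ, (η : ℂ) * Complex.I + (s : ℂ) * 1 = ⟨s, η⟩ := by
      intro s
      apply Complex.ext <;> simp
    have h1 := line37' F hF x S hS (fun s : ℝ => (η : ℂ) * Complex.I + (s : ℂ) * 1) (by fun_prop)
      (dist_line37 _ _ (by simp)) (fun s s' => seg37 _ _ s s') (by
        intro l hl m s
        have h2 := (hH η hη).1 _ (hcor l hl m).2
        refine h2.trans ?_
        have h3 := Complex.abs_im_le_norm ((η : ℂ) * Complex.I + (s : ℂ) * 1 - cor (F l).c (F l).u (F l).r m)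
        rw [hg0, Complex.sub_im] at h3
        rw [hg0]
        exact h3) ξ c2.re (by
        intro s hs
        show (η : ℂ) * Complex.I + (s : ℂ) * 1 ∈ Bx x 6
        rw [hg0]
        refine ⟨?_, ?_⟩
        · show |s - x.re| ≤ 6
          rw [abs_le]
          rcases hs with hs | hs
          · exact ⟨by linarith [hs.1, hξI.1, e1.1], by linarith [hs.2, e3.2]⟩
          · exact ⟨by linarith [hs.1, e3.1], by linarith [hs.2, hξI.2, e1.2]⟩
        · exact hpt.2) (by
        refine ne_top_of_le_ne_top ?_ (measure_mono (t := Icc (x.re - 6) (x.re + 6)) ?_)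
        · rw [Real.volume_Icc]
          exact ENNReal.ofReal_ne_top
        · intro s hs
          have h2 : ((η : ℂ) * Complex.I + (s : ℂ) * 1) ∈ Bx x 6 := hs.1
          rw [hg0] at h2
          have h3 : |s - x.re| ≤ 6 := h2.1
          rw [abs_le] at h3
          exact ⟨by linarith [h3.1], by linarith [h3.2]⟩) k j (by
        show (η : ℂ) * Complex.I + (ξ : ℂ) * 1 ∈ (F k).s
        rw [hg0]
        exact hk) (by
        refine hc2 ?_
        show (η : ℂ) * Complex.I + (c2.re : ℂ) * 1 ∈ closedBall c2 1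
        rw [hg0, mem_closedBall, dist_eq_norm]
        have h2 : (⟨c2.re, η⟩ : ℂ) - c2 = ((η - c2.im : ℝ) : ℂ) * Complex.I := by
          apply Complex.ext <;> simp
        rw [h2, norm_mul, Complex.norm_I, mul_one, Complex.norm_real, Real.norm_eq_abs, abs_le]
        exact ⟨by linarith [hηI.1], by linarith [hηI.2]⟩)
    refine h1.trans (mul_le_mul_of_nonneg_left ?_ (by norm_num))
    have h2 := (hH η hη).2
    have h3 : {y : ℝ | (fun s : ℝ => (η : ℂ) * Complex.I + (s : ℂ) * 1) y ∈ unc F (Bx x 6)}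
        = {y : ℝ | (⟨y, η⟩ : ℂ) ∈ N} := by
      ext y
      show (η : ℂ) * Complex.I + (y : ℂ) * 1 ∈ unc F (Bx x 6) ↔ (⟨y, η⟩ : ℂ) ∈ N
      rw [hg0, hN]
    rw [h3]
    exact h2
  have h1 : (F i).w - (F j).w = ((F i).w - (F k).w) + ((F k).w - (F j).w) := by ring
  rw [h1]
  have har : 0 ≤ ar N := ENNReal.toReal_nonneg
  refine (norm_add_le _ _).trans ?_
  linarith

end PST
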