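import Pool.Agent.PST.Defs

/-!
# MP_332d77_co, second term of `P(2,t)`: the rows
-/

set_option autoImplicit false

open MeasureTheory Set Metric
open scoped ComplexConjugate

namespace PST

/-- the local lemma, as a statement -/
def LLs : Prop := ∀ (ι : Type) [Fintype ι] (F : ι → Tg), Dj F → ∀ (x : ℂ) (i j : ι),
    ((F i).s ∩ closedBall x 3).Nonempty → ((F j).s ∩ closedBall x 3).Nonempty →
    ‖(F i).w - (F j).w‖ ≤ 10 ^ 6 * ar (unc F (Bx x 6))

/-- the overlap lemma, as a statement -/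
def OVs : Prop := ∀ (N : Set ℂ), MeasurableSet N → volume N ≠ ⊤ → ∀ (P : Finset (ℤ × ℤ)),
    ∑ p ∈ P, ar (N ∩ Bx (⟨(p.1 : ℝ), (p.2 : ℝ)⟩ : ℂ) 6) ≤ 196 * ar N

theorem zt_re : zt.re = -1 / 2 := rfl
theorem zt_im : zt.im = Real.sqrt 3 / 2 := rfl
theorem zt_sq : zt ^ 2 = ⟨-1 / 2, -(Real.sqrt 3 / 2)⟩ := by
  have h3 : Real.sqrt 3 * Real.sqrt 3 = 3 := Real.mul_self_sqrt (by norm_num)
  apply Complex.ext
  · simp [pow_two, zt]; nlinarith
  · simp [pow_two, zt]; ring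

theorem nrm_zero (u : ℂ) : nrm u 0 = u := by simp [nrm]
theorem nrm_one (u : ℂ) : nrm u 1 = u * zt := by simp [nrm]
theorem nrm_two (u : ℂ) : nrm u 2 = u * zt ^ 2 := by simp [nrm]

theorem mem_tri_iff {c u : ℂ} {r : ℝ} {z : ℂ} : z ∈ Tri c u r ↔
    (conj u * (z - c)).re ≤ r ∧ (conj (u * zt) * (z - c)).re ≤ r ∧ (conj (u * zt ^ 2) * (z - c)).re ≤ r := by
  constructor
  · intro h
    exact ⟨by simpa [nrm_zero] using h 0, by simpa [nrm_one] using h 1, by simpa [nrm_two] using h 2⟩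
  · rintro ⟨h0, h1, h2⟩ k
    fin_cases k
    · simpa [nrm_zero] using h0
    · simpa [nrm_one] using h1
    · simpa [nrm_two] using h2

/-- a triangle in terms of `d = conj u (z - c)` -/
theorem mem_tri_iff' {c u : ℂ} {r : ℝ} {z : ℂ} : z ∈ Tri c u r ↔
    (conj u * (z - c)).re ≤ r ∧
    -1 / 2 * (conj u * (z - c)).re + Real.sqrt 3 / 2 * (conj u * (z - c)).im ≤ r ∧
    -1 / 2 * (conj u * (z - c)).re - Real.sqrt 3 / 2 * (conj u * (z - c)).im ≤ r := by
  rw [mem_tri_iff]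
  have e1 : (conj (u * zt) * (z - c)).re = -1 / 2 * (conj u * (z - c)).re + Real.sqrt 3 / 2 * (conj u * (z - c)).im := by
    rw [map_mul, show conj u * conj zt * (z - c) = conj zt * (conj u * (z - c)) by ring, Complex.mul_re,
      Complex.conj_re, Complex.conj_im, zt_re, zt_im]; ring
  have e2 : (conj (u * zt ^ 2) * (z - c)).re = -1 / 2 * (conj u * (z - c)).re - Real.sqrt 3 / 2 * (conj u * (z - c)).im := by
    rw [map_mul, zt_sq, show conj u * conj (⟨-1 / 2, -(Real.sqrt 3 / 2)⟩ : ℂ) * (z - c)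
      = conj (⟨-1 / 2, -(Real.sqrt 3 / 2)⟩ : ℂ) * (conj u * (z - c)) by ring, Complex.mul_re,
      Complex.conj_re, Complex.conj_im]; ring
  rw [e1, e2]

theorem norm_conj_mul {u : ℂ} (hu : ‖u‖ = 1) (d : ℂ) : ‖conj u * d‖ = ‖d‖ := by
  rw [norm_mul, Complex.norm_conj, hu, one_mul]

/-- every point of the triangle is within `2 r` of the centre -/
theorem tri_dist {c u : ℂ} (hu : ‖u‖ = 1) {r : ℝ} {z : ℂ} (hz : z ∈ Tri c u r) : ‖z - c‖ ≤ 2 * r := by
  have h3 : Real.sqrt 3 * Real.sqrt 3 = 3 := Real.mul_self_sqrt (by norm_num)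
  obtain ⟨h0, h1, h2⟩ := mem_tri_iff'.1 hz
  rw [← norm_conj_mul hu]
  set d := conj u * (z - c) with hd
  have hr : 0 ≤ r := by linarith
  have : ‖d‖ ^ 2 ≤ (2 * r) ^ 2 := by
    rw [← Complex.normSq_eq_norm_sq, Complex.normSq_apply]
    have hp : 0 ≤ r - d.re := by linarith
    have hq : 0 ≤ r + d.re / 2 - Real.sqrt 3 / 2 * d.im := by linarith
    have hs : 0 ≤ r + d.re / 2 + Real.sqrt 3 / 2 * d.im := by linarith
    nlinarith [mul_nonneg hp hq, mul_nonneg hp hs, mul_nonneg hq hs]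
  exact abs_le_of_sq_le_sq' this (by linarith) |>.2

/-- the big triangle on the tangent line at `R e` -/
noncomputable def big (R : ℝ) (e : ℂ) (he : ‖e‖ = 1) : Tg where
  c := (R + 10 : ℝ) * e
  u := -e
  r := 10
  hu := by rw [norm_neg, he]
  hr := by norm_num

theorem big_w (R : ℝ) (e : ℂ) (he : ‖e‖ = 1) : (big R e he).w = e ^ 6 := by
  simp only [Tg.w, big]; ring

theorem conj_mul_self {e : ℂ} (he : ‖e‖ = 1) : conj e * e = 1 := by
  rw [mul_comm, Complex.mul_conj, Complex.normSq_eq_norm_sq, he]; norm_num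

theorem big_half {R : ℝ} {e : ℂ} (he : ‖e‖ = 1) {z : ℂ} (hz : z ∈ (big R e he).s) : R ≤ (conj e * z).re := by
  have h := (mem_tri_iff'.1 hz).1
  have h1 : (conj (-e) * (z - (R + 10 : ℝ) * e)).re = (R + 10) - (conj e * z).re := by
    have : conj (-e) * (z - (R + 10 : ℝ) * e) = ((R + 10 : ℝ) : ℂ) * (conj e * e) - conj e * z := by
      rw [map_neg]; ring
    rw [this, conj_mul_self he]; simp
  change (conj (-e) * (z - (R + 10 : ℝ) * e)).re ≤ 10 at h
  rw [h1] at h; linarith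

/-- the big triangle contains the part near `R e` of the half plane -/
theorem big_mem {R : ℝ} {e : ℂ} (he : ‖e‖ = 1) {z : ℂ} (h1 : R ≤ (conj e * z).re) (h2 : ‖z - R * e‖ ≤ 9) :
    z ∈ (big R e he).s := by
  have h3 : Real.sqrt 3 * Real.sqrt 3 = 3 := Real.mul_self_sqrt (by norm_num)
  have h30 : 0 ≤ Real.sqrt 3 := Real.sqrt_nonneg _
  set d := conj e * (z - R * e) with hd
  have hn : ‖d‖ ≤ 9 := by rw [hd, norm_conj_mul he]; exact h2
  have hdre : (conj e * z).re = R + d.re := by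
    have : conj e * z = d + R * (conj e * e) := by rw [hd]; ring
    rw [this, conj_mul_self he]; simp; ring
  have hs : 0 ≤ d.re := by linarith
  have hsq : d.re ^ 2 + d.im ^ 2 ≤ 81 := by
    have := Complex.normSq_eq_norm_sq d
    rw [Complex.normSq_apply] at this
    nlinarith [norm_nonneg d]
  have hu : conj (-e) * (z - (R + 10 : ℝ) * e) = 10 - d := by
    have : conj (-e) * (z - (R + 10 : ℝ) * e) = 10 * (conj e * e) - d := by
      rw [hd, map_neg]; push_cast; ring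
    rw [this, conj_mul_self he]; ring
  change z ∈ Tri ((R + 10 : ℝ) * e) (-e) 10
  rw [mem_tri_iff', hu]
  simp only [Complex.sub_re, Complex.sub_im]
  have h10 : (10 : ℂ).re = 10 := by norm_num
  have h10' : (10 : ℂ).im = 0 := by norm_num
  rw [h10, h10']
  have hb : |(Real.sqrt 3 / 2) * d.im| ≤ 8 := by
    apply abs_le_of_sq_le_sq _ (by norm_num)
    nlinarith [sq_nonneg d.re]
  have hre : d.re ≤ 9 := by nlinarith [sq_nonneg d.im]
  rw [abs_le] at hb
  refine ⟨by linarith, ?_, ?_⟩ <;> nlinarith [hb.1, hb.2]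

theorem norm_ge_re {e : ℂ} (he : ‖e‖ = 1) (z : ℂ) : (conj e * z).re ≤ ‖z‖ := by
  calc (conj e * z).re ≤ ‖conj e * z‖ := Complex.re_le_norm _
    _ = ‖z‖ := norm_conj_mul he z

/-- the big triangle is outside the disc -/
theorem big_disj {R : ℝ} {e : ℂ} (he : ‖e‖ = 1) {A : Set ℂ} (hA : A ⊆ closedBall 0 R) :
    Disjoint (interior (big R e he).s) (interior A) := by
  rw [Set.disjoint_left]
  intro z hz hz'
  have h1 := big_half he (interior_subset hz)
  obtain ⟨ε, hε, hb⟩ := Metric.isOpen_iff.1 isOpen_interior z hz'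
  have hmem : z + (ε / 2 : ℝ) * e ∈ ball z ε := by
    rw [mem_ball, dist_eq_norm]
    have : z + (ε / 2 : ℝ) * e - z = (ε / 2 : ℝ) * e := by ring
    rw [this, norm_mul, he, Complex.norm_real, Real.norm_eq_abs, abs_of_pos (by linarith)]; linarith
  have h2 := hA (interior_subset (hb hmem))
  rw [mem_closedBall_zero_iff] at h2
  have h3 := norm_ge_re he (z + (ε / 2 : ℝ) * e)
  have h4 : (conj e * (z + (ε / 2 : ℝ) * e)).re = (conj e * z).re + ε / 2 := by
    have : conj e * (z + (ε / 2 : ℝ) * e) = conj e * z + (ε / 2 : ℝ) * (conj e * e) := by ring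
    rw [this, conj_mul_self he]; simp
  linarith

/-- a point outside the slightly larger disc and close to `R e` is in the big triangle -/
theorem tangent {R : ℝ} (hR : 0 < R) {e : ℂ} (he : ‖e‖ = 1) {z : ℂ} (h1 : ‖z - R * e‖ ^ 2 ≤ 72)
    (h2 : R ^ 2 + 72 ≤ ‖z‖ ^ 2) : z ∈ (big R e he).s := by
  have hkey : ‖z‖ ^ 2 = R ^ 2 + 2 * R * (conj e * (z - R * e)).re + ‖z - R * e‖ ^ 2 := by
    have he2 : e.re * e.re + e.im * e.im = 1 := by
      have := Complex.normSq_eq_norm_sq e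
      rw [he, Complex.normSq_apply] at this; linarith
    rw [← Complex.normSq_eq_norm_sq, ← Complex.normSq_eq_norm_sq, Complex.normSq_apply, Complex.normSq_apply]
    simp only [Complex.mul_re, Complex.sub_re, Complex.sub_im, Complex.mul_im, Complex.conj_re, Complex.conj_im,
      Complex.ofReal_re, Complex.ofReal_im]
    linear_combination (R ^ 2) * he2
  have h3 : 0 ≤ (conj e * (z - R * e)).re := by
    by_contra hneg
    rw [not_le] at hneg
    have : R * (conj e * (z - R * e)).re < 0 := mul_neg_of_pos_of_neg hR hneg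
    linarith
  apply big_mem he
  · have : conj e * z = conj e * (z - R * e) + R * (conj e * e) := by ring
    rw [this, conj_mul_self he, Complex.add_re, mul_one, Complex.ofReal_re]; linarith
  · nlinarith [norm_nonneg (z - R * e)]

section rowgeo
variable {R : ℝ} {k : ℕ}

/-- half length of the row -/
noncomputable def XX (R : ℝ) (k : ℕ) : ℝ := Real.sqrt (R ^ 2 - (k : ℝ) ^ 2)

theorem XX_sq (hR : 100 ≤ R) (h2 : (k : ℝ) ≤ R / 3) : XX R k ^ 2 = R ^ 2 - (k : ℝ) ^ 2 := by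
  unfold XX
  rw [Real.sq_sqrt]
  have : (0 : ℝ) ≤ k := Nat.cast_nonneg k
  nlinarith

theorem XX_lo (hR : 100 ≤ R) (h2 : (k : ℝ) ≤ R / 3) : 9 / 10 * R ≤ XX R k := by
  have h := XX_sq hR h2
  have h0 : 0 ≤ XX R k := Real.sqrt_nonneg _
  have hk : (0 : ℝ) ≤ k := Nat.cast_nonneg k
  by_contra hlt
  rw [not_le] at hlt
  nlinarith

/-- unit vector of the right end of the row -/
noncomputable def eR (R : ℝ) (k : ℕ) : ℂ := ⟨XX R k / R, k / R⟩
/-- unit vector of the left end of the row -/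
noncomputable def eL (R : ℝ) (k : ℕ) : ℂ := ⟨-(XX R k / R), k / R⟩

theorem eR_norm (hR : 100 ≤ R) (h2 : (k : ℝ) ≤ R / 3) : ‖eR R k‖ = 1 := by
  have hR0 : R ≠ 0 := by positivity
  have h := XX_sq hR h2
  have h1 : ‖eR R k‖ ^ 2 = 1 := by
    rw [← Complex.normSq_eq_norm_sq, Complex.normSq_apply]
    simp only [eR]
    field_simp
    linarith
  nlinarith [norm_nonneg (eR R k)]

theorem eL_norm (hR : 100 ≤ R) (h2 : (k : ℝ) ≤ R / 3) : ‖eL R k‖ = 1 := by
  have hR0 : R ≠ 0 := by positivity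
  have h := XX_sq hR h2
  have h1 : ‖eL R k‖ ^ 2 = 1 := by
    rw [← Complex.normSq_eq_norm_sq, Complex.normSq_apply]
    simp only [eL]
    field_simp
    linarith
  nlinarith [norm_nonneg (eL R k)]

theorem R_eR (hR : 100 ≤ R) : (R : ℂ) * eR R k = ⟨XX R k, k⟩ := by
  have hR0 : R ≠ 0 := by positivity
  apply Complex.ext <;> simp [eR] <;> field_simp
theorem R_eL (hR : 100 ≤ R) : (R : ℂ) * eL R k = ⟨-XX R k, k⟩ := by
  have hR0 : R ≠ 0 := by positivity
  apply Complex.ext <;> simp [eL] <;> field_simp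

/-- the covering of the boxes of the row -/
theorem box_cover (hR : 100 ≤ R) (h2 : (k : ℝ) ≤ R / 3) {j : ℝ} (hj : |j| ≤ XX R k) {z : ℂ}
    (hz : z ∈ Bx (⟨j, (k : ℝ)⟩ : ℂ) 6) (hn : R ^ 2 + 72 ≤ ‖z‖ ^ 2) :
    z ∈ (big R (eR R k) (eR_norm hR h2)).s ∨ z ∈ (big R (eL R k) (eL_norm hR h2)).s := by
  obtain ⟨hz1, hz2⟩ := hz
  simp only at hz1 hz2
  rw [abs_le] at hz1 hz2 hj
  have hX := XX_sq hR h2
  have hXlo := XX_lo hR h2
  have hk : (0 : ℝ) ≤ k := Nat.cast_nonneg k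
  have hns : ‖z‖ ^ 2 = z.re ^ 2 + z.im ^ 2 := by
    rw [← Complex.normSq_eq_norm_sq, Complex.normSq_apply]; ring
  have him : z.im ^ 2 ≤ (k + 6) ^ 2 := by
    apply sq_le_sq'
    · linarith [hz2.1]
    · linarith [hz2.2]
  have hre : (XX R k - 6) ^ 2 ≤ z.re ^ 2 := by
    nlinarith
  have hX6 : 0 ≤ XX R k - 6 := by linarith
  rcases le_total 0 z.re with h0 | h0
  · left
    have hlo : XX R k - 6 ≤ z.re := by
      have := abs_le_of_sq_le_sq' hre h0
      exact this.2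
    apply tangent (by linarith) _ _ hn
    rw [R_eR hR, ← Complex.normSq_eq_norm_sq, Complex.normSq_apply]
    simp only [Complex.sub_re, Complex.sub_im]
    have q1 : (z.re - XX R k) ^ 2 ≤ 6 ^ 2 := sq_le_sq' (by linarith) (by linarith [hz1.2, hj.2])
    have q2 : (z.im - k) ^ 2 ≤ 6 ^ 2 := sq_le_sq' (by linarith [hz2.1]) (by linarith [hz2.2])
    linarith [q1, q2]
  · right
    have hlo : XX R k - 6 ≤ -z.re := by
      have h := abs_le_of_sq_le_sq' (a := XX R k - 6) (b := -z.re) (by nlinarith) (by linarith)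
      exact h.2
    apply tangent (by linarith) _ _ hn
    rw [R_eL hR, ← Complex.normSq_eq_norm_sq, Complex.normSq_apply]
    simp only [Complex.sub_re, Complex.sub_im]
    have q1 : (z.re - -XX R k) ^ 2 ≤ 6 ^ 2 := sq_le_sq' (by linarith [hz1.1, hj.1]) (by linarith)
    have q2 : (z.im - k) ^ 2 ≤ 6 ^ 2 := sq_le_sq' (by linarith [hz2.1]) (by linarith [hz2.2])
    linarith [q1, q2]

theorem big_disj' (hR : 100 ≤ R) (h2 : (k : ℝ) ≤ R / 3) :
    Disjoint (big R (eR R k) (eR_norm hR h2)).s (big R (eL R k) (eL_norm hR h2)).s := by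
  rw [Set.disjoint_left]
  intro z hz hz'
  have hXlo := XX_lo hR h2
  have hR0 : 0 < R := by linarith
  have h1 := tri_dist (big R (eR R k) (eR_norm hR h2)).hu hz
  have h3 := tri_dist (big R (eL R k) (eL_norm hR h2)).hu hz'
  have h4 : 9 / 10 ≤ XX R k / R := by rw [le_div_iff₀ hR0]; exact hXlo
  have hc1 : (big R (eR R k) (eR_norm hR h2)).c.re = (R + 10) * (XX R k / R) := by
    simp [big, eR]
  have hc2 : (big R (eL R k) (eL_norm hR h2)).c.re = -((R + 10) * (XX R k / R)) := by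
    simp [big, eL]
  have h5 := (Complex.abs_re_le_norm _).trans h1
  have h6 := (Complex.abs_re_le_norm _).trans h3
  rw [Complex.sub_re, hc1, abs_le] at h5
  rw [Complex.sub_re, hc2, abs_le] at h6
  have hr1 : (big R (eR R k) (eR_norm hR h2)).r = 10 := rfl
  have hr2 : (big R (eL R k) (eL_norm hR h2)).r = 10 := rfl
  rw [hr1] at h5
  rw [hr2] at h6
  have : 99 ≤ (R + 10) * (XX R k / R) := by nlinarith
  linarith [h5.1, h6.2]

/-- the orientations of the two ends differ -/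
theorem w_diff (hR : 100 ≤ R) (h1 : R / 8 ≤ k) (h2 : (k : ℝ) ≤ R / 3) :
    3 / 5 ≤ ‖(eR R k) ^ 6 - (eL R k) ^ 6‖ := by
  have hR0 : 0 < R := by linarith
  have hXlo := XX_lo hR h2
  have hX := XX_sq hR h2
  set c := XX R k / R with hc
  set s := (k : ℝ) / R with hs
  have hc1 : 9 / 10 ≤ c := by rw [hc, le_div_iff₀ hR0]; exact hXlo
  have hs1 : 1 / 8 ≤ s := by rw [hs, le_div_iff₀ hR0]; linarith
  have hs2 : s ≤ 1 / 3 := by rw [hs, div_le_iff₀ hR0]; linarith
  have hcs : c ^ 2 + s ^ 2 = 1 := by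
    rw [hc, hs]; field_simp; linarith
  have him : ((eR R k) ^ 6 - (eL R k) ^ 6).im = 4 * c * s * (3 - 4 * s ^ 2) * (1 - 4 * s ^ 2) := by
    have e1 : eR R k = ⟨c, s⟩ := rfl
    have e2 : eL R k = ⟨-c, s⟩ := rfl
    rw [e1, e2]
    have hc2 : c ^ 2 = 1 - s ^ 2 := by linarith
    have hc4 : c ^ 4 = (1 - s ^ 2) ^ 2 := by rw [← hc2]; ring
    have h6 : ∀ a b : ℝ, ((⟨a, b⟩ : ℂ) ^ 6).im = 6 * a ^ 5 * b - 20 * a ^ 3 * b ^ 3 + 6 * a * b ^ 5 := by
      intro a b
      have : (⟨a, b⟩ : ℂ) ^ 6 = (⟨a, b⟩ * ⟨a, b⟩ * ⟨a, b⟩) * (⟨a, b⟩ * ⟨a, b⟩ * ⟨a, b⟩) := by ring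
      rw [this]
      simp only [Complex.mul_im, Complex.mul_re]
      ring
    rw [Complex.sub_im, h6, h6]
    have : 6 * c ^ 5 * s - 20 * c ^ 3 * s ^ 3 + 6 * c * s ^ 5 -
      (6 * (-c) ^ 5 * s - 20 * (-c) ^ 3 * s ^ 3 + 6 * (-c) * s ^ 5)
      = 4 * c * s * (3 * c ^ 4 - 10 * c ^ 2 * s ^ 2 + 3 * s ^ 4) := by ring
    rw [this, hc4, hc2]; ring
  have hb : 3 / 5 ≤ 4 * c * s * (3 - 4 * s ^ 2) * (1 - 4 * s ^ 2) := by
    have a1 : 9 / 80 ≤ c * s := by nlinarith
    have a2 : 23 / 9 ≤ 3 - 4 * s ^ 2 := by nlinarith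
    have a3 : 5 / 9 ≤ 1 - 4 * s ^ 2 := by nlinarith
    have a4 : (23 / 9) * (5 / 9) ≤ (3 - 4 * s ^ 2) * (1 - 4 * s ^ 2) := by
      apply mul_le_mul a2 a3 (by norm_num) (by linarith)
    have a5 : (9 / 80) * ((23 / 9) * (5 / 9)) ≤ (c * s) * ((3 - 4 * s ^ 2) * (1 - 4 * s ^ 2)) := by
      apply mul_le_mul a1 a4 (by norm_num) (by linarith)
    nlinarith
  calc 3 / 5 ≤ ((eR R k) ^ 6 - (eL R k) ^ 6).im := by rw [him]; exact hb
    _ ≤ |((eR R k) ^ 6 - (eL R k) ^ 6).im| := le_abs_self _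
    _ ≤ _ := Complex.abs_im_le_norm _

end rowgeo

end PST
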