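import Pool.Agent.PST.B4

/-!
# MP_332d77_co, second term of `P(2,t)`: one row of the disc
-/

set_option autoImplicit false

open MeasureTheory Set Metric
open scoped ComplexConjugate

namespace PST

theorem tele (a : ℤ → ℂ) (b : ℤ → ℝ) (m : ℤ) (n : ℕ)
    (h : ∀ i : ℕ, i < n → ‖a (m + i + 1) - a (m + i)‖ ≤ b (m + i)) :
    ‖a (m + n) - a m‖ ≤ ∑ i ∈ Finset.range n, b (m + i) := by
  induction n with
  | zero => simp
  | succ n ih =>
    rw [Finset.sum_range_succ]
    have h1 := ih (fun i hi => h i (by omega))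
    have h2 := h n (by omega)
    have e : a (m + (n + 1 : ℕ)) - a m = (a (m + n + 1) - a (m + n)) + (a (m + n) - a m) := by
      push_cast
      rw [← add_assoc]; ring
    rw [e]
    calc _ ≤ ‖a (m + n + 1) - a (m + n)‖ + ‖a (m + n) - a m‖ := norm_add_le _ _
      _ ≤ _ := by linarith

theorem Bx_sub (x : ℂ) (a : ℝ) : Bx x a ⊆ closedBall x (2 * a) := by
  intro z hz
  rw [mem_closedBall, dist_eq_norm]
  have := Complex.norm_le_abs_re_add_abs_im (z - x)
  have h1 := hz.1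
  have h2 := hz.2
  rw [Complex.sub_re, Complex.sub_im] at this
  linarith

theorem Bx_fin (x : ℂ) (a : ℝ) : volume (Bx x a) ≠ ⊤ :=
  ((measure_mono (Bx_sub x a)).trans_lt measure_closedBall_lt_top).ne

theorem ball_sub_Bx (x : ℂ) {r a : ℝ} (h : r ≤ a) : ball x r ⊆ Bx x a := by
  intro z hz
  rw [mem_ball, dist_eq_norm] at hz
  have h1 := Complex.abs_re_le_norm (z - x)
  have h2 := Complex.abs_im_le_norm (z - x)
  rw [Complex.sub_re] at h1
  rw [Complex.sub_im] at h2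
  exact ⟨by linarith, by linarith⟩

theorem ar_mono {A B : Set ℂ} (h : A ⊆ B) (hB : volume B ≠ ⊤) : ar A ≤ ar B :=
  ENNReal.toReal_mono hB (measure_mono h)

theorem ar_nonneg (A : Set ℂ) : 0 ≤ ar A := ENNReal.toReal_nonneg

theorem ar_ball (x : ℂ) {r : ℝ} (hr : 0 ≤ r) : ar (ball x r) = Real.pi * r ^ 2 := by
  unfold ar
  rw [Complex.volume_ball, ENNReal.toReal_mul, ENNReal.toReal_pow, ENNReal.toReal_ofReal hr]
  simp [mul_comm]

theorem Tg.w_norm (T : Tg) : ‖T.w‖ = 1 := by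
  simp [Tg.w, T.hu]

section
variable {R : ℝ} {k : ℕ} {ι : Type}

/-- the family together with the two big triangles of the row -/
noncomputable def Fp (hR : 100 ≤ R) (h2 : (k : ℝ) ≤ R / 3) (F : ι → Tg) : ι ⊕ Bool → Tg
  | Sum.inl i => F i
  | Sum.inr true => big R (eR R k) (eR_norm hR h2)
  | Sum.inr false => big R (eL R k) (eL_norm hR h2)

theorem Fp_dj (hR : 100 ≤ R) (h2 : (k : ℝ) ≤ R / 3) {F : ι → Tg} (hF : Dj F)
    (hFR : ∀ i, (F i).s ⊆ closedBall 0 R) : Dj (Fp hR h2 F) := by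
  intro i j hij
  rcases i with i | b <;> rcases j with j | b'
  · exact hF i j (fun h => hij (by rw [h]))
  · cases b'
    · exact (big_disj (eL_norm hR h2) (hFR i)).symm
    · exact (big_disj (eR_norm hR h2) (hFR i)).symm
  · cases b
    · exact big_disj (eL_norm hR h2) (hFR j)
    · exact big_disj (eR_norm hR h2) (hFR j)
  · cases b <;> cases b'
    · exact absurd rfl hij
    · exact (big_disj' hR h2).symm.mono interior_subset interior_subset
    · exact (big_disj' hR h2).mono interior_subset interior_subset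
    · exact absurd rfl hij

theorem Fp_cover (hR : 100 ≤ R) (h2 : (k : ℝ) ≤ R / 3) (F : ι → Tg) {j : ℝ} (hj : |j| ≤ XX R k) :
    unc (Fp hR h2 F) (Bx (⟨j, (k : ℝ)⟩ : ℂ) 6) ⊆
      unc F {z | ‖z‖ ^ 2 < R ^ 2 + 72} ∩ Bx (⟨j, (k : ℝ)⟩ : ℂ) 6 := by
  rintro z ⟨hz, hn⟩
  rw [mem_iUnion, not_exists] at hn
  refine ⟨⟨?_, ?_⟩, hz⟩
  · by_contra hc
    rw [mem_setOf_eq, not_lt] at hc
    rcases box_cover hR h2 hj hz hc with h | h
    · exact hn (Sum.inr true) h
    · exact hn (Sum.inr false) h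
  · rw [mem_iUnion, not_exists]
    exact fun i => hn (Sum.inl i)

theorem end_mem (R : ℝ) (e : ℂ) (he : ‖e‖ = 1) : (R : ℂ) * e ∈ (big R e he).s := by
  apply big_mem he
  · have : conj e * (R * e) = R * (conj e * e) := by ring
    rw [this, conj_mul_self he]; simp
  · simp

/-- one row -/
theorem row (LL : LLs) [Fintype ι] (hR : 100 ≤ R) (h1 : R / 8 ≤ k) (h2 : (k : ℝ) ≤ R / 3) (F : ι → Tg) (hF : Dj F)
    (hFR : ∀ i, (F i).s ⊆ closedBall 0 R) :
    3 / 5 ≤ 2 * 10 ^ 6 * ∑ j ∈ Finset.Icc (-⌊XX R k⌋) ⌊XX R k⌋,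
      ar (unc F {z | ‖z‖ ^ 2 < R ^ 2 + 72} ∩ Bx (⟨(j : ℝ), (k : ℝ)⟩ : ℂ) 6) := by
  classical
  set J := ⌊XX R k⌋ with hJ
  have hXlo := XX_lo hR h2
  have hJX : (J : ℝ) ≤ XX R k := Int.floor_le _
  have hXJ : XX R k < J + 1 := Int.lt_floor_add_one _
  have hJ1 : 1 ≤ J := by
    rw [hJ, Int.le_floor]; push_cast; linarith
  set G := Fp hR h2 F with hGdef
  have hG : Dj G := Fp_dj hR h2 hF hFR
  set p : ℤ → ℂ := fun j => ⟨(j : ℝ), (k : ℝ)⟩ with hp
  set ω : ℤ → ℝ := fun j => ar (unc G (Bx (p j) 6)) with hωdef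
  have hω0 : ∀ j, 0 ≤ ω j := fun j => ar_nonneg _
  have hle : ∀ j ∈ Finset.Icc (-J) J, ω j ≤
      ar (unc F {z | ‖z‖ ^ 2 < R ^ 2 + 72} ∩ Bx (⟨(j : ℝ), (k : ℝ)⟩ : ℂ) 6) := by
    intro j hj
    rw [Finset.mem_Icc] at hj
    apply ar_mono (Fp_cover hR h2 F _)
    · exact ((measure_mono inter_subset_right).trans_lt (lt_top_iff_ne_top.2 (Bx_fin _ _))).ne
    · rw [abs_le]
      have a1 : (-J : ℝ) ≤ j := by exact_mod_cast hj.1
      have a2 : (j : ℝ) ≤ J := by exact_mod_cast hj.2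
      exact ⟨by linarith, by linarith⟩
  have hsum : ∑ j ∈ Finset.Icc (-J) J, ω j ≤ ∑ j ∈ Finset.Icc (-J) J,
      ar (unc F {z | ‖z‖ ^ 2 < R ^ 2 + 72} ∩ Bx (⟨(j : ℝ), (k : ℝ)⟩ : ℂ) 6) := Finset.sum_le_sum hle
  have hw : 3 / 5 ≤ ‖(G (Sum.inr true)).w - (G (Sum.inr false)).w‖ := by
    have e1 : (G (Sum.inr true)).w = (eR R k) ^ 6 := big_w R _ (eR_norm hR h2)
    have e2 : (G (Sum.inr false)).w = (eL R k) ^ 6 := big_w R _ (eL_norm hR h2)
    rw [e1, e2]
    exact w_diff hR h1 h2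
  suffices hkey : ‖(G (Sum.inr true)).w - (G (Sum.inr false)).w‖ ≤ 2 * 10 ^ 6 * ∑ j ∈ Finset.Icc (-J) J, ω j by
    linarith
  -- the right end
  have hend1 : ((G (Sum.inr true)).s ∩ closedBall (p J) 2).Nonempty := by
    refine ⟨(R : ℂ) * eR R k, end_mem R _ (eR_norm hR h2), ?_⟩
    rw [mem_closedBall, dist_eq_norm, R_eR hR]
    refine (Complex.norm_le_abs_re_add_abs_im _).trans ?_
    simp only [Complex.sub_re, Complex.sub_im, hp, sub_self, abs_zero, add_zero]
    rw [abs_le]; constructor <;> linarith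
  have hend2 : ((G (Sum.inr false)).s ∩ closedBall (p (-J)) 2).Nonempty := by
    refine ⟨(R : ℂ) * eL R k, end_mem R _ (eL_norm hR h2), ?_⟩
    rw [mem_closedBall, dist_eq_norm, R_eL hR]
    refine (Complex.norm_le_abs_re_add_abs_im _).trans ?_
    simp only [Complex.sub_re, Complex.sub_im, hp, sub_self, abs_zero, add_zero]
    push_cast
    rw [abs_le]; constructor <;> linarith
  by_cases hex : ∀ j : ℤ, -J ≤ j → j ≤ J → ∃ i, ((G i).s ∩ closedBall (p j) 2).Nonempty
  · have hch : ∀ j : ℤ, ∃ i, (-J ≤ j → j ≤ J → ((G i).s ∩ closedBall (p j) 2).Nonempty) := by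
      intro j
      by_cases h : -J ≤ j ∧ j ≤ J
      · obtain ⟨i, hi⟩ := hex j h.1 h.2
        exact ⟨i, fun _ _ => hi⟩
      · exact ⟨Sum.inr true, fun a b => absurd ⟨a, b⟩ h⟩
    choose τ hτ using hch
    set a : ℤ → ℂ := fun j => (G (τ j)).w with ha
    have h23 : ∀ x : ℂ, closedBall x 2 ⊆ closedBall x 3 := fun x => closedBall_subset_closedBall (by norm_num)
    have hstep : ∀ j : ℤ, -J ≤ j → j < J → ‖a (j + 1) - a j‖ ≤ 10 ^ 6 * ω j := by
      intro j hj1 hj2
      apply LL _ G hG (p j)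
      · obtain ⟨z, hz1, hz2⟩ := hτ (j + 1) (by omega) (by omega)
        refine ⟨z, hz1, ?_⟩
        rw [mem_closedBall] at hz2 ⊢
        have hd : dist (p (j + 1)) (p j) ≤ 1 := by
          rw [dist_eq_norm]
          refine (Complex.norm_le_abs_re_add_abs_im _).trans ?_
          simp [hp]
        linarith [dist_triangle z (p (j + 1)) (p j)]
      · exact (hτ j hj1 hj2.le).mono (inter_subset_inter_right _ (h23 _))
    have hT := tele a (fun j => 10 ^ 6 * ω j) (-J) (2 * J).toNat (by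
      intro i hi
      have : (i : ℤ) < 2 * J := by omega
      exact hstep _ (by omega) (by omega))
    have hcast : (-J + ((2 * J).toNat : ℤ)) = J := by omega
    rw [hcast] at hT
    have hR1 : ‖(G (Sum.inr true)).w - a J‖ ≤ 10 ^ 6 * ω J :=
      LL _ G hG (p J) _ _ (hend1.mono (inter_subset_inter_right _ (h23 _)))
        ((hτ J (by omega) le_rfl).mono (inter_subset_inter_right _ (h23 _)))
    have hR2 : ‖a (-J) - (G (Sum.inr false)).w‖ ≤ 10 ^ 6 * ω (-J) :=
      LL _ G hG (p (-J)) _ _ ((hτ (-J) le_rfl (by omega)).mono (inter_subset_inter_right _ (h23 _)))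
        (hend2.mono (inter_subset_inter_right _ (h23 _)))
    -- the sum over the range is at most the sum over all
    have hS1 : ∑ i ∈ Finset.range (2 * J).toNat, 10 ^ 6 * ω (-J + i) + 10 ^ 6 * ω J
        ≤ 10 ^ 6 * ∑ j ∈ Finset.Icc (-J) J, ω j := by
      rw [← Finset.mul_sum, ← mul_add]
      apply mul_le_mul_of_nonneg_left _ (by norm_num)
      have e3 : ∑ i ∈ Finset.range (2 * J).toNat, ω (-J + i) + ω J
          = ∑ i ∈ Finset.range ((2 * J).toNat + 1), ω (-J + i) := by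
        rw [Finset.sum_range_succ, hcast]
      rw [e3, ← Finset.sum_image (f := ω) (g := fun i : ℕ => (-J + (i : ℤ)))]
      · apply Finset.sum_le_sum_of_subset_of_nonneg
        · intro j hj
          rw [Finset.mem_image] at hj
          obtain ⟨i, hi, rfl⟩ := hj
          rw [Finset.mem_range] at hi
          rw [Finset.mem_Icc]
          omega
        · intro j _ _
          exact hω0 j
      · intro i _ i' _ h
        simp only at h
        omega
    have hS2 : ω (-J) ≤ ∑ j ∈ Finset.Icc (-J) J, ω j :=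
      Finset.single_le_sum (fun j _ => hω0 j) (Finset.mem_Icc.2 ⟨le_rfl, by omega⟩)
    have e4 : (G (Sum.inr true)).w - (G (Sum.inr false)).w
        = ((G (Sum.inr true)).w - a J) + ((a J - a (-J)) + (a (-J) - (G (Sum.inr false)).w)) := by ring
    rw [e4]
    calc _ ≤ ‖(G (Sum.inr true)).w - a J‖ + (‖a J - a (-J)‖ + ‖a (-J) - (G (Sum.inr false)).w‖) :=
          (norm_add_le _ _).trans (by gcongr; exact norm_add_le _ _)
      _ ≤ _ := by linarith
  · simp only [not_forall] at hex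
    obtain ⟨j, hj1, hj2, hj3⟩ := hex
    rw [not_exists] at hj3
    have hsub : ball (p j) 2 ⊆ unc G (Bx (p j) 6) := by
      intro z hz
      refine ⟨ball_sub_Bx _ (by norm_num) hz, ?_⟩
      rw [mem_iUnion, not_exists]
      intro i hi
      exact hj3 i ⟨z, hi, ball_subset_closedBall hz⟩
    have h4 : Real.pi * 2 ^ 2 ≤ ω j := by
      rw [← ar_ball (p j) (by norm_num : (0:ℝ) ≤ 2)]
      exact ar_mono hsub ((measure_mono diff_subset).trans_lt (lt_top_iff_ne_top.2 (Bx_fin _ _))).ne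
    have h5 : ω j ≤ ∑ j ∈ Finset.Icc (-J) J, ω j :=
      Finset.single_le_sum (fun j _ => hω0 j) (Finset.mem_Icc.2 ⟨hj1, hj2⟩)
    have h6 : ‖(G (Sum.inr true)).w - (G (Sum.inr false)).w‖ ≤ 2 := by
      calc _ ≤ ‖(G (Sum.inr true)).w‖ + ‖(G (Sum.inr false)).w‖ := norm_sub_le _ _
        _ = 2 := by rw [Tg.w_norm, Tg.w_norm]; norm_num
    have h7 := Real.pi_gt_three
    linarith

end

end PST
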