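import Mathlib

/-!
One-dimensional chain lemma: along a segment partially covered by closed sets whose labels differ at
most linearly in the distance, the labels at the ends differ at most by the uncovered length.
-/

open MeasureTheory Set

namespace PST

lemma chain_aux {σ : Type} [DecidableEq σ] (F : σ → Set ℝ) (φ : σ → ℂ) (K b : ℝ) (hK : 0 ≤ K)
    (i₁ : σ) : ∀ (n : ℕ) (S : Finset σ), S.card = n → (∀ i ∈ S, IsClosed (F i)) → i₁ ∈ S →
      ∀ (a : ℝ) (i₀ : σ), i₀ ∈ S → a ≤ b → a ∈ F i₀ → b ∈ F i₁ →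
      (∀ i ∈ S, ∀ j ∈ S, ∀ s ∈ F i ∩ Icc a b, ∀ s' ∈ F j ∩ Icc a b,
        ‖φ i - φ j‖ ≤ K * |s - s'|) →
      ‖φ i₀ - φ i₁‖ ≤ K * (volume (Icc a b \ ⋃ i ∈ S, F i)).toReal := by
  intro n
  induction n with
  | zero =>
    intro S hS _ hi₁
    rw [Finset.card_eq_zero] at hS
    rw [hS] at hi₁
    exact absurd hi₁ (Finset.notMem_empty _)
  | succ n ih =>
    intro S hS hcl hi₁ a i₀ hi₀ hab ha hb h
    by_cases hbi : b ∈ F i₀
    · have h1 := h i₀ hi₀ i₁ hi₁ b ⟨hbi, hab, le_rfl⟩ b ⟨hb, hab, le_rfl⟩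
      rw [sub_self, abs_zero, mul_zero] at h1
      exact h1.trans (mul_nonneg hK ENNReal.toReal_nonneg)
    · have hne : i₁ ≠ i₀ := fun h => hbi (h ▸ hb)
      -- the last point of `F i₀`
      have hA : IsCompact (F i₀ ∩ Icc a b) := isCompact_Icc.inter_left (hcl i₀ hi₀)
      obtain ⟨a', ha', hmax⟩ := hA.exists_isGreatest ⟨a, ha, le_rfl, hab⟩
      have ha'b : a' < b := lt_of_le_of_ne ha'.2.2 (fun h => hbi (h ▸ ha'.1))
      set S' := S.erase i₀ with hS'
      have hi₁' : i₁ ∈ S' := Finset.mem_erase.2 ⟨hne, hi₁⟩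
      have hGc : IsCompact ((⋃ i ∈ S', F i) ∩ Icc a' b) := by
        apply isCompact_Icc.inter_left
        exact Set.Finite.isClosed_biUnion S'.finite_toSet
          (fun i hi => hcl i (Finset.mem_of_mem_erase hi))
      obtain ⟨s', hs', hmin⟩ := hGc.exists_isLeast ⟨b, mem_biUnion hi₁' hb, ha'b.le, le_rfl⟩
      obtain ⟨j, hj, hsj⟩ : ∃ j ∈ S', s' ∈ F j := by
        have := hs'.1
        simpa using this
      have hjS : j ∈ S := Finset.mem_of_mem_erase hj
      have haa' : a ≤ a' := ha'.2.1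
      have ha's' : a' ≤ s' := hs'.2.1
      have hs'b : s' ≤ b := hs'.2.2
      have h1 := h i₀ hi₀ j hjS a' ha' s' ⟨hsj, haa'.trans ha's', hs'b⟩
      have h2 := ih S' (by rw [hS', Finset.card_erase_of_mem hi₀, hS]; rfl)
        (fun i hi => hcl i (Finset.mem_of_mem_erase hi)) hi₁' s' j hj hs'b hsj hb
        (fun i hi k hk s hs t ht => h i (Finset.mem_of_mem_erase hi) k
          (Finset.mem_of_mem_erase hk) s ⟨hs.1, (haa'.trans ha's').trans hs.2.1, hs.2.2⟩ t
          ⟨ht.1, (haa'.trans ha's').trans ht.2.1, ht.2.2⟩)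
      have h3 : ‖φ i₀ - φ i₁‖ ≤ ‖φ i₀ - φ j‖ + ‖φ j - φ i₁‖ := by
        have := norm_add_le (φ i₀ - φ j) (φ j - φ i₁)
        rwa [sub_add_sub_cancel] at this
      have h4 : |a' - s'| = s' - a' := by rw [abs_sub_comm, abs_of_nonneg (by linarith)]
      rw [h4] at h1
      -- the measures
      have hfin : volume (Icc a b \ ⋃ i ∈ S, F i) ≠ ⊤ :=
        ne_top_of_le_ne_top isCompact_Icc.measure_lt_top.ne (measure_mono sdiff_subset)
      have hsub : Ioo a' s' ∪ (Ioc s' b \ ⋃ i ∈ S', F i) ⊆ Icc a b \ ⋃ i ∈ S, F i := by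
        rintro s (hs | hs)
        · refine ⟨⟨haa'.trans hs.1.le, hs.2.le.trans hs'b⟩, ?_⟩
          intro hc
          rw [mem_iUnion₂] at hc
          obtain ⟨k, hk, hsk⟩ := hc
          by_cases hk0 : k = i₀
          · subst hk0
            have := hmax ⟨hsk, haa'.trans hs.1.le, hs.2.le.trans hs'b⟩
            exact absurd this (not_le.2 hs.1)
          · have := hmin ⟨mem_biUnion (Finset.mem_erase.2 ⟨hk0, hk⟩) hsk, hs.1.le,
              hs.2.le.trans hs'b⟩
            exact absurd this (not_le.2 hs.2)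
        · obtain ⟨⟨hs1, hs2⟩, hs3⟩ := hs
          refine ⟨⟨(haa'.trans ha's').trans hs1.le, hs2⟩, ?_⟩
          intro hc
          rw [mem_iUnion₂] at hc
          obtain ⟨k, hk, hsk⟩ := hc
          by_cases hk0 : k = i₀
          · subst hk0
            have := hmax ⟨hsk, (haa'.trans ha's').trans hs1.le, hs2⟩
            exact absurd this (not_le.2 (lt_of_le_of_lt ha's' hs1))
          · exact hs3 (mem_biUnion (Finset.mem_erase.2 ⟨hk0, hk⟩) hsk)
      have hdisj : Disjoint (Ioo a' s') (Ioc s' b \ ⋃ i ∈ S', F i) := by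
        rw [Set.disjoint_left]
        intro s hs hs2
        exact absurd hs.2 (not_lt.2 hs2.1.1.le)
      have hclU : IsClosed (⋃ i ∈ S', F i) := Set.Finite.isClosed_biUnion S'.finite_toSet
          (fun i hi => hcl i (Finset.mem_of_mem_erase hi))
      have h5 : volume (Ioo a' s') + volume (Ioc s' b \ ⋃ i ∈ S', F i) ≤
          volume (Icc a b \ ⋃ i ∈ S, F i) := by
        rw [← measure_union hdisj (measurableSet_Ioc.diff hclU.measurableSet)]
        exact measure_mono hsub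
      have h6 : volume (Icc s' b \ ⋃ i ∈ S', F i) ≤ volume (Ioc s' b \ ⋃ i ∈ S', F i) := by
        have e1 : Icc s' b \ ⋃ i ∈ S', F i ⊆ {s'} ∪ (Ioc s' b \ ⋃ i ∈ S', F i) := by
          rintro s ⟨⟨hs1, hs2⟩, hs3⟩
          rcases eq_or_lt_of_le hs1 with h | h
          · left; exact h.symm
          · right; exact ⟨⟨h, hs2⟩, hs3⟩
        refine (measure_mono e1).trans ((measure_union_le _ _).trans ?_)
        rw [Real.volume_singleton, zero_add]
      have h7 : (s' - a') + (volume (Icc s' b \ ⋃ i ∈ S', F i)).toReal ≤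
          (volume (Icc a b \ ⋃ i ∈ S, F i)).toReal := by
        have e1 : ENNReal.ofReal (s' - a') + volume (Icc s' b \ ⋃ i ∈ S', F i) ≤
            volume (Icc a b \ ⋃ i ∈ S, F i) := by
          rw [← Real.volume_Ioo]
          exact (add_le_add le_rfl h6).trans h5
        have e2 : volume (Icc s' b \ ⋃ i ∈ S', F i) ≠ ⊤ :=
          ne_top_of_le_ne_top isCompact_Icc.measure_lt_top.ne (measure_mono sdiff_subset)
        have e3 := ENNReal.toReal_mono hfin e1
        rw [ENNReal.toReal_add ENNReal.ofReal_ne_top e2,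
          ENNReal.toReal_ofReal (by linarith)] at e3
        exact e3
      calc ‖φ i₀ - φ i₁‖ ≤ ‖φ i₀ - φ j‖ + ‖φ j - φ i₁‖ := h3
        _ ≤ K * (s' - a') + K * (volume (Icc s' b \ ⋃ i ∈ S', F i)).toReal := add_le_add h1 h2
        _ = K * ((s' - a') + (volume (Icc s' b \ ⋃ i ∈ S', F i)).toReal) := by ring
        _ ≤ _ := mul_le_mul_of_nonneg_left h7 hK

/-- L6: the chain lemma -/
theorem chain {σ : Type} (S : Finset σ) (F : σ → Set ℝ) (φ : σ → ℂ) {K a b : ℝ} (hK : 0 ≤ K)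
    (hcl : ∀ i ∈ S, IsClosed (F i)) {i₀ i₁ : σ} (hi₀ : i₀ ∈ S) (hi₁ : i₁ ∈ S) (hab : a ≤ b)
    (ha : a ∈ F i₀) (hb : b ∈ F i₁)
    (h : ∀ i ∈ S, ∀ j ∈ S, ∀ s ∈ F i ∩ Icc a b, ∀ s' ∈ F j ∩ Icc a b,
      ‖φ i - φ j‖ ≤ K * |s - s'|) :
    ‖φ i₀ - φ i₁‖ ≤ K * (volume (Icc a b \ ⋃ i ∈ S, F i)).toReal := by
  classical
  exact chain_aux F φ K b hK i₁ S.card S rfl hcl hi₁ a i₀ hi₀ hab ha hb h

end PST
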