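import Mathlib

/-!
# MP_332d77_co, second term of `P(2,t)`: definitions (equilateral triangles in the complex plane)
-/

set_option autoImplicit false

open MeasureTheory Set Metric
open scoped ComplexConjugate

namespace PST

/-- the primitive cube root of unity `e^(2πi/3)` -/
noncomputable def zt : ℂ := ⟨-1 / 2, Real.sqrt 3 / 2⟩

/-- the three outer unit normals -/
noncomputable def nrm (u : ℂ) (k : Fin 3) : ℂ := u * zt ^ (k : ℕ)

/-- the closed equilateral triangle with centre `c`, inradius `r` and outer normals `u ζ^k` -/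
def Tri (c u : ℂ) (r : ℝ) : Set ℂ := {z | ∀ k : Fin 3, (conj (nrm u k) * (z - c)).re ≤ r}

/-- its corners -/
noncomputable def cor (c u : ℂ) (r : ℝ) (k : Fin 3) : ℂ := c - (2 * r : ℝ) * nrm u k

/-- an equilateral triangle of inradius at least one -/
structure Tg where
  c : ℂ
  u : ℂ
  r : ℝ
  hu : ‖u‖ = 1
  hr : 1 ≤ r

/-- the triangle as a set -/
def Tg.s (T : Tg) : Set ℂ := Tri T.c T.u T.r

/-- the orientation -/
noncomputable def Tg.w (T : Tg) : ℂ := T.u ^ 6

/-- interiors are pairwise disjoint -/
def Dj {ι : Type} (F : ι → Tg) : Prop := ∀ i j, i ≠ j → Disjoint (interior (F i).s) (interior (F j).s)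

/-- the closed square with centre `x` and half side `a` -/
def Bx (x : ℂ) (a : ℝ) : Set ℂ := {z | |z.re - x.re| ≤ a ∧ |z.im - x.im| ≤ a}

/-- the uncovered part of `Q` -/
def unc {ι : Type} (F : ι → Tg) (Q : Set ℂ) : Set ℂ := Q \ ⋃ i, (F i).s

/-- the area as a real number -/
noncomputable def ar (A : Set ℂ) : ℝ := (volume A).toReal

end PST
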