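import Pool.Agent.PST.Defs

/-! Width and oriented area (definitions for the stability part) -/

set_option autoImplicit false

open MeasureTheory Set Metric
open scoped ComplexConjugate

namespace PST

/-- width at least `w` of a compact set of the plane -/
def Wd (K : Set ℂ) (w : ℝ) : Prop := ∀ u : ℂ, ‖u‖ = 1 → ∃ p ∈ K, ∃ q ∈ K, w ≤ (conj u * (p - q)).re

/-- twice the oriented area -/
noncomputable def dt (v : Fin 3 → ℂ) : ℝ := (conj (v 1 - v 0) * (v 2 - v 0)).im

end PST
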