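import Pool.Agent.PST.DefsS
import Pool.Agent.PCW.Red

/-!
From packings of the unit disc in `EuclideanSpace ℝ (Fin 2)` to packings by compact convex sets in
the complex plane.
-/

set_option autoImplicit false

open MeasureTheory Set Metric
open scoped ComplexConjugate RealInnerProductSpace

namespace PST

/-- a packing gives a packing by compact convex sets of the complex plane -/
theorem red {t : ℝ} (ht : 0 < t) {m : ℕ} (h : PCW.Pack 2 t m) :
    ∃ K : Fin m → Set ℂ, (∀ i, IsCompact (K i)) ∧ (∀ i, Convex ℝ (K i)) ∧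
      (∀ i, K i ⊆ closedBall 0 1) ∧
      (∀ i j, i ≠ j → Disjoint (interior (K i)) (interior (K j))) ∧ ∀ i, Wd (K i) t := by
  obtain ⟨C, hC, hb, hdis, hw⟩ := h
  have hint : ∀ i, (interior (C i)).Nonempty := fun i =>
    PCW.rd_int (by norm_num) (hC i) fun u hu => ht.trans_le (hw i u hu)
  let e : ℂ ≃ₗᵢ[ℝ] PCW.E 2 := Complex.orthonormalBasisOneI.repr
  have hcomp : ∀ i, IsCompact (closure (C i)) := fun i =>
    (isCompact_closedBall (0 : PCW.E 2) 1).of_isClosed_subset isClosed_closure
      (closure_minimal (hb i) isClosed_closedBall)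
  have hpre : ∀ S : Set (PCW.E 2), interior (e ⁻¹' S) = e ⁻¹' interior S := fun S =>
    (e.toHomeomorph.preimage_interior S).symm
  refine ⟨fun i => e ⁻¹' closure (C i), ?_, ?_, ?_, ?_, ?_⟩
  · intro i
    exact e.toHomeomorph.isCompact_preimage.2 (hcomp i)
  · intro i
    exact (hC i).closure.linear_preimage e.toLinearEquiv.toLinearMap
  · intro i z hz
    have h1 : e z ∈ closedBall (0 : PCW.E 2) 1 := closure_minimal (hb i) isClosed_closedBall hz
    rw [mem_closedBall_zero_iff, e.norm_map] at h1
    rwa [mem_closedBall_zero_iff]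
  · intro i j hij
    rw [hpre, hpre, (hC i).interior_closure_eq_interior_of_nonempty_interior (hint i),
      (hC j).interior_closure_eq_interior_of_nonempty_interior (hint j)]
    exact (hdis i j hij).preimage e
  · intro i u hu
    have hne : (C i).Nonempty := (hint i).mono interior_subset
    have hcl : (closure (C i)).Nonempty := hne.closure
    have hcont : ContinuousOn (fun x : PCW.E 2 => ⟪x, e u⟫) (closure (C i)) := by fun_prop
    obtain ⟨p, hp, hpm⟩ := (hcomp i).exists_isMaxOn hcl hcont
    obtain ⟨q, hq, hqm⟩ := (hcomp i).exists_isMinOn hcl hcont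
    have h1 : sSup ((fun x : PCW.E 2 => ⟪x, e u⟫) '' C i) ≤ ⟪p, e u⟫ := by
      apply csSup_le (hne.image _)
      rintro _ ⟨x, hx, rfl⟩
      exact hpm (subset_closure hx)
    have h2 : ⟪q, e u⟫ ≤ sInf ((fun x : PCW.E 2 => ⟪x, e u⟫) '' C i) := by
      apply le_csInf (hne.image _)
      rintro _ ⟨x, hx, rfl⟩
      exact hqm (subset_closure hx)
    have h3 := hw i (e u) (by rw [e.norm_map, hu])
    unfold PCW.wd at h3
    refine ⟨e.symm p, ?_, e.symm q, ?_, ?_⟩
    · show e (e.symm p) ∈ closure (C i)
      rwa [e.apply_symm_apply]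
    · show e (e.symm q) ∈ closure (C i)
      rwa [e.apply_symm_apply]
    · have h4 : (conj u * (e.symm p - e.symm q)).re = ⟪p, e u⟫ - ⟪q, e u⟫ := by
        have h5 : ⟪e.symm p, u⟫ = ⟪p, e u⟫ := by
          rw [← e.inner_map_map, e.apply_symm_apply]
        have h6 : ⟪e.symm q, u⟫ = ⟪q, e u⟫ := by
          rw [← e.inner_map_map, e.apply_symm_apply]
        rw [← h5, ← h6, ← inner_sub_left, real_inner_comm, Complex.inner, mul_comm]
      rw [h4]
      linarith

end PST
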