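import Pool.Agent.PST.DefsS

/-!
# MP_332d77_co: Heron's formula and the area of an equilateral triangle (helper79)
-/

set_option autoImplicit false

open MeasureTheory Set Metric
open scoped ComplexConjugate

namespace PST

/-- Heron -/
theorem heron (v : Fin 3 → ℂ) :
    4 * dt v ^ 2 = 2 * (‖v 1 - v 2‖ ^ 2 * ‖v 2 - v 0‖ ^ 2 + ‖v 2 - v 0‖ ^ 2 * ‖v 0 - v 1‖ ^ 2 + ‖v 0 - v 1‖ ^ 2 * ‖v 1 - v 2‖ ^ 2)
      - (‖v 1 - v 2‖ ^ 4 + ‖v 2 - v 0‖ ^ 4 + ‖v 0 - v 1‖ ^ 4) := by
  have h4 : ∀ z : ℂ, ‖z‖ ^ 4 = (z.re * z.re + z.im * z.im) ^ 2 := by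
    intro z
    rw [← Complex.normSq_apply, Complex.normSq_eq_norm_sq]; ring
  have h2 : ∀ z : ℂ, ‖z‖ ^ 2 = z.re * z.re + z.im * z.im := by
    intro z
    rw [← Complex.normSq_apply, Complex.normSq_eq_norm_sq]
  rw [h4, h4, h4, h2, h2, h2]
  simp only [dt, Complex.mul_im, Complex.conj_re, Complex.conj_im, Complex.sub_re, Complex.sub_im]
  ring

theorem sq3_79 : Real.sqrt 3 * Real.sqrt 3 = 3 := Real.mul_self_sqrt (by norm_num)

theorem sq3_pos79 : 0 < Real.sqrt 3 := Real.sqrt_pos.mpr (by norm_num)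

/-- the standard triangle in coordinates -/
theorem mem_tri_std79 (r : ℝ) (z : ℂ) :
    z ∈ Tri 0 1 r ↔ z.re ≤ r ∧ -((2 * r + z.re) / Real.sqrt 3) ≤ z.im ∧
      z.im ≤ (2 * r + z.re) / Real.sqrt 3 := by
  have hs := sq3_79
  have hp := sq3_pos79
  have e0 : (conj (nrm 1 0) * (z - 0)).re = z.re := by
    simp [nrm]
  have e1 : (conj (nrm 1 1) * (z - 0)).re = -1 / 2 * z.re + Real.sqrt 3 / 2 * z.im := by
    simp [nrm, zt]
  have e2 : (conj (nrm 1 2) * (z - 0)).re = -1 / 2 * z.re - Real.sqrt 3 / 2 * z.im := by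
    have : ((2 : Fin 3) : ℕ) = 2 := rfl
    simp only [nrm, this, zt, pow_two, one_mul, sub_zero, Complex.mul_re, Complex.mul_im,
      Complex.conj_re, Complex.conj_im]
    linear_combination (-z.re / 4) * hs
  unfold Tri
  simp only [mem_ofPred_eq, Fin.forall_fin_succ, Fin.succ_zero_eq_one, Fin.succ_one_eq_two,
    IsEmpty.forall_iff, and_true]
  rw [e0, e1, e2]
  have h1 : z.im ≤ (2 * r + z.re) / Real.sqrt 3 ↔ -1 / 2 * z.re + Real.sqrt 3 / 2 * z.im ≤ r := by
    rw [le_div_iff₀ hp]
    constructor <;> intro h <;> linarith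
  have h2 : -((2 * r + z.re) / Real.sqrt 3) ≤ z.im ↔
      -1 / 2 * z.re - Real.sqrt 3 / 2 * z.im ≤ r := by
    rw [neg_le, le_div_iff₀ hp]
    constructor <;> intro h <;> linarith
  rw [h1, h2]
  tauto

theorem isClosed_tri79 (c u : ℂ) (r : ℝ) : IsClosed (Tri c u r) := by
  unfold Tri
  rw [ofPred_forall]
  refine isClosed_iInter fun k => isClosed_le ?_ continuous_const
  fun_prop

/-- area of the standard triangle -/
theorem vol_std79 {r : ℝ} (hr : 0 ≤ r) :
    volume (Tri 0 1 r) = ENNReal.ofReal (3 * Real.sqrt 3 * r ^ 2) := by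
  have hs := sq3_79
  have hp := sq3_pos79
  have hm : MeasurableSet (Tri 0 1 r) := (isClosed_tri79 0 1 r).measurableSet
  let S : Set (ℝ × ℝ) := {p | p.1 ≤ r ∧ -((2 * r + p.1) / Real.sqrt 3) ≤ p.2 ∧
      p.2 ≤ (2 * r + p.1) / Real.sqrt 3}
  have hSm : MeasurableSet S := by
    apply IsClosed.measurableSet
    refine (isClosed_le continuous_fst continuous_const).inter ((isClosed_le ?_ continuous_snd).inter
      (isClosed_le continuous_snd ?_))
    · fun_prop
    · fun_prop
  have hpre : Tri 0 1 r = Complex.equivRealProd ⁻¹' S := by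
    ext z
    rw [mem_tri_std79]
    simp [S, Complex.equivRealProd]
  have hv : volume (Tri 0 1 r) = volume S := by
    rw [hpre]
    exact Complex.volume_preserving_equiv_real_prod.measure_preimage hSm.nullMeasurableSet
  rw [hv, Measure.volume_eq_prod, Measure.prod_apply hSm]
  have hsl : ∀ x : ℝ, volume (Prod.mk x ⁻¹' S) =
      (Icc (-2 * r) r).indicator (fun x => ENNReal.ofReal (2 * ((2 * r + x) / Real.sqrt 3))) x := by
    intro x
    by_cases hx : x ≤ r
    · have h1 : Prod.mk x ⁻¹' S = Icc (-((2 * r + x) / Real.sqrt 3)) ((2 * r + x) / Real.sqrt 3) := by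
        ext y
        simp [S, hx]
      have h2 : volume (Prod.mk x ⁻¹' S) = ENNReal.ofReal (2 * ((2 * r + x) / Real.sqrt 3)) := by
        rw [h1, Real.volume_Icc]
        congr 1
        ring
      by_cases hx2 : -2 * r ≤ x
      · rw [indicator_of_mem (show x ∈ Icc (-2 * r) r from ⟨hx2, hx⟩), h2]
      · rw [indicator_of_notMem (fun h : x ∈ Icc (-2 * r) r => hx2 h.1), h2]
        apply ENNReal.ofReal_of_nonpos
        have : (2 * r + x) / Real.sqrt 3 ≤ 0 := div_nonpos_of_nonpos_of_nonneg (by linarith) hp.le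
        linarith
    · rw [indicator_of_notMem (fun h : x ∈ Icc (-2 * r) r => hx h.2)]
      have : Prod.mk x ⁻¹' S = ∅ := by
        ext y
        simp [S, hx]
      rw [this, measure_empty]
  simp_rw [hsl]
  rw [lintegral_indicator measurableSet_Icc]
  have hle : -2 * r ≤ r := by linarith
  have hcont : Continuous fun x : ℝ => 2 * ((2 * r + x) / Real.sqrt 3) := by fun_prop
  rw [← ofReal_integral_eq_lintegral_ofReal]
  · rw [integral_Icc_eq_integral_Ioc, ← intervalIntegral.integral_of_le hle]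
    congr 1
    rw [intervalIntegral.integral_eq_sub_of_hasDerivAt (f := fun x => (2 * r + x) ^ 2 / Real.sqrt 3)
      (f' := fun x => 2 * ((2 * r + x) / Real.sqrt 3))]
    · have : (2 * r + r) ^ 2 / Real.sqrt 3 - (2 * r + -2 * r) ^ 2 / Real.sqrt 3
          = 3 * Real.sqrt 3 * r ^ 2 := by
        rw [← sub_div, div_eq_iff hp.ne']
        linear_combination (-3 * r ^ 2) * hs
      exact this
    · intro x _
      have h1 : HasDerivAt (fun x : ℝ => (2 * r + x)) 1 x := by
        simpa using (hasDerivAt_id x).const_add (2 * r)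
      have h2 := (h1.pow 2).div_const (Real.sqrt 3)
      refine h2.congr_deriv ?_
      simp
      ring
    · exact hcont.intervalIntegrable _ _
  · exact hcont.continuousOn.integrableOn_Icc
  · filter_upwards [ae_restrict_mem measurableSet_Icc] with x hx
    have : 0 ≤ (2 * r + x) / Real.sqrt 3 := div_nonneg (by linarith [hx.1]) hp.le
    show (0 : ℝ) ≤ 2 * ((2 * r + x) / Real.sqrt 3)
    linarith

/-- area of an equilateral triangle of inradius `r` -/
theorem vol_tri {c u : ℂ} (hu : ‖u‖ = 1) {r : ℝ} (hr : 0 ≤ r) :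
    volume (Tri c u r) = ENNReal.ofReal (3 * Real.sqrt 3 * r ^ 2) := by
  rw [← vol_std79 hr]
  let U : Circle := ⟨u, by simpa [Submonoid.unitSphere] using hu⟩
  have hrot := (rotation U).measurePreserving.measure_preimage
    (isClosed_tri79 0 u r).measurableSet.nullMeasurableSet
  have h1 : (rotation U) ⁻¹' (Tri 0 u r) = Tri 0 1 r := by
    ext z
    have huu : conj u * u = 1 := by
      rw [← Complex.normSq_eq_conj_mul_self, Complex.normSq_eq_norm_sq, hu]; simp
    have key : ∀ k : Fin 3, conj (nrm u k) * (u * z - 0) = conj (nrm 1 k) * (z - 0) := by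
      intro k
      simp only [nrm, map_mul, one_mul, sub_zero]
      linear_combination (conj (zt ^ (k : ℕ)) * z) * huu
    simp only [mem_preimage, Tri, rotation_apply]
    show (∀ k : Fin 3, (conj (nrm u k) * (u * z - 0)).re ≤ r) ↔ _
    simp only [key]
    rfl
  have h2 : (fun z => z + c) ⁻¹' (Tri c u r) = Tri 0 u r := by
    ext z
    simp only [mem_preimage, Tri, mem_ofPred_eq, add_sub_cancel_right, sub_zero]
  have h3 : volume (Tri c u r) = volume (Tri 0 u r) := by
    rw [← h2]
    exact ((measurePreserving_add_right volume c).measure_preimage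
      (isClosed_tri79 c u r).measurableSet.nullMeasurableSet).symm
  rw [h3, ← hrot, h1]

end PST
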