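import Pool.Agent.PST.B
import Pool.Agent.PST.Vol
import Pool.Agent.PST.Red

/-!
# MP_332d77_co, second term of `P(2,t)`: the upper bound
-/

set_option autoImplicit false

open MeasureTheory Set Metric
open scoped ComplexConjugate

namespace PST

/-- Pal's theorem with linear stability, as a statement -/
def S1s : Prop := ∀ (K : Set ℂ), IsCompact K → Convex ℝ K → ∀ w : ℝ, 0 < w → Wd K w →
    w ^ 2 / Real.sqrt 3 ≤ ar K ∧ ∃ (c u : ℂ) (ρ : ℝ), ‖u‖ = 1 ∧ 0 ≤ ρ ∧ Tri c u ρ ⊆ K ∧
      w ^ 2 / Real.sqrt 3 - 4600 * (ar K - w ^ 2 / Real.sqrt 3) ≤ 3 * Real.sqrt 3 * ρ ^ 2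

/-- convex sets with disjoint interiors: the areas add up -/
theorem sum_vol {ι : Type} [Fintype ι] {A : ι → Set ℂ} (hc : ∀ i, Convex ℝ (A i))
    (hd : ∀ i j, i ≠ j → Disjoint (interior (A i)) (interior (A j))) :
    ∑ i, volume (A i) ≤ volume (⋃ i, A i) := by
  have h1 : ∀ i, volume (A i) = volume (interior (A i)) := by
    intro i
    apply le_antisymm _ (measure_mono interior_subset)
    calc volume (A i) ≤ volume (interior (A i) ∪ frontier (A i)) := measure_mono (by
          intro z hz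
          by_cases h : z ∈ interior (A i)
          · exact Or.inl h
          · exact Or.inr ⟨subset_closure hz, h⟩)
      _ ≤ volume (interior (A i)) + volume (frontier (A i)) := measure_union_le _ _
      _ = volume (interior (A i)) := by rw [Convex.addHaar_frontier volume (hc i), add_zero]
  simp only [h1]
  rw [← tsum_fintype (L := .unconditional _), ← measure_iUnion (fun i j hij => hd i j hij) (fun i => isOpen_interior.measurableSet)]
  exact measure_mono (iUnion_mono fun i => interior_subset)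

/-- the scaled triangle -/
theorem tri_scale {c u : ℂ} {ρ R : ℝ} (hR : 0 < R) {z : ℂ} : z ∈ Tri (R * c) u (R * ρ) ↔ (R : ℂ)⁻¹ * z ∈ Tri c u ρ := by
  have hR' : (R : ℂ) ≠ 0 := by exact_mod_cast hR.ne'
  constructor
  · intro h k
    have h1 := h k
    have e : conj (nrm u k) * (z - R * c) = (R : ℂ) * (conj (nrm u k) * ((R : ℂ)⁻¹ * z - c)) := by
      field_simp
    rw [e, Complex.re_ofReal_mul] at h1
    exact le_of_mul_le_mul_left h1 hR
  · intro h k
    have h1 := h k
    have e : conj (nrm u k) * (z - R * c) = (R : ℂ) * (conj (nrm u k) * ((R : ℂ)⁻¹ * z - c)) := by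
      field_simp
    rw [e, Complex.re_ofReal_mul]
    exact mul_le_mul_of_nonneg_left h1 hR.le

theorem convex_tri' (c u : ℂ) (r : ℝ) : Convex ℝ (Tri c u r) := by
  intro x hx y hy a b ha hb hab k
  have h1 := hx k
  have h2 := hy k
  have e : conj (nrm u k) * (a • x + b • y - c) = (a : ℂ) * (conj (nrm u k) * (x - c)) + (b : ℂ) * (conj (nrm u k) * (y - c)) := by
    have hc : c = (a : ℂ) * c + (b : ℂ) * c := by
      rw [← add_mul]
      have : ((a : ℂ) + (b : ℂ)) = 1 := by exact_mod_cast hab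
      rw [this, one_mul]
    rw [Complex.real_smul, Complex.real_smul]
    linear_combination (-conj (nrm u k)) * hc
  rw [e, Complex.add_re, Complex.re_ofReal_mul, Complex.re_ofReal_mul]
  have h3 := mul_le_mul_of_nonneg_left h1 ha
  have h4 := mul_le_mul_of_nonneg_left h2 hb
  have h5 : a * r + b * r = r := by rw [← add_mul, hab, one_mul]
  linarith

theorem interior_scale {A B : Set ℂ} {R : ℝ} (hR : 0 < R) (h : ∀ z, z ∈ A → (R : ℂ)⁻¹ * z ∈ B) :
    ∀ z, z ∈ interior A → (R : ℂ)⁻¹ * z ∈ interior B := by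
  have hR' : (R : ℂ) ≠ 0 := by exact_mod_cast hR.ne'
  intro z hz
  have hcont : Continuous fun w : ℂ => (R : ℂ) * w := by fun_prop
  have hopen : IsOpen ((fun w : ℂ => (R : ℂ) * w) ⁻¹' interior A) := isOpen_interior.preimage hcont
  have hsub : (fun w : ℂ => (R : ℂ) * w) ⁻¹' interior A ⊆ B := by
    intro w hw
    have h1 := h _ (interior_subset hw)
    rwa [← mul_assoc, inv_mul_cancel₀ hR', one_mul] at h1
  apply interior_maximal hsub hopen
  rw [mem_preimage, ← mul_assoc, mul_inv_cancel₀ hR', one_mul]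
  exact hz

theorem upper (hS1 : S1s) : ∃ c > (0 : ℝ), ∃ t0 > (0 : ℝ), ∀ t, 0 < t → t ≤ t0 → ∀ m : ℕ, PCW.Pack 2 t m →
    (m : ℝ) ≤ Real.sqrt 3 * Real.pi / t ^ 2 - c / t := by
  classical
  obtain ⟨cB, hcB, RB, hB⟩ := thmB
  refine ⟨Real.sqrt 3 * (3 * cB / 250010), by positivity, 10 / (3 * max RB 1), by positivity, ?_⟩
  intro t ht ht0 m hP
  obtain ⟨K, hKc, hKv, hKb, hKd, hKw⟩ := red ht hP
  have hs3 : Real.sqrt 3 * Real.sqrt 3 = 3 := Real.mul_self_sqrt (by norm_num)
  have hs0 : 0 < Real.sqrt 3 := Real.sqrt_pos.2 (by norm_num)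
  set A0 := t ^ 2 / Real.sqrt 3 with hA0
  have hA0pos : 0 < A0 := by positivity
  have hA0' : Real.sqrt 3 * t ^ 2 = 3 * A0 := by
    rw [hA0]; field_simp; nlinarith
  have hS := fun i => hS1 (K i) (hKc i) (hKv i) t ht (hKw i)
  have hv : ∀ i, A0 ≤ ar (K i) := fun i => (hS i).1
  choose c u ρ hu hρ hsub hlin using fun i => (hS i).2
  -- the sum of the areas
  have hsumK : ∑ i, ar (K i) ≤ Real.pi := by
    have h1 := sum_vol hKv hKd
    have h2 : volume (⋃ i, K i) ≤ volume (closedBall (0 : ℂ) 1) := measure_mono (iUnion_subset hKb)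
    have h3 : (volume (closedBall (0 : ℂ) 1)).toReal = Real.pi := by
      rw [Complex.volume_closedBall]; simp
    rw [← h3]
    unfold ar
    rw [← ENNReal.toReal_sum (fun i _ => (hKc i).measure_lt_top.ne)]
    exact ENNReal.toReal_mono measure_closedBall_lt_top.ne (h1.trans h2)
  -- the scaled family of the good triangles
  set R := 10 / (3 * t) with hR
  have hRpos : 0 < R := by positivity
  have hRB : RB ≤ R := by
    have hm : 0 < max RB 1 := lt_of_lt_of_le one_pos (le_max_right _ _)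
    rw [hR]
    have h1 : t * (3 * max RB 1) ≤ 10 := by
      rwa [le_div_iff₀ (by positivity)] at ht0
    calc RB ≤ max RB 1 := le_max_left _ _
      _ ≤ 10 / (3 * t) := by
        rw [le_div_iff₀ (by positivity)]; nlinarith
  set I := {i : Fin m // 3 * t / 10 ≤ ρ i} with hI
  let F : I → Tg := fun i => ⟨R * c i.1, u i.1, R * ρ i.1, hu i.1, by
    have h := i.2
    rw [hR]
    calc (1 : ℝ) = 10 / (3 * t) * (3 * t / 10) := by field_simp
      _ ≤ _ := by gcongr⟩
  have hFs : ∀ i : I, ∀ z, z ∈ (F i).s → (R : ℂ)⁻¹ * z ∈ K i.1 := by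
    intro i z hz
    exact hsub i.1 ((tri_scale hRpos).1 hz)
  have hDj : Dj F := by
    intro i j hij
    rw [Set.disjoint_left]
    intro z hz hz'
    have hne : i.1 ≠ j.1 := fun h => hij (Subtype.ext h)
    exact Set.disjoint_left.1 (hKd i.1 j.1 hne) (interior_scale hRpos (hFs i) z hz) (interior_scale hRpos (hFs j) z hz')
  have hFR : ∀ i, (F i).s ⊆ closedBall 0 R := by
    intro i z hz
    have h1 := hKb i.1 (hFs i z hz)
    rw [mem_closedBall_zero_iff, norm_mul, norm_inv, Complex.norm_real, Real.norm_eq_abs, abs_of_pos hRpos,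
      inv_mul_le_iff₀ hRpos, mul_one] at h1
    rwa [mem_closedBall_zero_iff]
  have hmain := hB R hRB I F hDj hFR
  -- the uncovered area
  have hvolF : ∀ i, volume (F i).s = ENNReal.ofReal (3 * Real.sqrt 3 * (R * ρ i.1) ^ 2) := fun i =>
    vol_tri (hu i.1) (mul_nonneg hRpos.le (hρ i.1))
  have hunc : ar (unc F (closedBall 0 R)) ≤ Real.pi * R ^ 2 - ∑ i : I, 3 * Real.sqrt 3 * (R * ρ i.1) ^ 2 := by
    have h1 : ∑ i : I, volume (F i).s ≤ volume (⋃ i, (F i).s) := sum_vol (fun i => convex_tri' _ _ _) hDj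
    have h2 : (⋃ i, (F i).s) ⊆ closedBall 0 R := iUnion_subset hFR
    have hfin : volume (⋃ i, (F i).s) ≠ ⊤ := ((measure_mono h2).trans_lt measure_closedBall_lt_top).ne
    have h3 : (∑ i : I, volume (F i).s).toReal = ∑ i : I, 3 * Real.sqrt 3 * (R * ρ i.1) ^ 2 := by
      rw [ENNReal.toReal_sum (fun i _ => by rw [hvolF]; exact ENNReal.ofReal_ne_top)]
      apply Finset.sum_congr rfl
      intro i _
      rw [hvolF, ENNReal.toReal_ofReal (by positivity)]
    have h4 := ENNReal.toReal_mono hfin h1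
    rw [h3] at h4
    have h5 : ar (unc F (closedBall 0 R)) = (volume (closedBall (0 : ℂ) R)).toReal - (volume (⋃ i, (F i).s)).toReal := by
      unfold ar unc
      rw [measure_diff h2 (MeasurableSet.iUnion fun _ => (isClosed_tri' _ _ _).measurableSet).nullMeasurableSet hfin,
        ENNReal.toReal_sub_of_le (measure_mono h2) measure_closedBall_lt_top.ne]
    have h6 : (volume (closedBall (0 : ℂ) R)).toReal = Real.pi * R ^ 2 := by
      rw [Complex.volume_closedBall, ENNReal.toReal_mul, ENNReal.toReal_pow, ENNReal.toReal_ofReal hRpos.le]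
      simp [mul_comm]
    rw [h5, h6]; linarith
  -- the linear stability
  have hgood : (m : ℝ) * A0 - ∑ i : I, 3 * Real.sqrt 3 * (ρ i.1) ^ 2 ≤ 25000 * (∑ i, ar (K i) - m * A0) := by
    have e1 : ∑ i : I, 3 * Real.sqrt 3 * (ρ i.1) ^ 2 = ∑ i, if 3 * t / 10 ≤ ρ i then 3 * Real.sqrt 3 * (ρ i) ^ 2 else 0 := by
      rw [← Finset.sum_filter]
      exact (Finset.sum_subtype (Finset.univ.filter fun i => 3 * t / 10 ≤ ρ i) (by simp)
        (fun i => 3 * Real.sqrt 3 * (ρ i) ^ 2)).symm
    have e2 : (m : ℝ) * A0 = ∑ _i : Fin m, A0 := by simp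
    rw [e1, e2, ← Finset.sum_sub_distrib, ← Finset.sum_sub_distrib, Finset.mul_sum]
    apply Finset.sum_le_sum
    intro i _
    have h1 := hlin i
    have h2 := hv i
    split_ifs with h
    · linarith
    · rw [not_le] at h
      have h3 : ρ i ^ 2 ≤ (3 * t / 10) ^ 2 := by
        apply pow_le_pow_left₀ (hρ i) h.le
      have h4 : 3 * Real.sqrt 3 * ρ i ^ 2 ≤ 81 / 100 * A0 := by
        calc 3 * Real.sqrt 3 * ρ i ^ 2 ≤ 3 * Real.sqrt 3 * (3 * t / 10) ^ 2 := by gcongr
          _ = 27 / 100 * (Real.sqrt 3 * t ^ 2) := by ring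
          _ = 81 / 100 * A0 := by rw [hA0']; ring
      linarith
  have hfinal : cB * R ≤ R ^ 2 * (25001 * (Real.pi - m * A0)) := by
    have e3 : ∑ i : I, 3 * Real.sqrt 3 * (R * ρ i.1) ^ 2 = R ^ 2 * ∑ i : I, 3 * Real.sqrt 3 * (ρ i.1) ^ 2 := by
      rw [Finset.mul_sum]; apply Finset.sum_congr rfl; intro i _; ring
    rw [e3] at hunc
    have h7 : Real.pi - ∑ i : I, 3 * Real.sqrt 3 * (ρ i.1) ^ 2 ≤ 25001 * (Real.pi - m * A0) := by linarith
    calc cB * R ≤ _ := hmain
      _ ≤ _ := hunc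
      _ = R ^ 2 * (Real.pi - ∑ i : I, 3 * Real.sqrt 3 * (ρ i.1) ^ 2) := by ring
      _ ≤ _ := by gcongr
  have h8 : 3 * cB / 250010 * t ≤ Real.pi - m * A0 := by
    have h9 : cB ≤ R * (25001 * (Real.pi - m * A0)) := by
      have : R * cB ≤ R * (R * (25001 * (Real.pi - m * A0))) := by nlinarith
      exact le_of_mul_le_mul_left this hRpos
    rw [hR] at h9
    have h10 : cB * (3 * t) ≤ 10 * (25001 * (Real.pi - m * A0)) := by
      have h11 := mul_le_mul_of_nonneg_right h9 (by positivity : 0 ≤ 3 * t)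
      have e4 : 10 / (3 * t) * (25001 * (Real.pi - m * A0)) * (3 * t) = 10 * (25001 * (Real.pi - m * A0)) := by
        field_simp
      linarith
    linarith
  -- conclusion
  have h12 : (m : ℝ) = (m * A0) * (Real.sqrt 3 / t ^ 2) := by
    rw [hA0]; field_simp
  have h13 : Real.sqrt 3 * Real.pi / t ^ 2 - Real.sqrt 3 * (3 * cB / 250010) / t
      = (Real.pi - 3 * cB / 250010 * t) * (Real.sqrt 3 / t ^ 2) := by
    field_simp
  rw [h13, h12]
  gcongr
  linarith

end PST
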