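import Pool.Agent.PST.DefsS

/-!
# MP_332d77_co: the triangle of maximal area in a convex set of given width (S1a)
-/

set_option autoImplicit false

open MeasureTheory Set Metric
open scoped ComplexConjugate

namespace PST

/-- twice the oriented area of a triangle -/
noncomputable def d3 (a b c : ℂ) : ℝ := (conj (b - a) * (c - a)).im

theorem d3_eq (a b c : ℂ) :
    d3 a b c = (b.re - a.re) * (c.im - a.im) - (b.im - a.im) * (c.re - a.re) := by
  unfold d3
  simp only [Complex.mul_im, Complex.conj_re, Complex.conj_im, Complex.sub_re, Complex.sub_im]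
  ring

theorem dt_eq_d3 (v : Fin 3 → ℂ) : dt v = d3 (v 0) (v 1) (v 2) := rfl

/-- the open standard triangle -/
def St : Set ℂ := {z | 0 < z.re ∧ 0 < z.im ∧ z.re + z.im < 1}

/-- the open triangle -/
def ot (a b c : ℂ) : Set ℂ :=
  {z | ∃ x y : ℝ, 0 < x ∧ 0 < y ∧ x + y < 1 ∧ z = a + x * (b - a) + y * (c - a)}

theorem vol_St : volume St = ENNReal.ofReal (1 / 2) := by
  let S : Set (ℝ × ℝ) := regionBetween (fun _ => 0) (fun x => 1 - x) (Ioo 0 1)
  have hSm : MeasurableSet S :=
    measurableSet_regionBetween measurable_const (measurable_const.sub measurable_id)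
      measurableSet_Ioo
  have hpre : St = Complex.measurableEquivRealProd ⁻¹' S := by
    ext z
    simp only [St, S, regionBetween, Complex.measurableEquivRealProd_apply, mem_preimage,
      mem_ofPred_eq, mem_Ioo]
    constructor
    · rintro ⟨h1, h2, h3⟩
      exact ⟨⟨h1, by linarith⟩, h2, by linarith⟩
    · rintro ⟨⟨h1, _⟩, h2, h3⟩
      exact ⟨h1, h2, by linarith⟩
  rw [hpre, Complex.volume_preserving_equiv_real_prod.measure_preimage hSm.nullMeasurableSet,
    Measure.volume_eq_prod]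
  have h := volume_regionBetween_eq_integral (μ := (volume : Measure ℝ)) (s := Ioo (0 : ℝ) 1)
    (f := fun _ => (0 : ℝ)) (g := fun x => 1 - x)
    ((continuous_const.integrableOn_Icc (a := (0 : ℝ)) (b := 1)).mono_set Ioo_subset_Icc_self)
    (((continuous_const.sub continuous_id).integrableOn_Icc (a := (0 : ℝ)) (b := 1)).mono_set
      Ioo_subset_Icc_self) measurableSet_Ioo (fun x hx => by
        have := hx.2
        show (0 : ℝ) ≤ 1 - x
        linarith)
  show (volume.prod volume) S = _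
  rw [h]
  congr 1
  rw [← integral_Ioc_eq_integral_Ioo, ← intervalIntegral.integral_of_le zero_le_one]
  simp only [Pi.sub_apply, sub_zero]
  rw [intervalIntegral.integral_sub intervalIntegrable_const intervalIntegral.intervalIntegrable_id]
  rw [integral_id]
  norm_num

/-- the linear part of the affine map -/
noncomputable def Lm (p q : ℂ) : ℂ →ₗ[ℝ] ℂ where
  toFun z := z.re * p + z.im * q
  map_add' x y := by
    simp only [Complex.add_re, Complex.add_im]
    push_cast
    ring
  map_smul' t x := by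
    simp only [Complex.real_smul, RingHom.id_apply, Complex.mul_re, Complex.mul_im,
      Complex.ofReal_re, Complex.ofReal_im, zero_mul, sub_zero, add_zero]
    push_cast
    ring

theorem Lm_apply (p q z : ℂ) : Lm p q z = z.re * p + z.im * q := rfl

theorem det_Lm (p q : ℂ) : LinearMap.det (Lm p q) = p.re * q.im - p.im * q.re := by
  rw [← LinearMap.det_toMatrix Complex.basisOneI, Matrix.det_fin_two]
  simp [LinearMap.toMatrix_apply, Lm_apply]
  ring

theorem vol_ot (a b c : ℂ) : volume (ot a b c) = ENNReal.ofReal (|d3 a b c| / 2) := by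
  have h1 : ot a b c = (fun z => a + z) '' (Lm (b - a) (c - a) '' St) := by
    ext z
    constructor
    · rintro ⟨x, y, hx, hy, hxy, rfl⟩
      refine ⟨x * (b - a) + y * (c - a), ⟨⟨x, y⟩, ⟨hx, hy, hxy⟩, rfl⟩, ?_⟩
      show a + (x * (b - a) + y * (c - a)) = _
      ring
    · rintro ⟨_, ⟨s, ⟨hx, hy, hxy⟩, rfl⟩, rfl⟩
      refine ⟨s.re, s.im, hx, hy, hxy, ?_⟩
      show a + (s.re * (b - a) + s.im * (c - a)) = _
      ring
  rw [h1, Set.image_add_left, measure_preimage_add, Measure.addHaar_image_linearMap, vol_St, det_Lm,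
    ← ENNReal.ofReal_mul (abs_nonneg _)]
  congr 1
  rw [d3_eq, Complex.sub_re, Complex.sub_im, Complex.sub_re, Complex.sub_im]
  ring

theorem mem_of_convex {K : Set ℂ} (hc : Convex ℝ K) {a b c : ℂ} (ha : a ∈ K) (hb : b ∈ K)
    (hcc : c ∈ K) {x y : ℝ} (hx : 0 ≤ x) (hy : 0 ≤ y) (hxy : x + y ≤ 1) :
    a + x * (b - a) + y * (c - a) ∈ K := by
  have h := hc.sum_mem (t := Finset.univ) (w := ![1 - x - y, x, y]) (z := ![a, b, c])
    (by
      intro i _
      fin_cases i
      · show (0 : ℝ) ≤ 1 - x - y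
        linarith
      · exact hx
      · exact hy)
    (by
      rw [Fin.sum_univ_three]
      show 1 - x - y + x + y = 1
      ring)
    (by
      intro i _
      fin_cases i
      · exact ha
      · exact hb
      · exact hcc)
  rw [Fin.sum_univ_three] at h
  have e : a + x * (b - a) + y * (c - a) =
      (![1 - x - y, x, y] : Fin 3 → ℝ) 0 • (![a, b, c] : Fin 3 → ℂ) 0 +
        (![1 - x - y, x, y] : Fin 3 → ℝ) 1 • (![a, b, c] : Fin 3 → ℂ) 1 +
          (![1 - x - y, x, y] : Fin 3 → ℝ) 2 • (![a, b, c] : Fin 3 → ℂ) 2 := by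
    show a + x * (b - a) + y * (c - a) = (1 - x - y) • a + x • b + y • c
    simp only [Complex.real_smul]
    push_cast
    ring
  rw [e]
  exact h

theorem fin3_neg (f : Fin 3 → ℝ) (D : ℝ) (hs : f 0 + f 1 + f 2 = D) (hD : ∀ k, f k ≤ D) :
    ∀ i j, i ≠ j → f i < 0 → f j < 0 → False := by
  have h0 := hD 0
  have h1 := hD 1
  have h2 := hD 2
  intro i j hij hi hj
  fin_cases i <;> fin_cases j <;> simp at hij hi hj <;> linarith

theorem area_ge {K : Set ℂ} (hK : IsCompact K) (hc : Convex ℝ K) (v Q : Fin 3 → ℂ)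
    (hv : ∀ i, v i ∈ K) (hQ : ∀ i, Q i ∈ K) (hD : 0 < dt v)
    (hmax : ∀ i, ∀ z ∈ K, d3 (v (i + 1)) (v (i + 2)) z ≤ dt v)
    (hneg : ∀ i, d3 (v (i + 1)) (v (i + 2)) (Q i) ≤ 0) :
    (dt v - ∑ i, d3 (v (i + 1)) (v (i + 2)) (Q i)) / 2 ≤ ar K := by
  set e : Fin 3 → ℂ → ℝ := fun i z => d3 (v (i + 1)) (v (i + 2)) z with he
  have e0 : ∀ z, e 0 z = d3 (v 1) (v 2) z := fun z => rfl
  have e1 : ∀ z, e 1 z = d3 (v 2) (v 0) z := fun z => rfl
  have e2 : ∀ z, e 2 z = d3 (v 0) (v 1) z := fun z => rfl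
  have hsum : ∀ z, e 0 z + e 1 z + e 2 z = dt v := by
    intro z
    rw [e0, e1, e2, dt_eq_d3, d3_eq, d3_eq, d3_eq, d3_eq]
    ring
  have hcont : ∀ i, Continuous (e i) := by
    intro i
    have : e i = fun z => (v (i + 2)).re * z.im - (v (i + 2)).re * (v (i + 1)).im
        - (v (i + 1)).re * z.im + (v (i + 1)).re * (v (i + 1)).im
        - ((v (i + 2)).im - (v (i + 1)).im) * (z.re - (v (i + 1)).re) := by
      funext z
      show d3 _ _ _ = _
      rw [d3_eq]
      ring
    rw [this]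
    fun_prop
  let f : Option (Fin 3) → Set ℂ := fun o =>
    o.elim {z | z ∈ K ∧ ∀ i, 0 < e i z} (fun i => {z | z ∈ K ∧ e i z < 0})
  have hfn : f none = {z | z ∈ K ∧ ∀ i, 0 < e i z} := rfl
  have hfs : ∀ i, f (some i) = {z | z ∈ K ∧ e i z < 0} := fun i => rfl
  have hmeas : ∀ o, MeasurableSet (f o) := by
    intro o
    cases o with
    | none =>
      rw [hfn]
      have : {z | z ∈ K ∧ ∀ i, 0 < e i z} = K ∩ ⋂ i, {z | 0 < e i z} := by
        ext z
        simp
      rw [this]
      exact hK.isClosed.measurableSet.inter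
        (MeasurableSet.iInter fun i => (isOpen_lt continuous_const (hcont i)).measurableSet)
    | some i =>
      rw [hfs]
      exact hK.isClosed.measurableSet.inter (isOpen_lt (hcont i) continuous_const).measurableSet
  have hdisj : Pairwise (Function.onFun Disjoint f) := by
    intro o o' hne
    show Disjoint (f o) (f o')
    rw [Set.disjoint_left]
    intro z hz hz'
    cases o with
    | none =>
      cases o' with
      | none => exact hne rfl
      | some j =>
        rw [hfn] at hz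
        rw [hfs] at hz'
        exact absurd (hz.2 j) (not_lt.2 hz'.2.le)
    | some i =>
      cases o' with
      | none =>
        rw [hfn] at hz'
        rw [hfs] at hz
        exact absurd (hz'.2 i) (not_lt.2 hz.2.le)
      | some j =>
        rw [hfs] at hz hz'
        exact fin3_neg (fun k => e k z) (dt v) (hsum z) (fun k => hmax k z hz.1) i j
          (fun h => hne (by rw [h])) hz.2 hz'.2
  have hsub : (⋃ o, f o) ⊆ K := by
    apply iUnion_subset
    intro o
    cases o with
    | none => exact fun z hz => hz.1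
    | some i => exact fun z hz => hz.1
  have hnone : ENNReal.ofReal (dt v / 2) ≤ volume (f none) := by
    have h1 : ot (v 0) (v 1) (v 2) ⊆ f none := by
      rintro z ⟨x, y, hx, hy, hxy, rfl⟩
      refine ⟨mem_of_convex hc (hv 0) (hv 1) (hv 2) hx.le hy.le hxy.le, ?_⟩
      have k0 : e 0 (v 0 + x * (v 1 - v 0) + y * (v 2 - v 0)) = (1 - x - y) * dt v := by
        rw [e0, dt_eq_d3, d3_eq, d3_eq]
        simp only [Complex.add_re, Complex.add_im, Complex.mul_re, Complex.mul_im,
          Complex.ofReal_re, Complex.ofReal_im, Complex.sub_re, Complex.sub_im]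
        ring
      have k1 : e 1 (v 0 + x * (v 1 - v 0) + y * (v 2 - v 0)) = x * dt v := by
        rw [e1, dt_eq_d3, d3_eq, d3_eq]
        simp only [Complex.add_re, Complex.add_im, Complex.mul_re, Complex.mul_im,
          Complex.ofReal_re, Complex.ofReal_im, Complex.sub_re, Complex.sub_im]
        ring
      have k2 : e 2 (v 0 + x * (v 1 - v 0) + y * (v 2 - v 0)) = y * dt v := by
        rw [e2, dt_eq_d3, d3_eq, d3_eq]
        simp only [Complex.add_re, Complex.add_im, Complex.mul_re, Complex.mul_im,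
          Complex.ofReal_re, Complex.ofReal_im, Complex.sub_re, Complex.sub_im]
        ring
      intro i
      fin_cases i
      · show 0 < e 0 _
        rw [k0]
        exact mul_pos (by linarith) hD
      · show 0 < e 1 _
        rw [k1]
        exact mul_pos hx hD
      · show 0 < e 2 _
        rw [k2]
        exact mul_pos hy hD
    have h2 := measure_mono (μ := volume) h1
    rw [vol_ot, ← dt_eq_d3, abs_of_pos hD] at h2
    exact h2
  have hsome : ∀ i, ENNReal.ofReal (-e i (Q i) / 2) ≤ volume (f (some i)) := by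
    intro i
    rcases (hneg i).lt_or_eq with h0 | h0
    · have h1 : ot (v (i + 1)) (v (i + 2)) (Q i) ⊆ f (some i) := by
        rintro z ⟨x, y, hx, hy, hxy, rfl⟩
        refine ⟨mem_of_convex hc (hv (i + 1)) (hv (i + 2)) (hQ i) hx.le hy.le hxy.le, ?_⟩
        have k : e i (v (i + 1) + x * (v (i + 2) - v (i + 1)) + y * (Q i - v (i + 1))) =
            y * d3 (v (i + 1)) (v (i + 2)) (Q i) := by
          show d3 _ _ _ = _
          rw [d3_eq, d3_eq]
          simp only [Complex.add_re, Complex.add_im, Complex.mul_re, Complex.mul_im,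
            Complex.ofReal_re, Complex.ofReal_im, Complex.sub_re, Complex.sub_im]
          ring
        show e i _ < 0
        rw [k]
        exact mul_neg_of_pos_of_neg hy h0
      have h2 := measure_mono (μ := volume) h1
      rw [vol_ot, abs_of_neg h0] at h2
      exact h2
    · have : -e i (Q i) / 2 = 0 := by
        show -d3 (v (i + 1)) (v (i + 2)) (Q i) / 2 = 0
        rw [h0]
        norm_num
      rw [this, ENNReal.ofReal_zero]
      exact bot_le
  have hfin : volume K ≠ ⊤ := hK.measure_lt_top.ne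
  have hpos : ∀ i, 0 ≤ -e i (Q i) / 2 := fun i => by
    have : e i (Q i) ≤ 0 := hneg i
    linarith
  have htot : ENNReal.ofReal ((dt v - ∑ i, e i (Q i)) / 2) ≤ volume K := by
    calc ENNReal.ofReal ((dt v - ∑ i, e i (Q i)) / 2)
        = ENNReal.ofReal (dt v / 2) + ∑ i, ENNReal.ofReal (-e i (Q i) / 2) := by
          rw [← ENNReal.ofReal_sum_of_nonneg (fun i _ => hpos i),
            ← ENNReal.ofReal_add (by linarith) (Finset.sum_nonneg fun i _ => hpos i)]
          congr 1
          rw [Fin.sum_univ_three, Fin.sum_univ_three]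
          ring
      _ ≤ volume (f none) + ∑ i, volume (f (some i)) :=
          add_le_add hnone (Finset.sum_le_sum fun i _ => hsome i)
      _ = ∑ o, volume (f o) := (Fintype.sum_option (fun o => volume (f o))).symm
      _ = volume (⋃ o, f o) := by rw [measure_iUnion hdisj hmeas, tsum_fintype]
      _ ≤ volume K := measure_mono hsub
  exact (ENNReal.ofReal_le_iff_le_toReal hfin).1 htot

theorem S1a {K : Set ℂ} (hK : IsCompact K) (hc : Convex ℝ K) {w : ℝ} (hw : 0 < w) (hW : Wd K w) :
    ∃ v : Fin 3 → ℂ, ∃ β : Fin 3 → ℝ, (∀ i, v i ∈ K) ∧ 0 < dt v ∧ (∀ i, 0 ≤ β i ∧ β i ≤ 1) ∧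
      (∀ i, w * ‖v (i + 1) - v (i + 2)‖ ≤ dt v * (1 + β i)) ∧
      dt v / 2 * (1 + ∑ i, β i) ≤ ar K ∧ ¬ (∀ i, 4 / 5 ≤ β i) := by
  obtain ⟨p, hp, q, hq, hpq⟩ := hW 1 (by simp)
  have hne : K.Nonempty := ⟨p, hp⟩
  have hpqne : p - q ≠ 0 := by
    intro h
    rw [h] at hpq
    simp at hpq
    linarith
  have hdtc : Continuous (dt : (Fin 3 → ℂ) → ℝ) := by
    have : (dt : (Fin 3 → ℂ) → ℝ) = fun v => ((v 1).re - (v 0).re) * ((v 2).im - (v 0).im) -
        ((v 1).im - (v 0).im) * ((v 2).re - (v 0).re) := by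
      funext v
      rw [dt_eq_d3, d3_eq]
    rw [this]
    fun_prop
  obtain ⟨v, hv, hvmax⟩ := (isCompact_univ_pi (fun _ : Fin 3 => hK)).exists_isMaxOn
    (Set.univ_pi_nonempty_iff.2 fun _ => hne) hdtc.continuousOn
  have hvK : ∀ i, v i ∈ K := fun i => hv i (mem_univ i)
  have hmax3 : ∀ a ∈ K, ∀ b ∈ K, ∀ c ∈ K, d3 a b c ≤ dt v := by
    intro a ha b hb c hcc
    have h1 : (![a, b, c] : Fin 3 → ℂ) ∈ Set.pi univ (fun _ : Fin 3 => K) := by
      intro i _
      fin_cases i
      · exact ha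
      · exact hb
      · exact hcc
    have h2 := hvmax h1
    exact h2
  have hanti : ∀ a b c, d3 a c b = - d3 a b c := by
    intro a b c
    rw [d3_eq, d3_eq]
    ring
  -- positivity
  have hD : 0 < dt v := by
    have hn0 : 0 < ‖p - q‖ := norm_pos_iff.2 hpqne
    obtain ⟨p', hp', q', hq', hw'⟩ := hW (Complex.I * ((p - q) / (‖p - q‖ : ℂ))) (by
      rw [norm_mul, Complex.norm_I, norm_div, Complex.norm_real, norm_norm, div_self hn0.ne',
        one_mul])
    have h1 : (conj (Complex.I * ((p - q) / (‖p - q‖ : ℂ))) * (p' - q')).re =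
        (d3 q p p' - d3 q p q') / ‖p - q‖ := by
      have h2 : conj (Complex.I * ((p - q) / (‖p - q‖ : ℂ))) =
          -Complex.I * (conj (p - q) * ((‖p - q‖⁻¹ : ℝ) : ℂ)) := by
        rw [map_mul, map_div₀, Complex.conj_I, Complex.conj_ofReal]
        push_cast
        ring
      rw [h2, d3_eq, d3_eq]
      simp only [Complex.mul_re, Complex.mul_im, Complex.neg_re, Complex.neg_im, Complex.I_re,
        Complex.I_im, Complex.conj_re, Complex.conj_im, Complex.sub_re, Complex.sub_im,
        Complex.ofReal_re, Complex.ofReal_im]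
      field_simp
      ring
    rw [h1] at hw'
    have h3 : 0 < d3 q p p' - d3 q p q' := by
      by_contra h4
      have h5 : (d3 q p p' - d3 q p q') / ‖p - q‖ ≤ 0 :=
        div_nonpos_of_nonpos_of_nonneg (not_lt.1 h4) hn0.le
      linarith
    have h4 := hmax3 q hq p hp p' hp'
    have h5 := hmax3 q hq q' hq' p hp
    have h6 := hanti q p q'
    linarith
  -- the minimal points
  have hcont : ∀ a b : ℂ, Continuous (fun z => d3 a b z) := by
    intro a b
    have : (fun z => d3 a b z) = fun z => (b.re - a.re) * (z.im - a.im) -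
        (b.im - a.im) * (z.re - a.re) := by
      funext z
      rw [d3_eq]
    rw [this]
    fun_prop
  have hmin : ∀ i : Fin 3, ∃ Q ∈ K, ∀ z ∈ K,
      d3 (v (i + 1)) (v (i + 2)) Q ≤ d3 (v (i + 1)) (v (i + 2)) z := by
    intro i
    obtain ⟨Q, hQ, hQm⟩ := hK.exists_isMinOn hne
      (hcont (v (i + 1)) (v (i + 2))).continuousOn
    exact ⟨Q, hQ, fun z hz => hQm hz⟩
  choose Q hQ hQm using hmin
  have hneg : ∀ i, d3 (v (i + 1)) (v (i + 2)) (Q i) ≤ 0 := by
    intro i
    have h1 := hQm i (v (i + 1)) (hvK _)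
    have h2 : d3 (v (i + 1)) (v (i + 2)) (v (i + 1)) = 0 := by
      rw [d3_eq]
      ring
    linarith
  refine ⟨v, fun i => -d3 (v (i + 1)) (v (i + 2)) (Q i) / dt v, hvK, hD, ?_, ?_, ?_, ?_⟩
  · intro i
    constructor
    · exact div_nonneg (by linarith [hneg i]) hD.le
    · rw [div_le_one hD]
      have h1 := hmax3 _ (hvK (i + 1)) _ (hQ i) _ (hvK (i + 2))
      have h2 := hanti (v (i + 1)) (v (i + 2)) (Q i)
      linarith
  · intro i
    have ha0 : v (i + 2) - v (i + 1) ≠ 0 := by
      intro h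
      have h1 : dt v = d3 (v (i + 1)) (v (i + 2)) (v i) := by
        have e0 : dt v = d3 (v 1) (v 2) (v 0) := by
          rw [dt_eq_d3, d3_eq, d3_eq]
          ring
        have e1 : dt v = d3 (v 2) (v 0) (v 1) := by
          rw [dt_eq_d3, d3_eq, d3_eq]
          ring
        fin_cases i
        · exact e0
        · exact e1
        · exact dt_eq_d3 v
      rw [h1, sub_eq_zero.1 h, d3_eq] at hD
      simp at hD
    have hn0 : 0 < ‖v (i + 2) - v (i + 1)‖ := norm_pos_iff.2 ha0
    obtain ⟨p', hp', q', hq', hw'⟩ :=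
      hW (Complex.I * ((v (i + 2) - v (i + 1)) / (‖v (i + 2) - v (i + 1)‖ : ℂ))) (by
        rw [norm_mul, Complex.norm_I, norm_div, Complex.norm_real, norm_norm, div_self hn0.ne',
          one_mul])
    have h1 : (conj (Complex.I * ((v (i + 2) - v (i + 1)) / (‖v (i + 2) - v (i + 1)‖ : ℂ))) *
        (p' - q')).re = (d3 (v (i + 1)) (v (i + 2)) p' - d3 (v (i + 1)) (v (i + 2)) q') /
          ‖v (i + 2) - v (i + 1)‖ := by
      have h2 : conj (Complex.I * ((v (i + 2) - v (i + 1)) / (‖v (i + 2) - v (i + 1)‖ : ℂ))) =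
          -Complex.I * (conj (v (i + 2) - v (i + 1)) *
            ((‖v (i + 2) - v (i + 1)‖⁻¹ : ℝ) : ℂ)) := by
        rw [map_mul, map_div₀, Complex.conj_I, Complex.conj_ofReal]
        push_cast
        ring
      rw [h2, d3_eq, d3_eq]
      simp only [Complex.mul_re, Complex.mul_im, Complex.neg_re, Complex.neg_im, Complex.I_re,
        Complex.I_im, Complex.conj_re, Complex.conj_im, Complex.sub_re, Complex.sub_im,
        Complex.ofReal_re, Complex.ofReal_im]
      field_simp
      ring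
    rw [h1, le_div_iff₀ hn0] at hw'
    have h3 := hmax3 _ (hvK (i + 1)) _ (hvK (i + 2)) _ hp'
    have h4 := hQm i q' hq'
    have h5 : dt v * (1 + -d3 (v (i + 1)) (v (i + 2)) (Q i) / dt v) =
        dt v - d3 (v (i + 1)) (v (i + 2)) (Q i) := by
      field_simp
      ring
    rw [h5, norm_sub_rev]
    linarith
  · have h1 := area_ge hK hc v Q hvK hQ hD
      (fun i z hz => hmax3 _ (hvK (i + 1)) _ (hvK (i + 2)) z hz) hneg
    have h2 : dt v / 2 * (1 + ∑ i, -d3 (v (i + 1)) (v (i + 2)) (Q i) / dt v) =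
        (dt v - ∑ i, d3 (v (i + 1)) (v (i + 2)) (Q i)) / 2 := by
      rw [← Finset.sum_div, Finset.sum_neg_distrib]
      field_simp
      ring
    rw [h2]
    exact h1
  · intro h
    have g0 : 4 / 5 ≤ -d3 (v 1) (v 2) (Q 0) / dt v := h 0
    have g1 : 4 / 5 ≤ -d3 (v 2) (v 0) (Q 1) / dt v := h 1
    have g2 : 4 / 5 ≤ -d3 (v 0) (v 1) (Q 2) / dt v := h 2
    rw [le_div_iff₀ hD] at g0 g1 g2
    have hsum : ∀ z, d3 (v 1) (v 2) z + d3 (v 2) (v 0) z + d3 (v 0) (v 1) z = dt v := by
      intro z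
      rw [dt_eq_d3, d3_eq, d3_eq, d3_eq, d3_eq]
      ring
    have m0 : ∀ z ∈ K, d3 (v 1) (v 2) z ≤ dt v := fun z hz => hmax3 _ (hvK 1) _ (hvK 2) z hz
    have m1 : ∀ z ∈ K, d3 (v 2) (v 0) z ≤ dt v := fun z hz => hmax3 _ (hvK 2) _ (hvK 0) z hz
    have m2 : ∀ z ∈ K, d3 (v 0) (v 1) z ≤ dt v := fun z hz => hmax3 _ (hvK 0) _ (hvK 1) z hz
    have hid : d3 (Q 0) (Q 1) (Q 2) * dt v =
        (d3 (v 2) (v 0) (Q 1) - d3 (v 2) (v 0) (Q 0)) *
          (d3 (v 0) (v 1) (Q 2) - d3 (v 0) (v 1) (Q 0)) -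
        (d3 (v 0) (v 1) (Q 1) - d3 (v 0) (v 1) (Q 0)) *
          (d3 (v 2) (v 0) (Q 2) - d3 (v 2) (v 0) (Q 0)) := by
      rw [dt_eq_d3]
      simp only [d3_eq]
      ring
    have hQmax := hmax3 _ (hQ 0) _ (hQ 1) _ (hQ 2)
    have s0 := hsum (Q 0)
    have s1 := hsum (Q 1)
    have s2 := hsum (Q 2)
    have a1 := m1 _ (hQ 0)
    have a2 := m2 _ (hQ 0)
    have b0 := m0 _ (hQ 1)
    have b2 := m2 _ (hQ 1)
    have c0 := m0 _ (hQ 2)
    have c1 := m1 _ (hQ 2)
    set D := dt v
    set x01 := d3 (v 2) (v 0) (Q 0)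
    set x02 := d3 (v 0) (v 1) (Q 0)
    set x11 := d3 (v 2) (v 0) (Q 1)
    set x12 := d3 (v 0) (v 1) (Q 1)
    set x21 := d3 (v 2) (v 0) (Q 2)
    set x22 := d3 (v 0) (v 1) (Q 2)
    -- lower bounds
    have l01 : 4 / 5 * D ≤ x01 := by linarith
    have l02 : 4 / 5 * D ≤ x02 := by linarith
    have l12 : 4 / 5 * D ≤ x12 := by linarith
    have l21 : 4 / 5 * D ≤ x21 := by linarith
    have p1 : 8 / 5 * D ≤ x01 - x11 := by linarith
    have p2 : 8 / 5 * D ≤ x02 - x22 := by linarith
    have q1 : |x12 - x02| ≤ 1 / 5 * D := by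
      rw [abs_le]
      constructor <;> linarith
    have q2 : |x21 - x01| ≤ 1 / 5 * D := by
      rw [abs_le]
      constructor <;> linarith
    have r1 : (8 / 5 * D) * (8 / 5 * D) ≤ (x01 - x11) * (x02 - x22) :=
      mul_le_mul p1 p2 (by positivity) (by linarith)
    have r2 : (x12 - x02) * (x21 - x01) ≤ (1 / 5 * D) * (1 / 5 * D) := by
      calc (x12 - x02) * (x21 - x01) ≤ |(x12 - x02) * (x21 - x01)| := le_abs_self _
        _ = |x12 - x02| * |x21 - x01| := abs_mul _ _
        _ ≤ _ := mul_le_mul q1 q2 (abs_nonneg _) (by positivity)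
    have r3 : d3 (Q 0) (Q 1) (Q 2) * D ≤ D * D := mul_le_mul_of_nonneg_right hQmax hD.le
    have hDD : 0 < D * D := mul_pos hD hD
    nlinarith

end PST
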