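import Pool.Agent.PST.Vol

/-!
# MP_332d77_co: the inscribed equilateral triangle (helper79)
-/

set_option autoImplicit false

open MeasureTheory Set Metric
open scoped ComplexConjugate

namespace PST

theorem zt_sq79 : zt * zt = -1 - zt := by
  have hs := sq3_79
  apply Complex.ext
  · simp [zt]
    linear_combination (-1 / 4) * hs
  · simp [zt]
    ring

theorem conj_zt79 : conj zt = -1 - zt := by
  apply Complex.ext
  · simp [zt]; norm_num
  · simp [zt]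

theorem zt_cube79 : zt ^ 3 = 1 := by
  have h := zt_sq79
  have : zt ^ 3 = zt * zt * zt := by ring
  rw [this, h]
  linear_combination (-1) * h

theorem re_zt_pow79 (m : ℕ) : -1 / 2 ≤ (zt ^ m).re := by
  induction m using Nat.strong_induction_on with
  | _ m ih =>
    rcases Nat.lt_or_ge m 3 with h | h
    · interval_cases m
      · norm_num
      · simp [zt]
      · rw [pow_two, zt_sq79]; simp [zt]; norm_num
    · obtain ⟨n, rfl⟩ := Nat.exists_eq_add_of_le h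
      rw [pow_add, zt_cube79, one_mul]
      exact ih n (by omega)

theorem norm_zt79 : ‖zt‖ = 1 := by
  have h : ‖zt‖ ^ 2 = 1 := by
    rw [← Complex.normSq_eq_norm_sq, Complex.normSq_apply]
    have hs := sq3_79
    simp [zt]
    linear_combination (1 / 4) * hs
  have h0 : 0 ≤ ‖zt‖ := norm_nonneg _
  nlinarith

/-- a convex set with the three corners contains the triangle -/
theorem tri_sub_corners79 {c u : ℂ} (hu : ‖u‖ = 1) {ρ : ℝ} (hρ : 0 < ρ) {C : Set ℂ}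
    (hC : Convex ℝ C) (h : ∀ k, cor c u ρ k ∈ C) : Tri c u ρ ⊆ C := by
  intro z hz
  have huu : conj u * u = 1 := by
    rw [← Complex.normSq_eq_conj_mul_self, Complex.normSq_eq_norm_sq, hu]; simp
  have h1 := zt_sq79
  have h2 := conj_zt79
  let g : Fin 3 → ℝ := fun k => (ρ - (conj (nrm u k) * (z - c)).re) / (3 * ρ)
  have hre : ∀ k : Fin 3, (((conj (nrm u k) * (z - c)).re : ℝ) : ℂ) =
      (conj (nrm u k) * (z - c) + nrm u k * conj (z - c)) / 2 := by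
    intro k
    have := Complex.add_conj (conj (nrm u k) * (z - c))
    rw [map_mul, Complex.conj_conj] at this
    rw [this]
    push_cast
    ring
  have n0 : nrm u 0 = u := by simp [nrm]
  have n1 : nrm u 1 = u * zt := by simp [nrm]
  have n2 : nrm u 2 = u * (-1 - zt) := by
    have : ((2 : Fin 3) : ℕ) = 2 := rfl
    simp only [nrm, this, pow_two, h1]
  have c1 : conj (nrm u 1) = conj u * (-1 - zt) := by rw [n1, map_mul, h2]
  have c2 : conj (nrm u 2) = conj u * zt := by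
    rw [n2, map_mul, map_sub, map_neg, map_one, h2]; ring
  have hρC : (ρ : ℂ) ≠ 0 := by exact_mod_cast hρ.ne'
  have hg0 : ∀ k ∈ (Finset.univ : Finset (Fin 3)), 0 ≤ g k := by
    intro k _
    have := hz k
    exact div_nonneg (by linarith) (by linarith)
  have hg1 : ∑ k, g k = 1 := by
    have : ((∑ k, g k : ℝ) : ℂ) = 1 := by
      simp only [g, Fin.sum_univ_three, Complex.ofReal_add, Complex.ofReal_div, Complex.ofReal_sub,
        hre, Complex.ofReal_mul, Complex.ofReal_ofNat]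
      rw [n0, c1, c2, n1, n2]
      field_simp
      ring
    exact_mod_cast this
  have hkey : ∑ k : Fin 3, (ρ - (conj (nrm u k) * (z - c)).re) • cor c u ρ k = (3 * ρ) • z := by
    simp only [Fin.sum_univ_three, Complex.real_smul, Complex.ofReal_sub,
        hre, Complex.ofReal_mul, Complex.ofReal_ofNat, cor]
    rw [n0, c1, c2, n1, n2]
    linear_combination (3 * (ρ : ℂ) * (z - c)) * huu +
      (2 * (ρ : ℂ) * (u ^ 2 * conj (z - c) - conj u * u * (z - c))) * h1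
  have hgz : ∑ k, g k • cor c u ρ k = z := by
    have e : ∀ k : Fin 3, g k • cor c u ρ k =
        (1 / (3 * ρ)) • ((ρ - (conj (nrm u k) * (z - c)).re) • cor c u ρ k) := by
      intro k
      rw [smul_smul]
      congr 1
      simp only [g]
      ring
    simp_rw [e]
    rw [← Finset.smul_sum, hkey, smul_smul]
    have : 1 / (3 * ρ) * (3 * ρ) = 1 := by field_simp
    rw [this, one_smul]
  rw [← hgz]
  exact hC.sum_mem hg0 hg1 (fun k _ => h k)

/-- three times the first Fourier coefficient -/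
noncomputable def A79 (v : Fin 3 → ℂ) : ℂ := v 0 + v 1 * (-1 - zt) + v 2 * zt

/-- three times the second Fourier coefficient -/
noncomputable def B79 (v : Fin 3 → ℂ) : ℂ := v 0 + v 1 * zt + v 2 * (-1 - zt)

/-- the centroid -/
noncomputable def G79 (v : Fin 3 → ℂ) : ℂ := (v 0 + v 1 + v 2) / 3

theorem PQ1_79 (v : Fin 3 → ℂ) :
    ‖A79 v‖ ^ 2 - ‖B79 v‖ ^ 2 = 2 * Real.sqrt 3 * dt v := by
  have hs := sq3_79
  rw [← Complex.normSq_eq_norm_sq, ← Complex.normSq_eq_norm_sq, Complex.normSq_apply,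
    Complex.normSq_apply]
  simp only [A79, B79, dt, zt, Complex.add_re, Complex.add_im, Complex.sub_re, Complex.sub_im,
    Complex.mul_re, Complex.mul_im, Complex.neg_re, Complex.neg_im, Complex.one_re, Complex.one_im,
    Complex.conj_re, Complex.conj_im]
  ring

theorem PQ2_79 (v : Fin 3 → ℂ) :
    ‖A79 v‖ ^ 2 + ‖B79 v‖ ^ 2 = ‖v 1 - v 2‖ ^ 2 + ‖v 2 - v 0‖ ^ 2 + ‖v 0 - v 1‖ ^ 2 := by
  have hs := sq3_79
  simp only [← Complex.normSq_eq_norm_sq, Complex.normSq_apply]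
  simp only [A79, B79, zt, Complex.add_re, Complex.add_im, Complex.sub_re, Complex.sub_im,
    Complex.mul_re, Complex.mul_im, Complex.neg_re, Complex.neg_im, Complex.one_re, Complex.one_im]
  linear_combination (1 / 2 * (((v 1).re - (v 2).re) ^ 2 + ((v 1).im - (v 2).im) ^ 2)) * hs

theorem v_eq79 (v : Fin 3 → ℂ) (j : Fin 3) :
    v j = G79 v + (A79 v * zt ^ (j : ℕ) + B79 v * zt ^ (2 * (j : ℕ))) / 3 := by
  have h1 := zt_sq79
  have h3 := zt_cube79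
  have e2 : ((2 : Fin 3) : ℕ) = 2 := rfl
  have e1 : ((1 : Fin 3) : ℕ) = 1 := rfl
  have e0 : ((0 : Fin 3) : ℕ) = 0 := rfl
  fin_cases j
  · show v 0 = G79 v + (A79 v * zt ^ 0 + B79 v * zt ^ (2 * 0)) / 3
    unfold A79 B79 G79
    ring
  · show v 1 = G79 v + (A79 v * zt ^ 1 + B79 v * zt ^ (2 * 1)) / 3
    unfold A79 B79 G79
    have : zt ^ (2 * 1) = -1 - zt := by rw [mul_one, pow_two, h1]
    rw [this]
    linear_combination (2 / 3 * (v 1 - v 2)) * h1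
  · show v 2 = G79 v + (A79 v * zt ^ 2 + B79 v * zt ^ (2 * 2)) / 3
    unfold A79 B79 G79
    have : zt ^ (2 * 2) = zt := by
      have : zt ^ (2 * 2) = zt ^ 3 * zt := by ring
      rw [this, h3, one_mul]
    rw [this, pow_two, h1]
    linear_combination (2 / 3 * (v 2 - v 1)) * h1

/-- the scaled corners are in the hull -/
theorem corner_mem79 {v : Fin 3 → ℂ} {τ : ℝ} (hA : A79 v ≠ 0) (hτ0 : 0 ≤ τ)
    (hτ : ‖B79 v‖ = τ * ‖A79 v‖) (k : ℕ) :
    G79 v + ((1 - τ ^ 2) / (1 + 2 * τ) / 3 : ℝ) * A79 v * zt ^ k ∈ convexHull ℝ (range v) := by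
  have h1 := zt_sq79
  have h2 := conj_zt79
  have h3 := zt_cube79
  set β : ℂ := B79 v / A79 v with hβ
  have hB : B79 v = β * A79 v := by rw [hβ]; field_simp
  have hβn : ‖β‖ = τ := by
    rw [hβ, norm_div, hτ]
    exact mul_div_cancel_right₀ _ (norm_ne_zero_iff.mpr hA)
  have hβ2 : conj β * β = ((τ ^ 2 : ℝ) : ℂ) := by
    rw [← Complex.normSq_eq_conj_mul_self, Complex.normSq_eq_norm_sq, hβn]
  have hl : 0 < 1 + 2 * τ := by linarith
  set lm : ℝ := 1 / (1 + 2 * τ) with hlm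
  have hlm0 : 0 < lm := by positivity
  -- W = zt ^ k, conj W = W ^ 2, W ^ 3 = 1
  set W : ℂ := zt ^ k with hW
  have hW3 : W ^ 3 = 1 := by rw [hW, ← pow_mul, mul_comm, pow_mul, h3, one_pow]
  have hWc : conj W = W ^ 2 := by
    rw [hW, map_pow, h2, ← h1, ← pow_two, ← pow_mul, ← pow_mul, mul_comm]
  have hWc2 : conj (W ^ 2) = W := by
    rw [map_pow, hWc, ← pow_mul]
    have : W ^ (2 * 2) = W ^ 3 * W := by ring
    rw [this, hW3, one_mul]
  set γ : ℂ := lm * (W - β * W ^ 2) with hγ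
  let g : Fin 3 → ℝ := fun j => 1 / 3 * (1 + 2 * (γ * zt ^ (2 * (j : ℕ))).re)
  have hg0 : ∀ j ∈ (Finset.univ : Finset (Fin 3)), 0 ≤ g j := by
    intro j _
    have e1 : γ * zt ^ (2 * (j : ℕ)) = lm * (zt ^ (k + 2 * (j : ℕ)) - β * zt ^ (2 * k + 2 * (j : ℕ))) := by
      rw [hγ, hW]; ring
    have e2 : (γ * zt ^ (2 * (j : ℕ))).re =
        lm * ((zt ^ (k + 2 * (j : ℕ))).re - (β * zt ^ (2 * k + 2 * (j : ℕ))).re) := by
      rw [e1, Complex.re_ofReal_mul, Complex.sub_re]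
    have e3 := re_zt_pow79 (k + 2 * (j : ℕ))
    have e4 : (β * zt ^ (2 * k + 2 * (j : ℕ))).re ≤ τ := by
      have := Complex.re_le_norm (β * zt ^ (2 * k + 2 * (j : ℕ)))
      rwa [norm_mul, norm_pow, norm_zt79, one_pow, mul_one, hβn] at this
    have e5 : lm * (-1 / 2 - τ) ≤ (γ * zt ^ (2 * (j : ℕ))).re := by
      rw [e2]
      exact mul_le_mul_of_nonneg_left (by linarith) hlm0.le
    have e6 : lm * (-1 / 2 - τ) = -1 / 2 := by
      rw [hlm]; field_simp; ring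
    show 0 ≤ 1 / 3 * (1 + 2 * (γ * zt ^ (2 * (j : ℕ))).re)
    linarith
  have hgc : ∀ j : Fin 3, ((g j : ℝ) : ℂ) =
      1 / 3 * (1 + γ * zt ^ (2 * (j : ℕ)) + conj γ * zt ^ (j : ℕ)) := by
    intro j
    have e := Complex.add_conj (γ * zt ^ (2 * (j : ℕ)))
    have e' : conj (zt ^ (2 * (j : ℕ))) = zt ^ (j : ℕ) := by
      rw [map_pow, h2, ← h1, ← pow_two, ← pow_mul]
      have : zt ^ (2 * (2 * (j : ℕ))) = (zt ^ 3) ^ (j : ℕ) * zt ^ (j : ℕ) := by
        rw [← pow_mul, ← pow_add]; congr 1; ring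
      rw [this, h3, one_pow, one_mul]
    rw [map_mul, e'] at e
    show ((1 / 3 * (1 + 2 * (γ * zt ^ (2 * (j : ℕ))).re) : ℝ) : ℂ) = _
    push_cast
    rw [add_assoc, e]
    push_cast
    ring
  have p0 : ((0 : Fin 3) : ℕ) = 0 := rfl
  have p1 : ((1 : Fin 3) : ℕ) = 1 := rfl
  have p2 : ((2 : Fin 3) : ℕ) = 2 := rfl
  have z2 : zt ^ 2 = -1 - zt := by rw [pow_two, h1]
  have z4 : zt ^ 4 = zt := by
    have : zt ^ 4 = zt ^ 3 * zt := by ring
    rw [this, h3, one_mul]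
  have hg1 : ∑ j, g j = 1 := by
    have : ((∑ j, g j : ℝ) : ℂ) = 1 := by
      rw [Complex.ofReal_sum]
      simp only [hgc, Fin.sum_univ_three, p0, p1, p2, mul_zero, mul_one, pow_zero, pow_one]
      norm_num
      rw [z2, z4]
      ring
    exact_mod_cast this
  have hkey : A79 v * γ + B79 v * conj γ = ((lm * (1 - τ ^ 2) : ℝ) : ℂ) * A79 v * W := by
    rw [hB, hγ, map_mul, map_sub, map_mul, hWc, hWc2, Complex.conj_ofReal]
    push_cast at hβ2 ⊢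
    linear_combination (-(lm : ℂ) * A79 v * W) * hβ2
  have hlast : ((1 - τ ^ 2) / (1 + 2 * τ) / 3 : ℝ) = lm * (1 - τ ^ 2) / 3 := by
    rw [hlm]; ring
  have hgv : ∑ j, g j • v j = G79 v + ((1 - τ ^ 2) / (1 + 2 * τ) / 3 : ℝ) * A79 v * W := by
    have e : ∀ j : Fin 3, g j • v j = ((g j : ℝ) : ℂ) *
        (G79 v + (A79 v * zt ^ (j : ℕ) + B79 v * zt ^ (2 * (j : ℕ))) / 3) := by
      intro j
      rw [Complex.real_smul, ← v_eq79]
    simp_rw [e, hgc, Fin.sum_univ_three, p0, p1, p2, mul_zero, mul_one, pow_zero, pow_one]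
    have q4 : zt ^ (2 * 2) = zt := z4
    rw [q4, z2, hlast]
    push_cast at hkey ⊢
    linear_combination (1 / 3 : ℂ) * hkey +
      (2 / 9 * (-γ * A79 v + conj γ * A79 v + γ * B79 v - conj γ * B79 v)) * h1
  rw [← hgv]
  exact (convex_convexHull ℝ _).sum_mem hg0 hg1
    (fun j _ => subset_convexHull ℝ _ (mem_range_self j))

/-- the pure inequality behind `S1c` -/
theorem num_S1c79 {s0 s1 s2 D w y P Q : ℝ} (hD : 0 < D) (hw : 0 < w) (hy0 : 0 ≤ y) (hy : y ≤ 1 / 10)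
    (h0 : |w * s0 / D - 1| ≤ y) (h1 : |w * s1 / D - 1| ≤ y) (h2 : |w * s2 / D - 1| ≤ y)
    (hQ : 0 ≤ Q) (hm : P - Q = 2 * Real.sqrt 3 * D) (hM : P + Q = s0 ^ 2 + s1 ^ 2 + s2 ^ 2)
    (hH : 4 * D ^ 2 = 2 * (s0 ^ 2 * s1 ^ 2 + s1 ^ 2 * s2 ^ 2 + s2 ^ 2 * s0 ^ 2)
      - (s0 ^ 4 + s1 ^ 4 + s2 ^ 4)) :
    Q ≤ (5 * y) ^ 2 * P ∧ w ^ 2 / Real.sqrt 3 * (1 - 2 * y) ≤ D / 2 := by
  have hs := sq3_79
  have hp := sq3_pos79
  set k : ℝ := D / w with hk
  have hk0 : 0 < k := div_pos hD hw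
  have hx : ∀ s : ℝ, |w * s / D - 1| ≤ y → (1 - y) * k ≤ s ∧ s ≤ (1 + y) * k := by
    intro s h
    rw [abs_le] at h
    have e : w * s / D = s / k := by rw [hk]; field_simp
    rw [e] at h
    constructor
    · have : 1 - y ≤ s / k := by linarith [h.1]
      rwa [le_div_iff₀ hk0] at this
    · have : s / k ≤ 1 + y := by linarith [h.2]
      rwa [div_le_iff₀ hk0] at this
  obtain ⟨a0, b0⟩ := hx s0 h0
  obtain ⟨a1, b1⟩ := hx s1 h1
  obtain ⟨a2, b2⟩ := hx s2 h2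
  have hsq : ∀ s : ℝ, (1 - y) * k ≤ s → s ≤ (1 + y) * k →
      (1 - y) ^ 2 * k ^ 2 ≤ s ^ 2 ∧ s ^ 2 ≤ (1 + y) ^ 2 * k ^ 2 := by
    intro s ha hb
    have hpos : 0 ≤ (1 - y) * k := mul_nonneg (by linarith) hk0.le
    constructor
    · have h1 := mul_self_le_mul_self hpos ha
      have e1 : (1 - y) ^ 2 * k ^ 2 = (1 - y) * k * ((1 - y) * k) := by ring
      rw [e1, pow_two]; exact h1
    · have h1 := mul_self_le_mul_self (hpos.trans ha) hb
      have e1 : (1 + y) ^ 2 * k ^ 2 = (1 + y) * k * ((1 + y) * k) := by ring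
      rw [e1, pow_two]; exact h1
  obtain ⟨c0, d0⟩ := hsq s0 a0 b0
  obtain ⟨c1, d1⟩ := hsq s1 a1 b1
  obtain ⟨c2, d2⟩ := hsq s2 a2 b2
  have hdiff : ∀ p q : ℝ, (1 - y) ^ 2 * k ^ 2 ≤ p → p ≤ (1 + y) ^ 2 * k ^ 2 →
      (1 - y) ^ 2 * k ^ 2 ≤ q → q ≤ (1 + y) ^ 2 * k ^ 2 → (p - q) ^ 2 ≤ (4 * y * k ^ 2) ^ 2 := by
    intro p q hp1 hp2 hq1 hq2
    have e1 : (1 + y) ^ 2 * k ^ 2 - (1 - y) ^ 2 * k ^ 2 = 4 * y * k ^ 2 := by ring
    apply sq_le_sq'
    · linarith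
    · linarith
  have f1 := hdiff _ _ c0 d0 c1 d1
  have f2 := hdiff _ _ c1 d1 c2 d2
  have f3 := hdiff _ _ c2 d2 c0 d0
  have hpp : 0 < 2 * Real.sqrt 3 * D := mul_pos (mul_pos two_pos hp) hD
  have hP : 0 < P := by linarith
  have hQP : Q ≤ P := by linarith
  have hMl : 3 * ((1 - y) ^ 2 * k ^ 2) ≤ P + Q := by rw [hM]; linarith
  have hMu : P + Q ≤ 3 * ((1 + y) ^ 2 * k ^ 2) := by rw [hM]; linarith
  have hPQ : 4 * (P * Q) = 2 * ((s0 ^ 2 - s1 ^ 2) ^ 2 + (s1 ^ 2 - s2 ^ 2) ^ 2 + (s2 ^ 2 - s0 ^ 2) ^ 2) := by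
    have e1 : 4 * (P * Q) = (P + Q) ^ 2 - (P - Q) ^ 2 := by ring
    rw [e1, hM, hm]
    have e2 : (2 * Real.sqrt 3 * D) ^ 2 = 3 * (4 * D ^ 2) := by
      linear_combination (4 * D ^ 2) * hs
    rw [e2, hH]
    ring
  constructor
  · -- 4 P Q ≤ 96 y^2 k^4, (2P) ≥ P + Q ≥ 2.43 k^2
    have g1 : 4 * (P * Q) ≤ 96 * y ^ 2 * k ^ 4 := by
      have e1 : (4 * y * k ^ 2) ^ 2 = 16 * y ^ 2 * k ^ 4 := by ring
      rw [e1] at f1 f2 f3
      rw [hPQ]
      linarith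
    have g2 : 243 / 100 * k ^ 2 ≤ 2 * P := by
      have : 81 / 100 * k ^ 2 ≤ (1 - y) ^ 2 * k ^ 2 := by
        apply mul_le_mul_of_nonneg_right _ (by positivity)
        nlinarith
      linarith
    have g3 : (243 / 100 * k ^ 2) ^ 2 ≤ (2 * P) ^ 2 := by
      apply pow_le_pow_left₀ (by positivity) g2
    have g4 : 4 * (P * Q) ≤ 4 * (P * ((5 * y) ^ 2 * P)) := by
      have : 96 * y ^ 2 * k ^ 4 ≤ 25 * y ^ 2 * (2 * P) ^ 2 := by
        have h6 : y ^ 2 * (243 / 100 * k ^ 2) ^ 2 ≤ y ^ 2 * (2 * P) ^ 2 :=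
          mul_le_mul_of_nonneg_left g3 (by positivity)
        have h7 : y ^ 2 * (243 / 100 * k ^ 2) ^ 2 = 59049 / 10000 * (y ^ 2 * k ^ 4) := by ring
        have h8 : 0 ≤ y ^ 2 * k ^ 4 := by positivity
        rw [h7] at h6
        linarith
      have h9 : 25 * y ^ 2 * (2 * P) ^ 2 = 4 * (P * ((5 * y) ^ 2 * P)) := by ring
      linarith
    have g5 : P * Q ≤ P * ((5 * y) ^ 2 * P) := by linarith
    exact le_of_mul_le_mul_left g5 hP
  · -- 2 √3 D ≤ P + Q ≤ 3 k^2 (1+y)^2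
    have g1 : 2 * Real.sqrt 3 * D ≤ 3 * ((1 + y) ^ 2 * k ^ 2) := by linarith
    have hD' : D = k * w := by rw [hk]; field_simp
    have g2 : 2 * w * Real.sqrt 3 ≤ 3 * ((1 + y) ^ 2 * k) := by
      have : k * (2 * w * Real.sqrt 3) ≤ k * (3 * ((1 + y) ^ 2 * k)) := by
        rw [hD'] at g1
        have h6 : 2 * Real.sqrt 3 * (k * w) = k * (2 * w * Real.sqrt 3) := by ring
        have h7 : 3 * ((1 + y) ^ 2 * k ^ 2) = k * (3 * ((1 + y) ^ 2 * k)) := by ring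
        rw [h6, h7] at g1
        exact g1
      exact le_of_mul_le_mul_left this hk0
    -- w √3 (1-2y) ≤ w√3 / (1+y)^2 ≤ 3k/2
    have g3 : w * Real.sqrt 3 * (1 - 2 * y) ≤ 3 / 2 * k := by
      have h5 : (1 - 2 * y) * (1 + y) ^ 2 ≤ 1 := by
        have h9 : (1 - 2 * y) * (1 + y) ^ 2 = 1 - (3 * y ^ 2 + 2 * y ^ 3) := by ring
        have h10 : 0 ≤ 3 * y ^ 2 + 2 * y ^ 3 := by positivity
        linarith
      have h6 : 0 ≤ 1 - 2 * y := by linarith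
      have h7 : (1 - 2 * y) * (2 * w * Real.sqrt 3) ≤ (1 - 2 * y) * (3 * ((1 + y) ^ 2 * k)) :=
        mul_le_mul_of_nonneg_left g2 h6
      have h8 : (1 - 2 * y) * (1 + y) ^ 2 * (3 * k) ≤ 1 * (3 * k) :=
        mul_le_mul_of_nonneg_right h5 (by linarith)
      have h11 : (1 - 2 * y) * (2 * w * Real.sqrt 3) = 2 * (w * Real.sqrt 3 * (1 - 2 * y)) := by ring
      have h12 : (1 - 2 * y) * (3 * ((1 + y) ^ 2 * k)) = (1 - 2 * y) * (1 + y) ^ 2 * (3 * k) := by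
        ring
      linarith
    have g4 : w ^ 2 / Real.sqrt 3 * (1 - 2 * y) = w * (w * Real.sqrt 3 * (1 - 2 * y)) / 3 := by
      rw [div_mul_eq_mul_div, div_eq_div_iff hp.ne' (by norm_num)]
      linear_combination (-w ^ 2 * (1 - 2 * y)) * hs
    rw [g4, hD']
    have h13 := mul_le_mul_of_nonneg_left g3 hw.le
    linarith

/-- inscribed equilateral triangle -/
theorem S1c {v : Fin 3 → ℂ} (hv : 0 < dt v) {w y : ℝ} (hw : 0 < w) (hy0 : 0 ≤ y) (hy : y ≤ 1 / 10)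
    (hx : ∀ i, |w * ‖v (i + 1) - v (i + 2)‖ / dt v - 1| ≤ y) :
    ∃ (c u : ℂ) (ρ : ℝ), ‖u‖ = 1 ∧ 0 ≤ ρ ∧ Tri c u ρ ⊆ convexHull ℝ (range v) ∧
      (1 - 27 * y) * (w ^ 2 / Real.sqrt 3) ≤ 3 * Real.sqrt 3 * ρ ^ 2 := by
  have hs := sq3_79
  have hp := sq3_pos79
  have m1 := PQ1_79 v
  have m2 := PQ2_79 v
  obtain ⟨hQ, hD⟩ := num_S1c79 (P := ‖A79 v‖ ^ 2) (Q := ‖B79 v‖ ^ 2) hv hw hy0 hy (hx 0) (hx 1) (hx 2)
    (by positivity) m1 m2 (heron v)
  have hPQ : 0 < ‖A79 v‖ ^ 2 - ‖B79 v‖ ^ 2 := by rw [m1]; positivity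
  have hA : 0 < ‖A79 v‖ := by
    rcases (norm_nonneg (A79 v)).eq_or_lt with h | h
    · rw [← h] at hPQ
      nlinarith [sq_nonneg ‖B79 v‖]
    · exact h
  have hA0 : A79 v ≠ 0 := norm_pos_iff.mp hA
  set τ : ℝ := ‖B79 v‖ / ‖A79 v‖ with hτ
  have hτ0 : 0 ≤ τ := by positivity
  have hBτ : ‖B79 v‖ = τ * ‖A79 v‖ := by rw [hτ]; field_simp
  have hτ1 : τ ^ 2 < 1 := by
    rw [hBτ] at hPQ
    have h1 : 0 < (1 - τ ^ 2) * ‖A79 v‖ ^ 2 := by nlinarith
    have h2 : 0 < ‖A79 v‖ ^ 2 := by positivity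
    nlinarith [(mul_pos_iff_of_pos_right h2).mp h1]
  have hτy : τ ≤ 5 * y := by
    rw [hBτ, mul_pow] at hQ
    have h2 : 0 < ‖A79 v‖ ^ 2 := by positivity
    have h3 : τ ^ 2 ≤ (5 * y) ^ 2 := le_of_mul_le_mul_right hQ h2
    exact le_of_sq_le_sq h3 (by linarith)
  have hl : 0 < 1 + 2 * τ := by linarith
  set lam : ℝ := (1 - τ ^ 2) / (1 + 2 * τ) with hlam
  have hlam0 : 0 < lam := div_pos (by linarith) hl
  refine ⟨G79 v, -(A79 v / (‖A79 v‖ : ℂ)), lam * ‖A79 v‖ / 6, ?_, by positivity, ?_, ?_⟩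
  · rw [norm_neg, norm_div, Complex.norm_real, norm_norm, div_self hA.ne']
  · apply tri_sub_corners79
    · rw [norm_neg, norm_div, Complex.norm_real, norm_norm, div_self hA.ne']
    · positivity
    · exact convex_convexHull ℝ _
    · intro k
      have := corner_mem79 hA0 hτ0 hBτ (k : ℕ)
      have e : cor (G79 v) (-(A79 v / (‖A79 v‖ : ℂ))) (lam * ‖A79 v‖ / 6) k =
          G79 v + ((1 - τ ^ 2) / (1 + 2 * τ) / 3 : ℝ) * A79 v * zt ^ (k : ℕ) := by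
        rw [← hlam]
        have hAC : (‖A79 v‖ : ℂ) ≠ 0 := by exact_mod_cast hA.ne'
        simp only [cor, nrm]
        push_cast
        field_simp
        ring
      rw [e]
      exact this
  · have e1 : 3 * Real.sqrt 3 * (lam * ‖A79 v‖ / 6) ^ 2 =
        dt v / 2 * ((1 - τ ^ 2) / (1 + 2 * τ) ^ 2) := by
      have h1 : (1 - τ ^ 2) * ‖A79 v‖ ^ 2 = 2 * Real.sqrt 3 * dt v := by
        rw [← m1, hBτ]; ring
      have h2 : 3 * Real.sqrt 3 * (lam * ‖A79 v‖ / 6) ^ 2 =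
          Real.sqrt 3 / 12 * ((1 - τ ^ 2) / (1 + 2 * τ) ^ 2) * ((1 - τ ^ 2) * ‖A79 v‖ ^ 2) := by
        rw [hlam]
        field_simp
        ring
      rw [h2, h1]
      linear_combination (1 / 6 * dt v * ((1 - τ ^ 2) / (1 + 2 * τ) ^ 2)) * hs
    rw [e1]
    have hq : 0 ≤ (1 - τ ^ 2) / (1 + 2 * τ) ^ 2 := by
      apply div_nonneg (by linarith) (by positivity)
    have hw3 : 0 ≤ w ^ 2 / Real.sqrt 3 := by positivity
    rcases le_or_gt (1 - 27 * y) 0 with h | h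
    · have h1 : (1 - 27 * y) * (w ^ 2 / Real.sqrt 3) ≤ 0 := mul_nonpos_of_nonpos_of_nonneg h hw3
      have h2 : 0 ≤ dt v / 2 * ((1 - τ ^ 2) / (1 + 2 * τ) ^ 2) := mul_nonneg (by linarith) hq
      linarith
    · have h1 : 1 - 25 * y ≤ (1 - τ ^ 2) / (1 + 2 * τ) ^ 2 := by
        rw [le_div_iff₀ (by positivity)]
        have h3 : (1 - 5 * τ) * (1 + 2 * τ) ^ 2 ≤ 1 - τ ^ 2 := by
          nlinarith [mul_nonneg hτ0 hτ0, mul_nonneg (mul_nonneg hτ0 hτ0) hτ0]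
        have h4 : (1 - 25 * y) * (1 + 2 * τ) ^ 2 ≤ (1 - 5 * τ) * (1 + 2 * τ) ^ 2 :=
          mul_le_mul_of_nonneg_right (by linarith) (by positivity)
        linarith
      have h2 : 0 ≤ 1 - 25 * y := by linarith
      calc (1 - 27 * y) * (w ^ 2 / Real.sqrt 3)
          ≤ w ^ 2 / Real.sqrt 3 * (1 - 2 * y) * (1 - 25 * y) := by
            have : 0 ≤ w ^ 2 / Real.sqrt 3 * (50 * y ^ 2) := by positivity
            nlinarith
        _ ≤ dt v / 2 * (1 - 25 * y) := mul_le_mul_of_nonneg_right hD h2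
        _ ≤ _ := mul_le_mul_of_nonneg_left h1 (by linarith)

end PST
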