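import Pool.Agent.PST.Num
import Pool.Agent.PST.S1a
import Pool.Agent.PST.S1c
import Pool.Agent.PST.Vol

/-! Linear stability of the minimal area of convex sets of given width (helper51) -/

set_option autoImplicit false

open MeasureTheory Set Metric
open scoped ComplexConjugate

namespace PST

/-- the degenerate triangle is a point -/
lemma tri_zero (c : ℂ) : Tri c 1 0 ⊆ {c} := by
  intro z hz
  have h0 := hz 0
  have h1 := hz 1
  have h2 := hz 2
  have e0 : nrm 1 0 = 1 := by simp [nrm]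
  have e1 : nrm 1 1 = zt := by simp [nrm]
  have e2 : nrm 1 2 = zt * zt := by simp [nrm, pow_two]
  rw [e0] at h0
  rw [e1] at h1
  rw [e2] at h2
  set d : ℂ := z - c with hd
  have r0 : (conj (1 : ℂ) * d).re = d.re := by simp
  have r1 : (conj zt * d).re = -d.re / 2 + Real.sqrt 3 / 2 * d.im := by
    simp [zt, Complex.mul_re]
    ring
  have r2 : (conj (zt * zt) * d).re = -d.re / 2 - Real.sqrt 3 / 2 * d.im := by
    have h3 : Real.sqrt 3 * Real.sqrt 3 = 3 := Real.mul_self_sqrt (by norm_num)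
    simp [zt, Complex.mul_re, Complex.mul_im]
    linear_combination (-d.re / 4) * h3
  rw [r0] at h0
  rw [r1] at h1
  rw [r2] at h2
  have hs : 0 < Real.sqrt 3 := Real.sqrt_pos.2 (by norm_num)
  have hre : d.re = 0 := by linarith
  rw [hre] at h1 h2
  have him : d.im = 0 := by
    have a1 : Real.sqrt 3 / 2 * d.im ≤ 0 := by linarith
    have a2 : 0 ≤ Real.sqrt 3 / 2 * d.im := by linarith
    have a3 : Real.sqrt 3 / 2 * d.im = 0 := le_antisymm a1 a2
    rcases mul_eq_zero.1 a3 with h | h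
    · exact absurd h (by positivity)
    · exact h
  have hd0 : d = 0 := Complex.ext hre him
  rw [mem_singleton_iff]
  exact sub_eq_zero.1 hd0

theorem S1 {K : Set ℂ} (hK : IsCompact K) (hc : Convex ℝ K) {w : ℝ} (hw : 0 < w) (hW : Wd K w) :
    w ^ 2 / Real.sqrt 3 ≤ ar K ∧ ∃ (c u : ℂ) (ρ : ℝ), ‖u‖ = 1 ∧ 0 ≤ ρ ∧ Tri c u ρ ⊆ K ∧
      w ^ 2 / Real.sqrt 3 - 4600 * (ar K - w ^ 2 / Real.sqrt 3) ≤ 3 * Real.sqrt 3 * ρ ^ 2 := by
  obtain ⟨v, β, hvK, hdt, hβ, hxβ, har, hn⟩ := S1a hK hc hw hW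
  set D : ℝ := dt v with hD
  have hs3 : 0 < Real.sqrt 3 := Real.sqrt_pos.2 (by norm_num)
  have hs33 : Real.sqrt 3 ^ 2 = 3 := Real.sq_sqrt (by norm_num)
  have har0 : 0 ≤ ar K := ENNReal.toReal_nonneg
  -- the side lengths are positive
  have hside : ∀ i : Fin 3, 0 < ‖v (i + 1) - v (i + 2)‖ := by
    intro i
    rw [norm_pos_iff]
    intro h
    have h1 : v (i + 1) = v (i + 2) := sub_eq_zero.1 h
    have : D = 0 := by
      rw [hD]
      unfold dt
      fin_cases i
      · have h2 : v 1 = v 2 := h1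
        rw [h2, ← Complex.normSq_eq_conj_mul_self]
        exact Complex.ofReal_im _
      · have h2 : v 2 = v 0 := h1
        rw [h2, sub_self, mul_zero]
        rfl
      · have h2 : v 0 = v 1 := h1
        rw [h2, sub_self, map_zero, zero_mul]
        rfl
    linarith
  set x : Fin 3 → ℝ := fun i => w * ‖v (i + 1) - v (i + 2)‖ / D with hx
  have hx0 : ∀ i, 0 < x i := fun i => div_pos (mul_pos hw (hside i)) hdt
  have hxβ' : ∀ i, x i ≤ 1 + β i := by
    intro i
    rw [hx]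
    simp only
    rw [div_le_iff₀ hdt]
    have := hxβ i
    linarith
  have x0 : x 0 = w * ‖v 1 - v 2‖ / D := rfl
  have x1 : x 1 = w * ‖v 2 - v 0‖ / D := rfl
  have x2 : x 2 = w * ‖v 0 - v 1‖ / D := rfl
  have hher := heron v
  rw [← hD] at hher
  have hsig : 2 * (x 0 ^ 2 * x 1 ^ 2 + x 1 ^ 2 * x 2 ^ 2 + x 2 ^ 2 * x 0 ^ 2) -
      (x 0 ^ 4 + x 1 ^ 4 + x 2 ^ 4) = 4 * w ^ 4 / D ^ 2 := by
    rw [x0, x1, x2]
    have e1 : 4 * w ^ 4 / D ^ 2 = w ^ 4 / D ^ 4 * (4 * D ^ 2) := by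
      field_simp
    rw [e1, hher]
    field_simp
  have htri : ∀ i, x i ≤ x (i + 1) + x (i + 2) := by
    intro i
    have h1 : ∀ a b c : ℂ, ‖a - b‖ ≤ ‖b - c‖ + ‖c - a‖ := by
      intro a b c
      have : a - b = -((b - c) + (c - a)) := by ring
      rw [this, norm_neg]
      exact norm_add_le _ _
    have h2 : ∀ a b c : ℝ, a ≤ b + c → w * a / D ≤ w * b / D + w * c / D := by
      intro a b c h
      rw [← add_div, ← mul_add]
      exact div_le_div_of_nonneg_right (mul_le_mul_of_nonneg_left h hw.le) hdt.le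
    fin_cases i
    · exact h2 _ _ _ (h1 (v 1) (v 2) (v 0))
    · exact h2 _ _ _ (h1 (v 2) (v 0) (v 1))
    · exact h2 _ _ _ (h1 (v 0) (v 1) (v 2))
  set A0 : ℝ := w ^ 2 / Real.sqrt 3 with hA0
  have hA0pos : 0 < A0 := div_pos (by positivity) hs3
  set e : ℝ := ar K / A0 - 1 with he
  have harK : ar K = (1 + e) * A0 := by
    rw [he]
    field_simp
    ring
  have hA2 : A0 ^ 2 = w ^ 4 / 3 := by
    rw [hA0, div_pow, hs33]
    ring
  obtain ⟨he0, he1⟩ := S1b (x := x) (β := β) (e := e) hx0 htri hβ hxβ' hn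
    (by rw [hsig]; positivity)
    (by
      rw [he]
      have : 0 ≤ ar K / A0 := div_nonneg har0 hA0pos.le
      linarith)
    (by
      rw [hsig]
      have h1 : (D / 2 * (1 + ∑ i, β i)) ^ 2 ≤ ar K ^ 2 := by
        apply pow_le_pow_left₀ _ har
        have : 0 ≤ ∑ i, β i := Finset.sum_nonneg fun i _ => (hβ i).1
        positivity
      have h2 : (D / 2 * (1 + ∑ i, β i)) ^ 2 = D ^ 2 / 4 * (1 + ∑ i, β i) ^ 2 := by ring
      have h2' : ar K ^ 2 = (1 + e) ^ 2 * (w ^ 4 / 3) := by rw [harK, mul_pow, hA2]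
      rw [h2, h2'] at h1
      have hD2 : 0 < D ^ 2 := by positivity
      have h3 : (1 + e) ^ 2 * (4 * w ^ 4 / D ^ 2) = ((1 + e) ^ 2 * (w ^ 4 / 3)) * (12 / D ^ 2) := by
        field_simp
        ring
      rw [h3]
      have h4 : 3 * (1 + ∑ i, β i) ^ 2 = (D ^ 2 / 4 * (1 + ∑ i, β i) ^ 2) * (12 / D ^ 2) := by
        field_simp
        ring
      rw [h4]
      exact mul_le_mul_of_nonneg_right h1 (by positivity))
  have hle : A0 ≤ ar K := by
    rw [harK]
    nlinarith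
  refine ⟨hle, ?_⟩
  by_cases hbig : 1 ≤ 4600 * e
  · refine ⟨v 0, 1, 0, by simp, le_rfl, (tri_zero _).trans (singleton_subset_iff.2 (hvK 0)), ?_⟩
    have h1 : A0 - 4600 * (ar K - A0) = A0 * (1 - 4600 * e) := by rw [harK]; ring
    rw [h1]
    have : A0 * (1 - 4600 * e) ≤ 0 := mul_nonpos_of_nonneg_of_nonpos hA0pos.le (by linarith)
    simpa using this
  · push Not at hbig
    obtain ⟨c, u, ρ, hu, hρ, hsub, hρa⟩ := S1c (v := v) hdt hw (y := 169 * e) (by linarith)
      (by linarith) (fun i => he1 (by linarith) i)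
    refine ⟨c, u, ρ, hu, hρ, hsub.trans (convexHull_min (range_subset_iff.2 hvK) hc), ?_⟩
    refine le_trans ?_ hρa
    have h1 : A0 - 4600 * (ar K - A0) = A0 * (1 - 4600 * e) := by rw [harK]; ring
    rw [h1]
    have h2 : (1 - 27 * (169 * e)) * A0 = A0 * (1 - 4563 * e) := by ring
    rw [h2]
    apply mul_le_mul_of_nonneg_left _ hA0pos.le
    linarith

end PST
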