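import Pool.Agent.PST.Fin1
import Pool.Agent.PST.S1

/-! # MP_332d77_co: the upper bound, with everything proved -/

set_option autoImplicit false

namespace PST

/-- the upper bound for the number of convex sets of width at least `t` in the unit disc -/
theorem upper_bound : ∃ c > (0 : ℝ), ∃ t0 > (0 : ℝ), ∀ t, 0 < t → t ≤ t0 → ∀ m : ℕ, PCW.Pack 2 t m →
    (m : ℝ) ≤ Real.sqrt 3 * Real.pi / t ^ 2 - c / t :=
  upper (fun K hK hc w hw hW => S1 hK hc hw hW)

end PST
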