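import Pool.Agent.PST.Fin2

/-! # MP_332d77_co: the upper bound for all `t` -/

set_option autoImplicit false

open MeasureTheory Set Metric
open scoped ComplexConjugate

namespace PST

theorem zt_pow2_re : (zt ^ 2).re = -1 / 2 := by rw [zt_sq]
theorem zt_pow2_im : (zt ^ 2).im = -(Real.sqrt 3 / 2) := by rw [zt_sq]

/-- a linear function on a triangle is at most its maximum at the corners -/
theorem tri_corner {c u : ℂ} (hu : ‖u‖ = 1) {r : ℝ} (hr : 0 ≤ r) {z : ℂ} (hz : z ∈ Tri c u r) {p : ℂ} {M : ℝ}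
    (hM : ∀ k, (conj p * cor c u r k).re < M) : (conj p * z).re < M := by
  rcases hr.eq_or_lt with h0 | hpos
  · have h1 := tri_dist hu hz
    rw [← h0, mul_zero] at h1
    have h2 : z = c := by
      have := norm_le_zero_iff.1 h1
      exact sub_eq_zero.1 this
    have h3 := hM 0
    unfold cor at h3
    rw [← h0] at h3
    rw [h2]
    simpa using h3
  · have h3 : Real.sqrt 3 * Real.sqrt 3 = 3 := Real.mul_self_sqrt (by norm_num)
    obtain ⟨g0, g1, g2⟩ := mem_tri_iff'.1 hz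
    set d := conj u * (z - c) with hd
    have huu : u * conj u = 1 := by rw [mul_comm]; exact conj_mul_self hu
    have hzc : z = c + u * d := by
      rw [hd, ← mul_assoc, huu, one_mul]; ring
    have hsum : (3 * r : ℝ) * z = ((r - d.re : ℝ) : ℂ) * cor c u r 0
        + ((r - (-1 / 2 * d.re + Real.sqrt 3 / 2 * d.im) : ℝ) : ℂ) * cor c u r 1
        + ((r - (-1 / 2 * d.re - Real.sqrt 3 / 2 * d.im) : ℝ) : ℂ) * cor c u r 2 := by
      rw [hzc]
      simp only [cor, nrm_zero, nrm_one, nrm_two]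
      have hkey : (3 * r : ℝ) * d = -(2 * r : ℝ) * (((r - d.re : ℝ) : ℂ) + ((r - (-1 / 2 * d.re + Real.sqrt 3 / 2 * d.im) : ℝ) : ℂ) * zt
        + ((r - (-1 / 2 * d.re - Real.sqrt 3 / 2 * d.im) : ℝ) : ℂ) * zt ^ 2) := by
        apply Complex.ext
        · simp only [Complex.mul_re, Complex.add_re, Complex.neg_re, Complex.ofReal_re, Complex.ofReal_im, Complex.add_im,
            Complex.mul_im, Complex.neg_im, zt_re, zt_im, zt_pow2_re, zt_pow2_im]
          ring
        · simp only [Complex.mul_re, Complex.add_re, Complex.neg_re, Complex.ofReal_re, Complex.ofReal_im, Complex.add_im,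
            Complex.mul_im, Complex.neg_im, zt_re, zt_im, zt_pow2_re, zt_pow2_im]
          linear_combination (-(r * d.im)) * h3
      push_cast at hkey ⊢
      linear_combination u * hkey
    have h0' := hM 0
    have h1' := hM 1
    have h2' := hM 2
    have e : (3 * r) * (conj p * z).re = (r - d.re) * (conj p * cor c u r 0).re
        + (r - (-1 / 2 * d.re + Real.sqrt 3 / 2 * d.im)) * (conj p * cor c u r 1).re
        + (r - (-1 / 2 * d.re - Real.sqrt 3 / 2 * d.im)) * (conj p * cor c u r 2).re := by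
      have : ((3 * r : ℝ) * (conj p * z)) = ((r - d.re : ℝ) : ℂ) * (conj p * cor c u r 0)
        + ((r - (-1 / 2 * d.re + Real.sqrt 3 / 2 * d.im) : ℝ) : ℂ) * (conj p * cor c u r 1)
        + ((r - (-1 / 2 * d.re - Real.sqrt 3 / 2 * d.im) : ℝ) : ℂ) * (conj p * cor c u r 2) := by
        linear_combination (conj p) * hsum
      have h := congrArg Complex.re this
      rw [Complex.add_re, Complex.add_re, Complex.re_ofReal_mul, Complex.re_ofReal_mul, Complex.re_ofReal_mul,
        Complex.re_ofReal_mul] at h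
      exact h
    have a0 : 0 ≤ r - d.re := by linarith
    have a1 : 0 ≤ r - (-1 / 2 * d.re + Real.sqrt 3 / 2 * d.im) := by linarith
    have a2 : 0 ≤ r - (-1 / 2 * d.re - Real.sqrt 3 / 2 * d.im) := by linarith
    have hmax : ∃ M' < M, (conj p * cor c u r 0).re ≤ M' ∧ (conj p * cor c u r 1).re ≤ M' ∧ (conj p * cor c u r 2).re ≤ M' :=
      ⟨max (conj p * cor c u r 0).re (max (conj p * cor c u r 1).re (conj p * cor c u r 2).re),
        max_lt h0' (max_lt h1' h2'), le_max_left _ _, (le_max_left _ _).trans (le_max_right _ _),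
        (le_max_right _ _).trans (le_max_right _ _)⟩
    obtain ⟨M', hM', b0, b1, b2⟩ := hmax
    have c0 := mul_le_mul_of_nonneg_left b0 a0
    have c1 := mul_le_mul_of_nonneg_left b1 a1
    have c2 := mul_le_mul_of_nonneg_left b2 a2
    have c3 : (3 * r) * (conj p * z).re ≤ (3 * r) * M' := by
      rw [e]; linarith
    exact (le_of_mul_le_mul_left c3 (by linarith)).trans_lt hM'

/-- corners of a triangle belong to it -/
theorem cor_mem {c u : ℂ} (hu : ‖u‖ = 1) {r : ℝ} (hr : 0 ≤ r) (k : Fin 3) : cor c u r k ∈ Tri c u r := by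
  have h3 : Real.sqrt 3 * Real.sqrt 3 = 3 := Real.mul_self_sqrt (by norm_num)
  have hcu : conj u * u = 1 := conj_mul_self hu
  have e : conj u * (cor c u r k - c) = ((-(2 * r) : ℝ) : ℂ) * zt ^ (k : ℕ) := by
    unfold cor nrm
    push_cast
    linear_combination (-(2 * r : ℂ) * zt ^ (k : ℕ)) * hcu
  rw [mem_tri_iff', e, Complex.re_ofReal_mul, Complex.im_ofReal_mul]
  have hk : (zt ^ (k : ℕ)).re = 1 ∧ (zt ^ (k : ℕ)).im = 0 ∨ (zt ^ (k : ℕ)).re = -1 / 2 ∧ (zt ^ (k : ℕ)).im = Real.sqrt 3 / 2 ∨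
      (zt ^ (k : ℕ)).re = -1 / 2 ∧ (zt ^ (k : ℕ)).im = -(Real.sqrt 3 / 2) := by
    fin_cases k
    · left; simp
    · right; left; simp [zt_re, zt_im]
    · right; right; exact ⟨zt_pow2_re, zt_pow2_im⟩
  rcases hk with ⟨h1, h2⟩ | ⟨h1, h2⟩ | ⟨h1, h2⟩ <;> rw [h1, h2] <;> refine ⟨?_, ?_, ?_⟩ <;> nlinarith

/-- one of `3 n + 1` directions is far from `3 n` given points of the disc -/
theorem cap_free {n : ℕ} (hn : 0 < n) (P : Fin n × Fin 3 → ℂ) (hP : ∀ a, ‖P a‖ ≤ 1) :
    ∃ p : ℂ, ‖p‖ = 1 ∧ ∀ a, (conj p * P a).re < 1 - 1 / (20 * (n : ℝ) ^ 2) := by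
  classical
  have hn' : (1 : ℝ) ≤ n := by exact_mod_cast hn
  set δ : ℝ := 1 / (20 * (n : ℝ) ^ 2) with hδ
  set x : Fin (3 * n + 1) → ℝ := fun j => -1 + 2 * (j : ℝ) / (3 * n) with hx
  have hx1 : ∀ j, -1 ≤ x j ∧ x j ≤ 1 := by
    intro j
    have h1 : ((j : ℕ) : ℝ) ≤ 3 * n := by
      have := j.2
      exact_mod_cast (by omega : (j : ℕ) ≤ 3 * n)
    have h2 : 0 ≤ 2 * ((j : ℕ) : ℝ) / (3 * n) := by positivity
    have h3 : 2 * ((j : ℕ) : ℝ) / (3 * n) ≤ 2 := by
      rw [div_le_iff₀ (by positivity)]; linarith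
    exact ⟨by simp only [hx]; linarith, by simp only [hx]; linarith⟩
  set p : Fin (3 * n + 1) → ℂ := fun j => ⟨x j, Real.sqrt (1 - x j ^ 2)⟩ with hp
  have hpn : ∀ j, ‖p j‖ = 1 := by
    intro j
    have h1 : 0 ≤ 1 - x j ^ 2 := by nlinarith [(hx1 j).1, (hx1 j).2]
    have h2 : ‖p j‖ ^ 2 = 1 := by
      rw [← Complex.normSq_eq_norm_sq, Complex.normSq_apply]
      simp only [hp]
      rw [Real.mul_self_sqrt h1]; ring
    nlinarith [norm_nonneg (p j)]
  by_contra hcon
  have hall : ∀ j : Fin (3 * n + 1), ∃ a, 1 - δ ≤ (conj (p j) * P a).re := by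
    intro j
    by_contra hj
    apply hcon
    refine ⟨p j, hpn j, fun a => ?_⟩
    rw [not_exists] at hj
    exact lt_of_not_ge (hj a)
  choose a ha using hall
  have hclose : ∀ j, ‖P (a j) - p j‖ ^ 2 ≤ 2 * δ := by
    intro j
    have h1 : ‖P (a j) - p j‖ ^ 2 = ‖P (a j)‖ ^ 2 + ‖p j‖ ^ 2 - 2 * (conj (p j) * P (a j)).re := by
      rw [← Complex.normSq_eq_norm_sq, ← Complex.normSq_eq_norm_sq, ← Complex.normSq_eq_norm_sq,
        Complex.normSq_apply, Complex.normSq_apply, Complex.normSq_apply]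
      simp only [Complex.mul_re, Complex.sub_re, Complex.sub_im, Complex.conj_re, Complex.conj_im]
      ring
    have h2 := ha j
    have h3 := hP (a j)
    have h4 := hpn j
    have h5 : ‖P (a j)‖ ^ 2 ≤ 1 := by nlinarith [norm_nonneg (P (a j))]
    rw [h1, h4]; linarith
  have hcard : Fintype.card (Fin n × Fin 3) < Fintype.card (Fin (3 * n + 1)) := by
    simp; omega
  obtain ⟨j, j', hjj, haj⟩ := Fintype.exists_ne_map_eq_of_card_lt a hcard
  have h1 := hclose j
  have h2 := hclose j'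
  rw [← haj] at h2
  have h3 : ‖p j - p j'‖ ^ 2 ≤ 8 * δ := by
    have h4 : ‖p j - p j'‖ ≤ ‖P (a j) - p j‖ + ‖P (a j) - p j'‖ := by
      have : p j - p j' = -(P (a j) - p j) + (P (a j) - p j') := by ring
      rw [this]
      refine (norm_add_le _ _).trans ?_
      rw [norm_neg]
    nlinarith [norm_nonneg (P (a j) - p j), norm_nonneg (P (a j) - p j'), norm_nonneg (p j - p j'),
      sq_nonneg (‖P (a j) - p j‖ - ‖P (a j) - p j'‖)]
  have h5 : (2 / (3 * (n : ℝ))) ^ 2 ≤ ‖p j - p j'‖ ^ 2 := by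
    have h6 : |x j - x j'| ≤ ‖p j - p j'‖ := by
      have := Complex.abs_re_le_norm (p j - p j')
      rwa [Complex.sub_re] at this
    have h7 : 2 / (3 * (n : ℝ)) ≤ |x j - x j'| := by
      have h8 : x j - x j' = 2 / (3 * (n : ℝ)) * (((j : ℕ) : ℝ) - ((j' : ℕ) : ℝ)) := by
        simp only [hx]; ring
      rw [h8, abs_mul, abs_of_pos (by positivity)]
      have h9 : (1 : ℝ) ≤ |((j : ℕ) : ℝ) - ((j' : ℕ) : ℝ)| := by
        have hne : (j : ℕ) ≠ (j' : ℕ) := fun h => hjj (Fin.ext h)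
        have h10 : (1 : ℤ) ≤ |((j : ℕ) : ℤ) - ((j' : ℕ) : ℤ)| := by
          apply Int.one_le_abs
          omega
        exact_mod_cast h10
      have h11 : 0 < 2 / (3 * (n : ℝ)) := by positivity
      nlinarith
    apply pow_le_pow_left₀ (by positivity) (h7.trans h6)
  have h12 : (2 / (3 * (n : ℝ))) ^ 2 = 4 / 9 * (1 / (n : ℝ) ^ 2) := by field_simp; norm_num
  have h13 : 8 * δ = 2 / 5 * (1 / (n : ℝ) ^ 2) := by rw [hδ]; field_simp; norm_num
  have h14 : 0 < 1 / (n : ℝ) ^ 2 := by positivity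
  rw [h12] at h5
  rw [h13] at h3
  linarith

end PST
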