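import Pool.Agent.PST.Vol
import Pool.Agent.PCW.Defs

/-!
# MP_332d77_co, second term of `P(2,t)`: the lower bound (the triangular tiling) (helper51)
-/

set_option autoImplicit false

open MeasureTheory Set Metric
open scoped ComplexConjugate RealInnerProductSpace

namespace PST

/-! ### the three forms -/

lemma s3_51 : Real.sqrt 3 ^ 2 = 3 := Real.sq_sqrt (by norm_num)

lemma s3pos_51 : 0 < Real.sqrt 3 := Real.sqrt_pos.2 (by norm_num)

lemma zt_sq51 : zt ^ 2 = ⟨-1 / 2, -(Real.sqrt 3 / 2)⟩ := by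
  have h := s3_51
  rw [pow_two]
  apply Complex.ext
  · simp only [zt, Complex.mul_re]
    linear_combination (-1 / 4) * h
  · simp only [zt, Complex.mul_im]
    ring

/-- the three linear forms -/
noncomputable def f0 (z : ℂ) : ℝ := z.re
noncomputable def f1 (z : ℂ) : ℝ := -z.re / 2 + Real.sqrt 3 / 2 * z.im
noncomputable def f2 (z : ℂ) : ℝ := -z.re / 2 - Real.sqrt 3 / 2 * z.im

lemma f_sum (z : ℂ) : f0 z + f1 z + f2 z = 0 := by unfold f0 f1 f2; ring

lemma f_sub0 (z w : ℂ) : f0 (z - w) = f0 z - f0 w := by unfold f0; simp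
lemma f_sub1 (z w : ℂ) : f1 (z - w) = f1 z - f1 w := by unfold f1; simp; ring
lemma f_sub2 (z w : ℂ) : f2 (z - w) = f2 z - f2 w := by unfold f2; simp; ring

lemma f_sq (z : ℂ) : f0 z ^ 2 + f1 z ^ 2 + f2 z ^ 2 = 3 / 2 * ‖z‖ ^ 2 := by
  have h := s3_51
  rw [← Complex.normSq_eq_norm_sq, Complex.normSq_apply]
  unfold f0 f1 f2
  linear_combination (z.im ^ 2 / 2) * h

lemma frm0 (u v : ℂ) : (conj (nrm u 0) * v).re = f0 (conj u * v) := by
  simp [nrm, f0]

lemma frm1 (u v : ℂ) : (conj (nrm u 1) * v).re = f1 (conj u * v) := by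
  have e : nrm u 1 = u * ⟨-1 / 2, Real.sqrt 3 / 2⟩ := by simp [nrm, zt]
  rw [e]
  unfold f1
  simp only [map_mul, Complex.mul_re, Complex.mul_im, Complex.conj_re, Complex.conj_im]
  ring

lemma frm2 (u v : ℂ) : (conj (nrm u 2) * v).re = f2 (conj u * v) := by
  have e : nrm u 2 = u * ⟨-1 / 2, -(Real.sqrt 3 / 2)⟩ := by
    rw [← zt_sq51]; simp [nrm]
  rw [e]
  unfold f2
  simp only [map_mul, Complex.mul_re, Complex.mul_im, Complex.conj_re, Complex.conj_im]
  ring

lemma mem_tri51 {c u : ℂ} {r : ℝ} {z : ℂ} : z ∈ Tri c u r ↔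
    f0 (conj u * (z - c)) ≤ r ∧ f1 (conj u * (z - c)) ≤ r ∧ f2 (conj u * (z - c)) ≤ r := by
  rw [← frm0, ← frm1, ← frm2]
  constructor
  · intro h
    exact ⟨h 0, h 1, h 2⟩
  · rintro ⟨h0, h1, h2⟩ k
    fin_cases k
    · exact h0
    · exact h1
    · exact h2

lemma norm_conj51 {u : ℂ} (hu : ‖u‖ = 1) (v : ℂ) : ‖conj u * v‖ = ‖v‖ := by
  rw [norm_mul, RCLike.norm_conj, hu, one_mul]

/-- the diameter -/
lemma diam51 {c u : ℂ} (hu : ‖u‖ = 1) {r : ℝ} {z z' : ℂ} (hz : z ∈ Tri c u r)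
    (hz' : z' ∈ Tri c u r) : ‖z - z'‖ ^ 2 ≤ 12 * r ^ 2 := by
  obtain ⟨a0, a1, a2⟩ := mem_tri51.1 hz
  obtain ⟨b0, b1, b2⟩ := mem_tri51.1 hz'
  set p := conj u * (z - c) with hp
  set q := conj u * (z' - c) with hq
  have hpq : p - q = conj u * (z - z') := by rw [hp, hq]; ring
  have h1 := f_sq (p - q)
  rw [hpq, norm_conj51 hu, ← hpq, f_sub0, f_sub1, f_sub2] at h1
  have hs := f_sum p
  have ht := f_sum q
  have hr : 0 ≤ r := by linarith
  set A := f0 p - f0 q with hA
  set B := f1 p - f1 q with hB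
  set C := f2 p - f2 q with hC
  have hsum : A + B + C = 0 := by rw [hA, hB, hC]; linarith
  have hA1 : A ≤ 3 * r := by rw [hA]; linarith
  have hA2 : -(3 * r) ≤ A := by rw [hA]; linarith
  have hB1 : B ≤ 3 * r := by rw [hB]; linarith
  have hB2 : -(3 * r) ≤ B := by rw [hB]; linarith
  have hC1 : C ≤ 3 * r := by rw [hC]; linarith
  have hC2 : -(3 * r) ≤ C := by rw [hC]; linarith
  have hA3 : A ^ 2 ≤ 9 * r ^ 2 := by nlinarith
  have hB3 : B ^ 2 ≤ 9 * r ^ 2 := by nlinarith
  have hC3 : C ^ 2 ≤ 9 * r ^ 2 := by nlinarith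
  have key : A ^ 2 + B ^ 2 + C ^ 2 ≤ 18 * r ^ 2 := by
    have hCC : C = -A - B := by linarith
    rcases le_or_gt 0 (A * B) with h | h
    · have : C ^ 2 = A ^ 2 + B ^ 2 + 2 * (A * B) := by rw [hCC]; ring
      linarith
    · rcases le_or_gt 0 (A * C) with h' | h'
      · have : B ^ 2 = A ^ 2 + C ^ 2 + 2 * (A * C) := by rw [hCC]; ring
        linarith
      · have h3 : A * B + A * C = -A ^ 2 := by rw [hCC]; ring
        have h4 : 0 ≤ B * C := by
          by_contra hcon
          push Not at hcon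
          have h5 : (A * B) * (A * C) > 0 := mul_pos_of_neg_of_neg h h'
          have h6 : (A * B) * (A * C) = A ^ 2 * (B * C) := by ring
          rw [h6] at h5
          have : A ^ 2 * (B * C) ≤ 0 := mul_nonpos_of_nonneg_of_nonpos (sq_nonneg A) hcon.le
          linarith
        have : A ^ 2 = B ^ 2 + C ^ 2 + 2 * (B * C) := by
          have : A = -B - C := by linarith
          rw [this]; ring
        linarith
  linarith

/-- the corners -/
lemma cor_mem51 {c u : ℂ} (hu : ‖u‖ = 1) {r : ℝ} (hr : 0 ≤ r) (k : Fin 3) :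
    cor c u r k ∈ Tri c u r := by
  have h := s3_51
  have hcu : conj u * u = 1 := by
    rw [← Complex.normSq_eq_conj_mul_self, Complex.normSq_eq_norm_sq, hu]; simp
  have e : conj u * (cor c u r k - c) = -((2 * r : ℝ) : ℂ) * zt ^ (k : ℕ) := by
    unfold cor nrm
    calc conj u * (c - ((2 * r : ℝ) : ℂ) * (u * zt ^ (k : ℕ)) - c)
        = -((2 * r : ℝ) : ℂ) * zt ^ (k : ℕ) * (conj u * u) := by ring
      _ = _ := by rw [hcu, mul_one]
  rw [mem_tri51, e]
  have e0 : -((2 * r : ℝ) : ℂ) = ((-(2 * r) : ℝ) : ℂ) := by push_cast; ring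
  rw [e0]
  fin_cases k
  · simp only [pow_zero, mul_one]
    unfold f0 f1 f2
    simp only [Complex.ofReal_re, Complex.ofReal_im]
    refine ⟨?_, ?_, ?_⟩ <;> linarith
  · simp only [pow_one]
    unfold f0 f1 f2
    simp only [Complex.re_ofReal_mul, Complex.im_ofReal_mul, zt]
    refine ⟨by linarith, ?_, ?_⟩ <;> nlinarith
  · simp only
    rw [zt_sq51]
    unfold f0 f1 f2
    simp only [Complex.re_ofReal_mul, Complex.im_ofReal_mul]
    refine ⟨by linarith, ?_, ?_⟩ <;> nlinarith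

/-- three numbers with sum zero and square sum `3/2` have range at least `3/2` -/
lemma range51 {a b c : ℝ} (h0 : a + b + c = 0) (h1 : a ^ 2 + b ^ 2 + c ^ 2 = 3 / 2) :
    3 / 2 ≤ a - b ∨ 3 / 2 ≤ b - a ∨ 3 / 2 ≤ a - c ∨ 3 / 2 ≤ c - a ∨ 3 / 2 ≤ b - c ∨ 3 / 2 ≤ c - b := by
  by_contra hcon
  push Not at hcon
  obtain ⟨h2, h3, h4, h5, h6, h7⟩ := hcon
  have hc : c = -a - b := by linarith
  subst hc
  -- all differences have absolute value below 3/2
  set x := a - b with hx
  set y := a - (-a - b) with hy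
  set z := b - (-a - b) with hz
  have hxyz : y - z = x := by rw [hx, hy, hz]; ring
  have hsq : x ^ 2 + y ^ 2 + z ^ 2 = 9 / 2 := by rw [hx, hy, hz]; nlinarith
  have x1 : x < 3 / 2 := h2
  have x2 : -(3 / 2) < x := by linarith
  have y1 : y < 3 / 2 := h4
  have y2 : -(3 / 2) < y := by linarith
  have z1 : z < 3 / 2 := h6
  have z2 : -(3 / 2) < z := by linarith
  have hx3 : x ^ 2 < 9 / 4 := by nlinarith
  have hy3 : y ^ 2 < 9 / 4 := by nlinarith
  have hz3 : z ^ 2 < 9 / 4 := by nlinarith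
  -- one of the three is the sum of the other two with equal signs
  rcases le_or_gt 0 (y * z) with h | h
  · rcases le_or_gt 0 (x * z) with h' | h'
    · have : y ^ 2 = x ^ 2 + z ^ 2 + 2 * (x * z) := by rw [← hxyz]; ring
      linarith
    · have : z ^ 2 = x ^ 2 + y ^ 2 - 2 * (x * y) := by rw [← hxyz]; ring
      have h8 : x * y ≤ 0 := by
        by_contra hcon
        push Not at hcon
        have h9 : (x * z) * (x * y) < 0 := mul_neg_of_neg_of_pos h' hcon
        have h10 : (x * z) * (x * y) = x ^ 2 * (y * z) := by ring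
        rw [h10] at h9
        have := mul_nonneg (sq_nonneg x) h
        linarith
      linarith
  · have : x ^ 2 = y ^ 2 + z ^ 2 - 2 * (y * z) := by rw [← hxyz]; ring
    linarith

/-- the width -/
lemma width51 {c u : ℂ} (hu : ‖u‖ = 1) {r : ℝ} (hr : 0 ≤ r) : Wd (Tri c u r) (3 * r) := by
  intro v hv
  have key : ∀ j k : Fin 3, 3 / 2 ≤ (conj v * nrm u k).re - (conj v * nrm u j).re →
      ∃ p ∈ Tri c u r, ∃ q ∈ Tri c u r, 3 * r ≤ (conj v * (p - q)).re := by
    intro j k h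
    refine ⟨cor c u r j, cor_mem51 hu hr j, cor c u r k, cor_mem51 hu hr k, ?_⟩
    have e : conj v * (cor c u r j - cor c u r k) =
        ((2 * r : ℝ) : ℂ) * (conj v * nrm u k - conj v * nrm u j) := by
      unfold cor; ring
    rw [e, Complex.re_ofReal_mul, Complex.sub_re]
    nlinarith
  -- the three numbers
  set w : ℂ := conj u * v with hw
  have g : ∀ k : Fin 3, (conj v * nrm u k).re = (conj (nrm u k) * v).re := by
    intro k
    have : conj v * nrm u k = conj (conj (nrm u k) * v) := by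
      rw [map_mul, Complex.conj_conj, mul_comm]
    rw [this, Complex.conj_re]
  have g0 := (g 0).trans (frm0 u v)
  have g1 := (g 1).trans (frm1 u v)
  have g2 := (g 2).trans (frm2 u v)
  have hn : ‖w‖ = 1 := by rw [hw, norm_conj51 hu, hv]
  have hsq := f_sq w
  rw [hn] at hsq
  have h := range51 (f_sum w) (by rw [hsq]; norm_num)
  rcases h with h | h | h | h | h | h
  · exact key 1 0 (by rw [g0, g1]; exact h)
  · exact key 0 1 (by rw [g0, g1]; exact h)
  · exact key 2 0 (by rw [g0, g2]; exact h)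
  · exact key 0 2 (by rw [g0, g2]; exact h)
  · exact key 2 1 (by rw [g1, g2]; exact h)
  · exact key 1 2 (by rw [g1, g2]; exact h)

lemma convex51 (c u : ℂ) (r : ℝ) : Convex ℝ (Tri c u r) := by
  intro z hz z' hz' a b ha hb hab k
  have h1 := hz k
  have h2 := hz' k
  have e : conj (nrm u k) * (a • z + b • z' - c) =
      (a : ℂ) * (conj (nrm u k) * (z - c)) + (b : ℂ) * (conj (nrm u k) * (z' - c)) := by
    have hc : c = (a : ℂ) * c + (b : ℂ) * c := by
      rw [← add_mul, ← Complex.ofReal_add, hab, Complex.ofReal_one, one_mul]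
    rw [Complex.real_smul, Complex.real_smul]
    calc conj (nrm u k) * ((a : ℂ) * z + (b : ℂ) * z' - c)
        = conj (nrm u k) * ((a : ℂ) * z + (b : ℂ) * z' - ((a : ℂ) * c + (b : ℂ) * c)) := by
          rw [← hc]
      _ = _ := by ring
  rw [e, Complex.add_re, Complex.re_ofReal_mul, Complex.re_ofReal_mul]
  calc a * (conj (nrm u k) * (z - c)).re + b * (conj (nrm u k) * (z' - c)).re
      ≤ a * r + b * r := add_le_add (mul_le_mul_of_nonneg_left h1 ha)
        (mul_le_mul_of_nonneg_left h2 hb)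
    _ = r := by rw [← add_mul, hab, one_mul]

lemma norm_nrm51 {u : ℂ} (hu : ‖u‖ = 1) (k : Fin 3) : conj (nrm u k) * nrm u k = 1 := by
  have h1 : ‖zt‖ = 1 := by
    have h := s3_51
    have h2 : ‖zt‖ ^ 2 = 1 := by
      rw [← Complex.normSq_eq_norm_sq, Complex.normSq_apply]
      simp only [zt]
      nlinarith
    exact (pow_eq_one_iff_of_nonneg (norm_nonneg _) (by norm_num)).1 h2
  have h2 : ‖nrm u k‖ = 1 := by
    rw [nrm, norm_mul, norm_pow, h1, hu, one_pow, mul_one]
  rw [← Complex.normSq_eq_conj_mul_self, Complex.normSq_eq_norm_sq, h2]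
  simp

/-- points of the interior satisfy the strict inequalities -/
lemma interior51 {c u : ℂ} (hu : ‖u‖ = 1) {r : ℝ} {z : ℂ} (hz : z ∈ interior (Tri c u r))
    (k : Fin 3) : (conj (nrm u k) * (z - c)).re < r := by
  obtain ⟨ε, hε, hball⟩ := Metric.isOpen_iff.1 isOpen_interior z hz
  have hn := norm_nrm51 hu k
  have hnorm : ‖nrm u k‖ = 1 := by
    have h1 := congrArg norm hn
    rw [norm_mul, RCLike.norm_conj, norm_one] at h1
    nlinarith [norm_nonneg (nrm u k)]
  have h1 : z + ((ε / 2 : ℝ) : ℂ) * nrm u k ∈ ball z ε := by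
    rw [mem_ball, dist_eq_norm, add_sub_cancel_left, norm_mul, hnorm, mul_one, Complex.norm_real,
      Real.norm_of_nonneg (by linarith)]
    linarith
  have h2 := interior_subset (hball h1) k
  have e : conj (nrm u k) * (z + ((ε / 2 : ℝ) : ℂ) * nrm u k - c) =
      conj (nrm u k) * (z - c) + ((ε / 2 : ℝ) : ℂ) * (conj (nrm u k) * nrm u k) := by ring
  rw [e, hn, mul_one, Complex.add_re, Complex.ofReal_re] at h2
  linarith

/-! ### the triangular tiling -/

/-- the point with given values of the first two forms -/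
noncomputable def ctr (a b : ℝ) : ℂ := ⟨a, (2 * b + a) / Real.sqrt 3⟩

lemma f0_ctr (a b : ℝ) : f0 (ctr a b) = a := rfl

lemma f1_ctr (a b : ℝ) : f1 (ctr a b) = b := by
  have h := s3pos_51
  unfold f1 ctr
  simp only
  field_simp
  ring

lemma f2_ctr (a b : ℝ) : f2 (ctr a b) = -a - b := by
  have h := f_sum (ctr a b)
  rw [f0_ctr, f1_ctr] at h
  linarith

/-- the tiles -/
noncomputable def tile (t : ℝ) (p : ℤ × ℤ × Bool) : Set ℂ :=
  if p.2.2 then Tri (ctr (p.1 * t + t / 3) (p.2.1 * t + t / 3)) (-1) (t / 3)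
  else Tri (ctr (p.1 * t - t / 3) (p.2.1 * t - t / 3)) 1 (t / 3)

lemma tile_eq (t : ℝ) (p : ℤ × ℤ × Bool) : ∃ c u : ℂ, ‖u‖ = 1 ∧ tile t p = Tri c u (t / 3) := by
  unfold tile
  by_cases h : p.2.2 = true
  · rw [if_pos h]
    exact ⟨_, _, by rw [norm_neg, norm_one], rfl⟩
  · rw [if_neg h]
    exact ⟨_, _, norm_one, rfl⟩

lemma f_neg0 (z : ℂ) : f0 (-z) = -f0 z := by unfold f0; simp
lemma f_neg1 (z : ℂ) : f1 (-z) = -f1 z := by unfold f1; simp; ring
lemma f_neg2 (z : ℂ) : f2 (-z) = -f2 z := by unfold f2; simp; ring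

lemma mem_up (t : ℝ) (i j : ℤ) (z : ℂ) : z ∈ tile t (i, j, true) ↔
    i * t ≤ f0 z ∧ j * t ≤ f1 z ∧ f0 z + f1 z ≤ (1 + i + j) * t := by
  have hs := f_sum z
  have e : conj (-1 : ℂ) * (z - ctr (i * t + t / 3) (j * t + t / 3)) =
      -(z - ctr (i * t + t / 3) (j * t + t / 3)) := by simp
  unfold tile
  rw [if_pos rfl, mem_tri51]
  simp only
  rw [e, f_neg0, f_neg1, f_neg2, f_sub0, f_sub1, f_sub2, f0_ctr, f1_ctr, f2_ctr]
  constructor
  · rintro ⟨h0, h1, h2⟩
    refine ⟨by linarith, by linarith, by linarith⟩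
  · rintro ⟨h0, h1, h2⟩
    refine ⟨by linarith, by linarith, by linarith⟩

lemma mem_down (t : ℝ) (i j : ℤ) (z : ℂ) : z ∈ tile t (i, j, false) ↔
    f0 z ≤ i * t ∧ f1 z ≤ j * t ∧ (i + j - 1) * t ≤ f0 z + f1 z := by
  have hs := f_sum z
  have e : conj (1 : ℂ) * (z - ctr (i * t - t / 3) (j * t - t / 3)) =
      z - ctr (i * t - t / 3) (j * t - t / 3) := by simp
  unfold tile
  rw [if_neg (by simp), mem_tri51]
  simp only
  rw [e, f_sub0, f_sub1, f_sub2, f0_ctr, f1_ctr, f2_ctr]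
  constructor
  · rintro ⟨h0, h1, h2⟩
    refine ⟨by linarith, by linarith, by linarith⟩
  · rintro ⟨h0, h1, h2⟩
    refine ⟨by linarith, by linarith, by linarith⟩

/-- strict inequalities in the interior -/
lemma int_up {t : ℝ} {i j : ℤ} {z : ℂ} (hz : z ∈ interior (tile t (i, j, true))) :
    i * t < f0 z ∧ j * t < f1 z ∧ f0 z + f1 z < (1 + i + j) * t := by
  have hs := f_sum z
  have e : conj (-1 : ℂ) * (z - ctr (i * t + t / 3) (j * t + t / 3)) =
      -(z - ctr (i * t + t / 3) (j * t + t / 3)) := by simp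
  unfold tile at hz
  rw [if_pos rfl] at hz
  have hu : ‖(-1 : ℂ)‖ = 1 := by rw [norm_neg, norm_one]
  have h0 := interior51 hu hz 0
  have h1 := interior51 hu hz 1
  have h2 := interior51 hu hz 2
  simp only at h0 h1 h2
  rw [frm0, e, f_neg0, f_sub0, f0_ctr] at h0
  rw [frm1, e, f_neg1, f_sub1, f1_ctr] at h1
  rw [frm2, e, f_neg2, f_sub2, f2_ctr] at h2
  refine ⟨by linarith, by linarith, by linarith⟩

lemma int_down {t : ℝ} {i j : ℤ} {z : ℂ} (hz : z ∈ interior (tile t (i, j, false))) :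
    f0 z < i * t ∧ f1 z < j * t ∧ (i + j - 1) * t < f0 z + f1 z := by
  have hs := f_sum z
  have e : conj (1 : ℂ) * (z - ctr (i * t - t / 3) (j * t - t / 3)) =
      z - ctr (i * t - t / 3) (j * t - t / 3) := by simp
  unfold tile at hz
  rw [if_neg (by simp)] at hz
  have h0 := interior51 norm_one hz 0
  have h1 := interior51 norm_one hz 1
  have h2 := interior51 norm_one hz 2
  simp only at h0 h1 h2
  rw [frm0, e, f_sub0, f0_ctr] at h0
  rw [frm1, e, f_sub1, f1_ctr] at h1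
  rw [frm2, e, f_sub2, f2_ctr] at h2
  refine ⟨by linarith, by linarith, by linarith⟩

/-- the label of a point -/
noncomputable def lab (t : ℝ) (z : ℂ) : ℤ × ℤ × Bool :=
  if f0 z / t + f1 z / t < ⌊f0 z / t⌋ + ⌊f1 z / t⌋ + 1 then (⌊f0 z / t⌋, ⌊f1 z / t⌋, true)
  else (⌊f0 z / t⌋ + 1, ⌊f1 z / t⌋ + 1, false)

lemma lab_of_int {t : ℝ} (ht : 0 < t) {p : ℤ × ℤ × Bool} {z : ℂ} (hz : z ∈ interior (tile t p)) :
    p = lab t z := by
  obtain ⟨i, j, b⟩ := p
  set X := f0 z / t with hX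
  set Y := f1 z / t with hY
  have e0 : f0 z = X * t := by rw [hX]; field_simp
  have e1 : f1 z = Y * t := by rw [hY]; field_simp
  cases b with
  | true =>
    obtain ⟨h0, h1, h2⟩ := int_up hz
    rw [e0] at h0 h2
    rw [e1] at h1 h2
    have h0' : (i : ℝ) < X := lt_of_mul_lt_mul_right h0 ht.le
    have h1' : (j : ℝ) < Y := lt_of_mul_lt_mul_right h1 ht.le
    have h2' : X + Y < 1 + i + j := by
      rw [← add_mul] at h2
      exact lt_of_mul_lt_mul_right h2 ht.le
    have fX : ⌊X⌋ = i := Int.floor_eq_iff.2 ⟨h0'.le, by linarith⟩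
    have fY : ⌊Y⌋ = j := Int.floor_eq_iff.2 ⟨h1'.le, by linarith⟩
    unfold lab
    rw [← hX, ← hY, fX, fY, if_pos (by linarith)]
  | false =>
    obtain ⟨h0, h1, h2⟩ := int_down hz
    rw [e0] at h0 h2
    rw [e1] at h1 h2
    have h0' : X < i := lt_of_mul_lt_mul_right h0 ht.le
    have h1' : Y < j := lt_of_mul_lt_mul_right h1 ht.le
    have h2' : (i : ℝ) + j - 1 < X + Y := by
      rw [← add_mul] at h2
      exact lt_of_mul_lt_mul_right h2 ht.le
    have fX : ⌊X⌋ = i - 1 := Int.floor_eq_iff.2 ⟨by push_cast; linarith, by push_cast; linarith⟩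
    have fY : ⌊Y⌋ = j - 1 := Int.floor_eq_iff.2 ⟨by push_cast; linarith, by push_cast; linarith⟩
    unfold lab
    rw [← hX, ← hY, fX, fY, if_neg (by push_cast; linarith)]
    simp

lemma mem_lab {t : ℝ} (ht : 0 < t) (z : ℂ) : z ∈ tile t (lab t z) := by
  set X := f0 z / t with hX
  set Y := f1 z / t with hY
  have e0 : f0 z = X * t := by rw [hX]; field_simp
  have e1 : f1 z = Y * t := by rw [hY]; field_simp
  unfold lab
  rw [← hX, ← hY]
  have a0 := Int.floor_le X
  have a1 := Int.floor_le Y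
  have b0 := (Int.lt_floor_add_one X).le
  have b1 := (Int.lt_floor_add_one Y).le
  by_cases h : X + Y < ⌊X⌋ + ⌊Y⌋ + 1
  · rw [if_pos h, mem_up, e0, e1]
    refine ⟨mul_le_mul_of_nonneg_right a0 ht.le, mul_le_mul_of_nonneg_right a1 ht.le, ?_⟩
    rw [← add_mul]
    exact mul_le_mul_of_nonneg_right (by linarith) ht.le
  · push Not at h
    rw [if_neg (not_lt.2 h), mem_down, e0, e1]
    push_cast
    refine ⟨mul_le_mul_of_nonneg_right b0 ht.le, mul_le_mul_of_nonneg_right b1 ht.le, ?_⟩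
    rw [← add_mul]
    exact mul_le_mul_of_nonneg_right (by linarith) ht.le

/-- a corner in every tile -/
lemma ctr_mem {t : ℝ} (ht : 0 < t) (p : ℤ × ℤ × Bool) : ctr (p.1 * t) (p.2.1 * t) ∈ tile t p := by
  obtain ⟨i, j, b⟩ := p
  cases b with
  | true =>
    rw [mem_up, f0_ctr, f1_ctr]
    refine ⟨le_rfl, le_rfl, ?_⟩
    simp only
    nlinarith
  | false =>
    rw [mem_down, f0_ctr, f1_ctr]
    refine ⟨le_rfl, le_rfl, ?_⟩
    simp only
    nlinarith

lemma abs_f0_le (z : ℂ) : |f0 z| ≤ ‖z‖ := Complex.abs_re_le_norm z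

lemma abs_f1_le (z : ℂ) : |f1 z| ≤ ‖z‖ := by
  have h := f_sq z
  have hs := f_sum z
  have h0 : f1 z ^ 2 ≤ ‖z‖ ^ 2 := by
    have e : f2 z = -f0 z - f1 z := by linarith
    rw [e] at h
    nlinarith [sq_nonneg (2 * f0 z + f1 z)]
  exact abs_le_of_sq_le_sq h0 (norm_nonneg z)

/-- finitely many tiles lie in the disc -/
lemma finite_tiles {t : ℝ} (ht : 0 < t) :
    {p : ℤ × ℤ × Bool | tile t p ⊆ closedBall 0 1}.Finite := by
  obtain ⟨N, hN⟩ := exists_nat_gt (1 / t)
  have hN' : 1 < N * t := by rwa [div_lt_iff₀ ht] at hN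
  apply Set.Finite.subset
    ((Set.finite_Icc (-(N : ℤ)) N).prod ((Set.finite_Icc (-(N : ℤ)) N).prod
      (Set.finite_univ : (Set.univ : Set Bool).Finite)))
  intro p hp
  have h1 := hp (ctr_mem ht p)
  rw [mem_closedBall_zero_iff] at h1
  have h2 := (abs_f0_le _).trans h1
  have h3 := (abs_f1_le _).trans h1
  rw [f0_ctr] at h2
  rw [f1_ctr] at h3
  have key : ∀ i : ℤ, |(i : ℝ) * t| ≤ 1 → i ∈ Set.Icc (-(N : ℤ)) N := by
    intro i hi
    rw [abs_le] at hi
    constructor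
    · by_contra hcon
      push Not at hcon
      have h4 : (i : ℝ) < -(N : ℝ) := by exact_mod_cast hcon
      nlinarith
    · by_contra hcon
      push Not at hcon
      have h4 : (N : ℝ) < i := by exact_mod_cast hcon
      nlinarith
  exact ⟨key _ h2, key _ h3, Set.mem_univ _⟩

/-- a packing in the complex plane gives a packing in `EuclideanSpace ℝ (Fin 2)` -/
theorem pack_of51 {t : ℝ} {m : ℕ} (K : Fin m → Set ℂ) (hK : ∀ i, Convex ℝ (K i))
    (hb : ∀ i, K i ⊆ closedBall 0 1)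
    (hd : ∀ i j, i ≠ j → Disjoint (interior (K i)) (interior (K j))) (hW : ∀ i, Wd (K i) t) :
    PCW.Pack 2 t m := by
  let e : ℂ ≃ₗᵢ[ℝ] PCW.E 2 := Complex.orthonormalBasisOneI.repr
  have hpre : ∀ S : Set ℂ, interior (e.symm ⁻¹' S) = e.symm ⁻¹' interior S := fun S =>
    (e.symm.toHomeomorph.preimage_interior S).symm
  refine ⟨fun i => e.symm ⁻¹' K i, ?_, ?_, ?_, ?_⟩
  · intro i
    exact (hK i).linear_preimage e.symm.toLinearEquiv.toLinearMap
  · intro i x hx
    have h1 : e.symm x ∈ closedBall (0 : ℂ) 1 := hb i hx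
    rw [mem_closedBall_zero_iff, e.symm.norm_map] at h1
    rwa [mem_closedBall_zero_iff]
  · intro i j hij
    rw [hpre, hpre]
    exact (hd i j hij).preimage e.symm
  · intro i u hu
    obtain ⟨p, hp, q, hq, hpq⟩ := hW i (e.symm u) (by rw [e.symm.norm_map, hu])
    have hbd : ∀ x ∈ e.symm ⁻¹' K i, |⟪x, u⟫| ≤ 1 := by
      intro x hx
      have h1 : e.symm x ∈ closedBall (0 : ℂ) 1 := hb i hx
      rw [mem_closedBall_zero_iff, e.symm.norm_map] at h1
      have h2 := abs_real_inner_le_norm x u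
      rw [hu, mul_one] at h2
      exact h2.trans h1
    have hA : BddAbove ((fun x : PCW.E 2 => ⟪x, u⟫) '' (e.symm ⁻¹' K i)) := by
      refine ⟨1, ?_⟩
      rintro _ ⟨x, hx, rfl⟩
      exact (abs_le.1 (hbd x hx)).2
    have hB : BddBelow ((fun x : PCW.E 2 => ⟪x, u⟫) '' (e.symm ⁻¹' K i)) := by
      refine ⟨-1, ?_⟩
      rintro _ ⟨x, hx, rfl⟩
      exact (abs_le.1 (hbd x hx)).1
    have hep : e p ∈ e.symm ⁻¹' K i := by
      show e.symm (e p) ∈ K i
      rwa [e.symm_apply_apply]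
    have heq : e q ∈ e.symm ⁻¹' K i := by
      show e.symm (e q) ∈ K i
      rwa [e.symm_apply_apply]
    have h1 := le_csSup hA ⟨e p, hep, rfl⟩
    have h2 := csInf_le hB ⟨e q, heq, rfl⟩
    unfold PCW.wd
    have h4 : (conj (e.symm u) * (p - q)).re = ⟪e p, u⟫ - ⟪e q, u⟫ := by
      have h5 : ⟪p, e.symm u⟫ = ⟪e p, u⟫ := by
        rw [← e.inner_map_map, e.apply_symm_apply]
      have h6 : ⟪q, e.symm u⟫ = ⟪e q, u⟫ := by
        rw [← e.inner_map_map, e.apply_symm_apply]
      rw [← h5, ← h6, ← inner_sub_left, real_inner_comm, Complex.inner, mul_comm]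
    rw [h4] at hpq
    simp only at h1 h2
    linarith

/-- the lower bound -/
theorem lower {t : ℝ} (h0 : 0 < t) (h1 : t ≤ 1 / 2) :
    ∃ m : ℕ, PCW.Pack 2 t m ∧ Real.sqrt 3 * Real.pi / t ^ 2 - 4 * Real.pi / t ≤ m := by
  classical
  have h3 := s3_51
  have h3p := s3pos_51
  have h32 : Real.sqrt 3 < 2 := by nlinarith
  set S : Finset (ℤ × ℤ × Bool) := (finite_tiles h0).toFinset with hS
  have hmS : ∀ p, p ∈ S ↔ tile t p ⊆ closedBall 0 1 := fun p => by
    rw [hS, Set.Finite.mem_toFinset]; rfl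
  let E := S.equivFin.symm
  refine ⟨S.card, pack_of51 (fun i => tile t (E i)) ?_ ?_ ?_ ?_, ?_⟩
  · intro i
    obtain ⟨c, u, -, h⟩ := tile_eq t (E i)
    rw [h]
    exact convex51 _ _ _
  · intro i
    exact (hmS _).1 (E i).2
  · intro i j hij
    rw [Set.disjoint_left]
    intro z hz hz'
    have h2 := (lab_of_int h0 hz).trans (lab_of_int h0 hz').symm
    exact hij (E.injective (Subtype.ext h2))
  · intro i
    obtain ⟨c, u, hu, h⟩ := tile_eq t (E i)
    rw [h]
    have := width51 (c := c) hu (by linarith : 0 ≤ t / 3)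
    rwa [mul_div_cancel₀ _ (by norm_num : (3 : ℝ) ≠ 0)] at this
  · -- the area
    set s : ℝ := 2 * Real.sqrt 3 * t / 3 with hs
    have hs0 : 0 < s := by rw [hs]; positivity
    have hs1 : s < 1 := by rw [hs]; nlinarith
    have hcov : closedBall (0 : ℂ) (1 - s) ⊆ ⋃ p ∈ S, tile t p := by
      intro z hz
      rw [mem_closedBall_zero_iff] at hz
      refine mem_iUnion₂.2 ⟨lab t z, (hmS _).2 ?_, mem_lab h0 z⟩
      intro w hw
      obtain ⟨c, u, hu, h⟩ := tile_eq t (lab t z)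
      have hz2 := mem_lab h0 z
      rw [h] at hw hz2
      have hd := diam51 hu hw hz2
      have hd2 : ‖w - z‖ ≤ s := by
        apply le_of_sq_le_sq _ hs0.le
        refine hd.trans (le_of_eq ?_)
        rw [hs]
        linear_combination (-4 * t ^ 2 / 9) * h3
      rw [mem_closedBall_zero_iff]
      calc ‖w‖ = ‖(w - z) + z‖ := by rw [sub_add_cancel]
        _ ≤ ‖w - z‖ + ‖z‖ := norm_add_le _ _
        _ ≤ s + (1 - s) := add_le_add hd2 hz
        _ = 1 := by ring
    have hvol : volume (closedBall (0 : ℂ) (1 - s)) ≤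
        ∑ _p ∈ S, ENNReal.ofReal (3 * Real.sqrt 3 * (t / 3) ^ 2) := by
      refine (measure_mono hcov).trans ((measure_biUnion_finset_le _ _).trans ?_)
      apply Finset.sum_le_sum
      intro p _
      obtain ⟨c, u, hu, h⟩ := tile_eq t p
      rw [h, vol_tri hu (by linarith)]
    rw [Finset.sum_const, nsmul_eq_mul, Complex.volume_closedBall] at hvol
    have hreal : Real.pi * (1 - s) ^ 2 ≤ S.card * (3 * Real.sqrt 3 * (t / 3) ^ 2) := by
      have h5 := ENNReal.toReal_mono (by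
        exact ENNReal.mul_ne_top (ENNReal.natCast_ne_top _) ENNReal.ofReal_ne_top) hvol
      rw [ENNReal.toReal_mul, ENNReal.toReal_mul, ENNReal.toReal_pow,
        ENNReal.toReal_ofReal (by linarith), ENNReal.toReal_ofReal (by positivity),
        ENNReal.toReal_natCast] at h5
      have h6 : ((NNReal.pi : ENNReal)).toReal = Real.pi := by
        rw [ENNReal.coe_toReal]; rfl
      rw [h6] at h5
      linarith
    have ht2 : 0 < t ^ 2 := by positivity
    have h7 : Real.sqrt 3 * Real.pi / t ^ 2 - 4 * Real.pi / t =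
        (Real.sqrt 3 * Real.pi * (1 - 2 * s)) / t ^ 2 := by
      rw [hs]
      field_simp
      linear_combination (4 * t) * h3
    rw [h7, div_le_iff₀ ht2]
    have h8 : Real.sqrt 3 * Real.pi * (1 - 2 * s) ≤ Real.sqrt 3 * (Real.pi * (1 - s) ^ 2) := by
      have : Real.pi * (1 - 2 * s) ≤ Real.pi * (1 - s) ^ 2 :=
        mul_le_mul_of_nonneg_left (by nlinarith) Real.pi_pos.le
      nlinarith
    refine h8.trans ?_
    have h9 := mul_le_mul_of_nonneg_left hreal h3p.le
    refine h9.trans (le_of_eq ?_)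
    linear_combination ((S.card : ℝ) * t ^ 2 / 3) * h3

end PST
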