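import Pool.Agent.PST.Fin3
import Pool.Agent.PST.Low

/-! # MP_332d77_co: both bounds for all `t` -/

set_option autoImplicit false

open MeasureTheory Set Metric
open scoped ComplexConjugate

namespace PST

/-- a quantitative form of `P(2,t) < √3 π / t²` for a fixed number of sets -/
theorem strict {t : ℝ} (ht : 0 < t) {m : ℕ} (hm : 0 < m) (hP : PCW.Pack 2 t m) :
    Real.pi / (1600 * (m : ℝ) ^ 4) ≤ 4601 * (Real.pi - m * (t ^ 2 / Real.sqrt 3)) := by
  classical
  obtain ⟨K, hKc, hKv, hKb, hKd, hKw⟩ := red ht hP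
  set A0 := t ^ 2 / Real.sqrt 3 with hA0
  have hS := fun i => S1 (hKc i) (hKv i) ht (hKw i)
  choose c u ρ hu hρ hsub hlin using fun i => (hS i).2
  have hm1 : (1 : ℝ) ≤ m := by exact_mod_cast hm
  have hpi := Real.pi_pos
  -- the sum of the areas
  have hsumK : ∑ i, ar (K i) ≤ Real.pi := by
    have h1 := sum_vol hKv hKd
    have h2 : volume (⋃ i, K i) ≤ volume (closedBall (0 : ℂ) 1) := measure_mono (iUnion_subset hKb)
    have h3 : (volume (closedBall (0 : ℂ) 1)).toReal = Real.pi := by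
      rw [Complex.volume_closedBall]; simp
    rw [← h3]
    unfold ar
    rw [← ENNReal.toReal_sum (fun i _ => (hKc i).measure_lt_top.ne)]
    exact ENNReal.toReal_mono measure_closedBall_lt_top.ne (h1.trans h2)
  obtain ⟨p, hp1, hp2⟩ := cap_free hm (fun a => cor (c a.1) (u a.1) (ρ a.1) a.2) (fun a => by
    have := hKb a.1 (hsub a.1 (cor_mem (hu a.1) (hρ a.1) a.2))
    rwa [mem_closedBall_zero_iff] at this)
  set δ : ℝ := 1 / (20 * (m : ℝ) ^ 2) with hδ
  have hδ0 : 0 < δ := by positivity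
  have hδ1 : δ ≤ 1 := by
    rw [hδ, div_le_one (by positivity)]; nlinarith
  have hT : ∀ i, Tri (c i) (u i) (ρ i) ⊆ {z | (conj p * z).re < 1 - δ} := by
    intro i z hz
    exact tri_corner (hu i) (hρ i) hz (fun k => hp2 (i, k))
  set q : ℂ := (1 - δ / 2 : ℝ) * p with hq
  have hball : ∀ z ∈ ball q (δ / 2), 1 - δ < (conj p * z).re ∧ ‖z‖ ≤ 1 := by
    intro z hz
    rw [mem_ball, dist_eq_norm] at hz
    have h1 : (conj p * z).re = (1 - δ / 2) + (conj p * (z - q)).re := by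
      have : conj p * z = (1 - δ / 2 : ℝ) * (conj p * p) + conj p * (z - q) := by rw [hq]; ring
      rw [this, conj_mul_self hp1, mul_one, Complex.add_re, Complex.ofReal_re]
    have h2 : |(conj p * (z - q)).re| ≤ ‖z - q‖ := by
      rw [← norm_conj_mul hp1]; exact Complex.abs_re_le_norm _
    have h3 : ‖q‖ ≤ 1 - δ / 2 := by
      rw [hq, norm_mul, hp1, mul_one, Complex.norm_real, Real.norm_eq_abs, abs_of_nonneg (by linarith)]
    rw [abs_le] at h2
    refine ⟨by linarith [h2.1], ?_⟩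
    calc ‖z‖ = ‖q + (z - q)‖ := by ring_nf
      _ ≤ ‖q‖ + ‖z - q‖ := norm_add_le _ _
      _ ≤ 1 := by linarith
  have hunion : (⋃ i, Tri (c i) (u i) (ρ i)) ⊆ closedBall 0 1 \ ball q (δ / 2) := by
    intro z hz
    rw [mem_iUnion] at hz
    obtain ⟨i, hi⟩ := hz
    refine ⟨hKb i (hsub i hi), fun hz' => ?_⟩
    have h1 := hT i hi
    have h2 := (hball z hz').1
    have h3 : (conj p * z).re < 1 - δ := h1
    linarith
  have hsv := sum_vol (A := fun i => Tri (c i) (u i) (ρ i)) (fun i => convex_tri' _ _ _) (fun i j hij =>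
    (hKd i j hij).mono (interior_mono (hsub i)) (interior_mono (hsub j)))
  have hvol : ∀ i, volume (Tri (c i) (u i) (ρ i)) = ENNReal.ofReal (3 * Real.sqrt 3 * ρ i ^ 2) := fun i => vol_tri (hu i) (hρ i)
  have hball1 : ball q (δ / 2) ⊆ closedBall 0 1 := by
    intro z hz
    rw [mem_closedBall_zero_iff]
    exact (hball z hz).2
  have h1 : ∑ i, 3 * Real.sqrt 3 * ρ i ^ 2 ≤ Real.pi - Real.pi * (δ / 2) ^ 2 := by
    have h2 : (∑ i, volume (Tri (c i) (u i) (ρ i))).toReal = ∑ i, 3 * Real.sqrt 3 * ρ i ^ 2 := by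
      rw [ENNReal.toReal_sum (fun i _ => by rw [hvol]; exact ENNReal.ofReal_ne_top)]
      apply Finset.sum_congr rfl
      intro i _
      rw [hvol, ENNReal.toReal_ofReal (by positivity)]
    have h3 : (volume (closedBall (0 : ℂ) 1 \ ball q (δ / 2))).toReal = Real.pi - Real.pi * (δ / 2) ^ 2 := by
      rw [measure_diff hball1 measurableSet_ball.nullMeasurableSet measure_ball_lt_top.ne,
        ENNReal.toReal_sub_of_le (measure_mono hball1) measure_closedBall_lt_top.ne]
      have e1 := ar_ball q (by positivity : 0 ≤ δ / 2)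
      unfold ar at e1
      rw [e1, Complex.volume_closedBall]; simp
    rw [← h2, ← h3]
    exact ENNReal.toReal_mono ((measure_mono diff_subset).trans_lt measure_closedBall_lt_top).ne
      (hsv.trans (measure_mono hunion))
  have h4 : (m : ℝ) * A0 - 4600 * (∑ i, ar (K i) - m * A0) ≤ ∑ i, 3 * Real.sqrt 3 * ρ i ^ 2 := by
    have e2 : (m : ℝ) * A0 = ∑ _i : Fin m, A0 := by simp
    rw [e2, ← Finset.sum_sub_distrib, Finset.mul_sum, ← Finset.sum_sub_distrib]
    exact Finset.sum_le_sum fun i _ => hlin i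
  have h5 : Real.pi / (1600 * (m : ℝ) ^ 4) = Real.pi * (δ / 2) ^ 2 := by
    rw [hδ]; field_simp; norm_num
  rw [h5]
  linarith

/-- the upper bound for all `t` -/
theorem upper_all : ∃ c > (0 : ℝ), ∀ t, 0 < t → t ≤ 2 → ∀ m : ℕ, PCW.Pack 2 t m →
    (m : ℝ) ≤ Real.sqrt 3 * Real.pi / t ^ 2 - c / t := by
  obtain ⟨c1, hc1, t0, ht0, h⟩ := upper_bound
  have hs0 : 0 < Real.sqrt 3 := Real.sqrt_pos.2 (by norm_num)
  have hs1 : 1 ≤ Real.sqrt 3 := Real.one_le_sqrt.2 (by norm_num)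
  have hpi := Real.pi_gt_three
  set M0 := Real.sqrt 3 * Real.pi / t0 ^ 2 with hM0
  have hM0p : 0 < M0 := by positivity
  set c2 := Real.pi / (1600 * M0 ^ 4) / 4601 with hc2
  have hc2p : 0 < c2 := by positivity
  refine ⟨min c1 (min 1 (Real.sqrt 3 * c2 / 2)), by positivity, ?_⟩
  intro t ht ht2 m hP
  set c := min c1 (min 1 (Real.sqrt 3 * c2 / 2)) with hc
  have hca : c ≤ c1 := min_le_left _ _
  have hcb : c ≤ 1 := (min_le_right _ _).trans (min_le_left _ _)
  have hcc : c ≤ Real.sqrt 3 * c2 / 2 := (min_le_right _ _).trans (min_le_right _ _)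
  rcases le_total t t0 with htt | htt
  · have h1 := h t ht htt m hP
    have h2 : c / t ≤ c1 / t := by gcongr
    linarith
  · rcases Nat.eq_zero_or_pos m with h0 | hm
    · rw [h0]
      have h1 : c / t ≤ Real.sqrt 3 * Real.pi / t ^ 2 := by
        rw [div_le_div_iff₀ ht (by positivity)]
        have : c * t ≤ Real.sqrt 3 * Real.pi := by nlinarith
        nlinarith
      simpa using h1
    · have hs := strict ht hm hP
      have hm1 : (1 : ℝ) ≤ m := by exact_mod_cast hm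
      have hA0 : 0 < t ^ 2 / Real.sqrt 3 := by positivity
      have hmA : (m : ℝ) * (t ^ 2 / Real.sqrt 3) ≤ Real.pi := by
        have : 0 ≤ Real.pi / (1600 * (m : ℝ) ^ 4) := by positivity
        linarith
      have hmM : (m : ℝ) ≤ M0 := by
        rw [hM0, le_div_iff₀ (by positivity)]
        have h1 : (m : ℝ) * t ^ 2 ≤ Real.sqrt 3 * Real.pi := by
          have := mul_le_mul_of_nonneg_left hmA hs0.le
          calc (m : ℝ) * t ^ 2 = Real.sqrt 3 * (m * (t ^ 2 / Real.sqrt 3)) := by field_simp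
            _ ≤ _ := this
        have h2 : t0 ^ 2 ≤ t ^ 2 := by nlinarith
        nlinarith
      have h3 : c2 ≤ Real.pi - m * (t ^ 2 / Real.sqrt 3) := by
        have h4 : Real.pi / (1600 * M0 ^ 4) ≤ Real.pi / (1600 * (m : ℝ) ^ 4) := by gcongr
        rw [hc2, div_le_iff₀ (by norm_num)]
        linarith
      have h12 : (m : ℝ) = (m * (t ^ 2 / Real.sqrt 3)) * (Real.sqrt 3 / t ^ 2) := by field_simp
      have h5 : (m : ℝ) ≤ (Real.pi - c2) * (Real.sqrt 3 / t ^ 2) := by
        rw [h12]; gcongr; linarith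
      have h6 : (Real.pi - c2) * (Real.sqrt 3 / t ^ 2) = Real.sqrt 3 * Real.pi / t ^ 2 - Real.sqrt 3 * c2 / t ^ 2 := by ring
      have h7 : c / t ≤ Real.sqrt 3 * c2 / t ^ 2 := by
        rw [div_le_div_iff₀ ht (by positivity)]
        have hc0 : 0 ≤ c := by rw [hc]; positivity
        have : c * t ≤ Real.sqrt 3 * c2 := by
          have := mul_le_mul_of_nonneg_left ht2 hc0
          linarith
        nlinarith
      linarith

/-- the second term of `P(2,t)` -/
theorem second_term : ∃ c > (0 : ℝ), ∀ t : ℝ, 0 < t → t ≤ 2 → ∃ P : ℕ, IsGreatest {m : ℕ | PCW.Pack 2 t m} P ∧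
    Real.sqrt 3 * Real.pi / t ^ 2 - 4 * Real.pi / t ≤ P ∧ (P : ℝ) ≤ Real.sqrt 3 * Real.pi / t ^ 2 - c / t := by
  obtain ⟨c, hc, h⟩ := upper_all
  refine ⟨c, hc, ?_⟩
  intro t ht ht2
  have hpi := Real.pi_pos
  have hs0 : 0 < Real.sqrt 3 := Real.sqrt_pos.2 (by norm_num)
  have hne : {m : ℕ | PCW.Pack 2 t m}.Nonempty :=
    ⟨0, fun i => i.elim0, fun i => i.elim0, fun i => i.elim0, fun i => i.elim0, fun i => i.elim0⟩
  have hbdd : BddAbove {m : ℕ | PCW.Pack 2 t m} := by
    refine ⟨⌊Real.sqrt 3 * Real.pi / t ^ 2 - c / t⌋₊, ?_⟩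
    intro m hm
    exact Nat.le_floor (h t ht ht2 m hm)
  have hmem := Nat.sSup_mem hne hbdd
  refine ⟨sSup {m : ℕ | PCW.Pack 2 t m}, ⟨hmem, fun m hm => le_csSup hbdd hm⟩, ?_, h t ht ht2 _ hmem⟩
  rcases le_total t (1 / 2) with h1 | h1
  · obtain ⟨m, hm, hml⟩ := lower ht h1
    have : (m : ℝ) ≤ (sSup {m : ℕ | PCW.Pack 2 t m} : ℕ) := by exact_mod_cast le_csSup hbdd hm
    linarith
  · have hsq : Real.sqrt 3 ≤ 2 := by
      rw [Real.sqrt_le_left (by norm_num)]; norm_num
    have h2 : Real.sqrt 3 * Real.pi / t ^ 2 ≤ 4 * Real.pi / t := by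
      rw [div_le_div_iff₀ (by positivity) ht]
      nlinarith [mul_pos hpi ht]
    have h3 : (0 : ℝ) ≤ (sSup {m : ℕ | PCW.Pack 2 t m} : ℕ) := Nat.cast_nonneg _
    linarith

end PST
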