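import Pool.Agent.PST.Defs

/-!
Local geometry of equilateral triangles: in-discs, half discs at boundary points, and the linear bound
for the angle between two disjoint triangles in terms of their distance.
-/

set_option autoImplicit false

open MeasureTheory Set Metric
open scoped ComplexConjugate

namespace PST

lemma sqrt3_sq : Real.sqrt 3 ^ 2 = 3 := Real.sq_sqrt (by norm_num)

lemma sqrt3_pos : 0 < Real.sqrt 3 := Real.sqrt_pos.2 (by norm_num)

lemma zt_sq : zt ^ 2 = ⟨-1 / 2, -(Real.sqrt 3 / 2)⟩ := by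
  have h := sqrt3_sq
  rw [pow_two]
  apply Complex.ext
  · simp only [zt, Complex.mul_re]
    linear_combination (-1 / 4) * h
  · simp only [zt, Complex.mul_im]
    ring

lemma zt_cube : zt ^ 3 = 1 := by
  have h := sqrt3_sq
  rw [pow_succ, zt_sq]
  apply Complex.ext
  · simp only [zt, Complex.mul_re, Complex.one_re]
    linear_combination (1 / 4) * h
  · simp only [zt, Complex.mul_im, Complex.one_im]
    ring

lemma zt_six : zt ^ 6 = 1 := by
  have : zt ^ 6 = (zt ^ 3) ^ 2 := by ring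
  rw [this, zt_cube, one_pow]

lemma norm_zt : ‖zt‖ = 1 := by
  have h : ‖zt‖ ^ 3 = 1 := by rw [← norm_pow, zt_cube, norm_one]
  exact (pow_eq_one_iff_of_nonneg (norm_nonneg _) (by norm_num)).1 h

lemma norm_nrm {u : ℂ} (hu : ‖u‖ = 1) (k : Fin 3) : ‖nrm u k‖ = 1 := by
  rw [nrm, norm_mul, norm_pow, norm_zt, hu, one_pow, mul_one]

lemma nrm_six (u : ℂ) (k : Fin 3) : nrm u k ^ 6 = u ^ 6 := by
  rw [nrm, mul_pow, ← pow_mul, mul_comm (k : ℕ) 6, pow_mul, zt_six, one_pow, mul_one]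

lemma form_zero (u v : ℂ) : (conj (nrm u 0) * v).re = (conj u * v).re := by
  simp [nrm]

lemma form_one (u v : ℂ) : (conj (nrm u 1) * v).re =
    -(conj u * v).re / 2 + Real.sqrt 3 / 2 * (conj u * v).im := by
  have e : nrm u 1 = u * ⟨-1 / 2, Real.sqrt 3 / 2⟩ := by simp [nrm, zt]
  rw [e]
  simp only [map_mul, Complex.mul_re, Complex.mul_im, Complex.conj_re, Complex.conj_im]
  ring

lemma form_two (u v : ℂ) : (conj (nrm u 2) * v).re =
    -(conj u * v).re / 2 - Real.sqrt 3 / 2 * (conj u * v).im := by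
  have e : nrm u 2 = u * ⟨-1 / 2, -(Real.sqrt 3 / 2)⟩ := by
    rw [← zt_sq]; simp [nrm]
  rw [e]
  simp only [map_mul, Complex.mul_re, Complex.mul_im, Complex.conj_re, Complex.conj_im]
  ring

lemma form_sq {u : ℂ} (hu : ‖u‖ = 1) (v : ℂ) :
    (conj u * v).re ^ 2 + (conj u * v).im ^ 2 = ‖v‖ ^ 2 := by
  have h1 : ‖conj u * v‖ = ‖v‖ := by rw [norm_mul, RCLike.norm_conj, hu, one_mul]
  have h2 := Complex.sq_norm (conj u * v)
  rw [h1, Complex.normSq_apply] at h2
  rw [h2]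
  ring

/-- the linear form `z ↦ Re (conj n (z - c))` -/
noncomputable def frm (c u : ℂ) (k : Fin 3) (z : ℂ) : ℝ := (conj (nrm u k) * (z - c)).re

lemma mem_Tri {c u : ℂ} {r : ℝ} {z : ℂ} : z ∈ Tri c u r ↔ ∀ k, frm c u k z ≤ r := Iff.rfl

lemma frm_sum (c u z : ℂ) : frm c u 0 z + frm c u 1 z + frm c u 2 z = 0 := by
  unfold frm
  rw [form_zero, form_one, form_two]
  ring

lemma frm_sq {u : ℂ} (hu : ‖u‖ = 1) (c z : ℂ) :
    frm c u 0 z ^ 2 + frm c u 1 z ^ 2 + frm c u 2 z ^ 2 = 3 / 2 * ‖z - c‖ ^ 2 := by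
  have h := sqrt3_sq
  have h2 := form_sq hu (z - c)
  unfold frm
  rw [form_zero, form_one, form_two]
  linear_combination (1 / 2 * (conj u * (z - c)).im ^ 2) * h + (3 / 2) * h2

lemma frm_le {u : ℂ} (hu : ‖u‖ = 1) (c z : ℂ) (k : Fin 3) : frm c u k z ≤ ‖z - c‖ := by
  unfold frm
  refine (Complex.re_le_norm _).trans ?_
  rw [norm_mul, RCLike.norm_conj, norm_nrm hu, one_mul]

lemma frm_sub (c u z z' : ℂ) (k : Fin 3) :
    frm c u k z - frm c u k z' = (conj (nrm u k) * (z - z')).re := by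
  unfold frm
  rw [← Complex.sub_re, ← mul_sub]
  congr 2
  ring

lemma abs_frm_sub {u : ℂ} (hu : ‖u‖ = 1) (c z z' : ℂ) (k : Fin 3) :
    |frm c u k z - frm c u k z'| ≤ ‖z - z'‖ := by
  rw [frm_sub]
  refine (Complex.abs_re_le_norm _).trans ?_
  rw [norm_mul, RCLike.norm_conj, norm_nrm hu, one_mul]

lemma continuous_frm (c u : ℂ) (k : Fin 3) : Continuous (frm c u k) := by
  unfold frm
  fun_prop

lemma isClosed_Tri (c u : ℂ) (r : ℝ) : IsClosed (Tri c u r) := by
  have : Tri c u r = ⋂ k, {z | frm c u k z ≤ r} := by ext z; simp [mem_Tri]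
  rw [this]
  exact isClosed_iInter fun k => isClosed_le (continuous_frm c u k) continuous_const

lemma convex_Tri (c u : ℂ) (r : ℝ) : Convex ℝ (Tri c u r) := by
  intro x hx y hy a b ha hb hab k
  have h1 := hx k
  have h2 := hy k
  have e : (conj (nrm u k) * (a • x + b • y - c)).re =
      a * (conj (nrm u k) * (x - c)).re + b * (conj (nrm u k) * (y - c)).re := by
    have e1 : a • x + b • y - c = (a : ℂ) * (x - c) + (b : ℂ) * (y - c) := by
      have : (b : ℂ) = 1 - a := by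
        rw [← Complex.ofReal_one, ← Complex.ofReal_sub]
        congr 1
        linarith
      rw [Complex.real_smul, Complex.real_smul, this]
      ring
    rw [e1, mul_add, Complex.add_re]
    have e2 : conj (nrm u k) * ((a : ℂ) * (x - c)) = (a : ℂ) * (conj (nrm u k) * (x - c)) := by
      ring
    have e3 : conj (nrm u k) * ((b : ℂ) * (y - c)) = (b : ℂ) * (conj (nrm u k) * (y - c)) := by
      ring
    rw [e2, e3, Complex.re_ofReal_mul, Complex.re_ofReal_mul]
  rw [e]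
  calc a * (conj (nrm u k) * (x - c)).re + b * (conj (nrm u k) * (y - c)).re
      ≤ a * r + b * r := by gcongr
    _ = r := by rw [← add_mul, hab, one_mul]

lemma strict_mem_interior {c u : ℂ} {r : ℝ} {z : ℂ} (h : ∀ k, frm c u k z < r) :
    z ∈ interior (Tri c u r) := by
  have ho : IsOpen {z : ℂ | ∀ k, frm c u k z < r} := by
    have : {z : ℂ | ∀ k, frm c u k z < r} = ⋂ k, {z | frm c u k z < r} := by ext z; simp
    rw [this]
    exact isOpen_iInter_of_finite fun k => isOpen_lt (continuous_frm c u k) continuous_const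
  exact mem_interior.2 ⟨_, fun z hz k => (hz k).le, ho, h⟩

lemma Tg.centre_mem (T : Tg) : T.c ∈ interior T.s := by
  apply strict_mem_interior
  intro k
  have := T.hr
  unfold frm
  simp
  linarith

lemma Tg.ball_subset (T : Tg) : closedBall T.c T.r ⊆ T.s := by
  intro z hz k
  refine (frm_le T.hu T.c z k).trans ?_
  rwa [mem_closedBall, dist_eq_norm] at hz

lemma Tg.norm_le (T : Tg) {z : ℂ} (hz : z ∈ T.s) : ‖z - T.c‖ ≤ 2 * T.r := by
  have h1 := frm_sum T.c T.u z
  have h2 := frm_sq T.hu T.c z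
  have h0' := hz 0
  have h1' := hz 1
  have h2' := hz 2
  change frm T.c T.u 0 z ≤ T.r at h0'
  change frm T.c T.u 1 z ≤ T.r at h1'
  change frm T.c T.u 2 z ≤ T.r at h2'
  set a := frm T.c T.u 0 z
  set b := frm T.c T.u 1 z
  set e := frm T.c T.u 2 z
  have hr := T.hr
  have h3 : a ^ 2 + b ^ 2 + e ^ 2 ≤ 6 * T.r ^ 2 := by
    have e1 : e = -a - b := by linarith
    have p1 : 0 ≤ (T.r - a) * (T.r - b) := mul_nonneg (by linarith) (by linarith)
    have p2 : 0 ≤ (T.r - a) * (T.r - e) := mul_nonneg (by linarith) (by linarith)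
    have p3 : 0 ≤ (T.r - b) * (T.r - e) := mul_nonneg (by linarith) (by linarith)
    rw [e1] at p2 p3 ⊢
    nlinarith
  have h4 : ‖z - T.c‖ ^ 2 ≤ (2 * T.r) ^ 2 := by nlinarith
  exact abs_le_of_sq_le_sq' h4 (by linarith) |>.2

/-- L1 -/
lemma Tg.exists_ball (T : Tg) {z : ℂ} (hz : z ∈ T.s) :
    ∃ c' : ℂ, closedBall c' 1 ⊆ T.s ∧ ‖c' - z‖ ≤ 2 := by
  have hr := T.hr
  have hr0 : 0 < T.r := by linarith
  refine ⟨z + (T.r⁻¹ : ℝ) • (T.c - z), ?_, ?_⟩
  · intro w hw
    -- `w` is the image of a point of the in-disc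
    have h1 : T.c + (T.r : ℝ) • (w - (z + (T.r⁻¹ : ℝ) • (T.c - z))) ∈ T.s := by
      apply T.ball_subset
      rw [mem_closedBall, dist_eq_norm, add_sub_cancel_left, norm_smul,
        Real.norm_of_nonneg hr0.le]
      rw [mem_closedBall, dist_eq_norm] at hw
      calc T.r * ‖w - (z + (T.r⁻¹ : ℝ) • (T.c - z))‖ ≤ T.r * 1 := by gcongr
        _ = T.r := mul_one _
    have h2 : w = (1 - T.r⁻¹) • z + T.r⁻¹ •
        (T.c + (T.r : ℝ) • (w - (z + (T.r⁻¹ : ℝ) • (T.c - z)))) := by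
      rw [smul_add, smul_smul, inv_mul_cancel₀ hr0.ne']
      module
    rw [h2]
    apply convex_Tri T.c T.u T.r hz h1
    · have : T.r⁻¹ ≤ 1 := inv_le_one_of_one_le₀ hr
      linarith
    · positivity
    · ring
  · rw [add_sub_cancel_left, norm_smul, Real.norm_of_nonneg (by positivity), norm_sub_rev,
      inv_mul_le_iff₀ hr0]
    have := T.norm_le hz
    linarith

/-- the forms at the corners -/
lemma frm_cor {u : ℂ} (hu : ‖u‖ = 1) (c : ℂ) (r : ℝ) (i j : Fin 3) :
    frm c u j (cor c u r i) = if i = j then -(2 * r) else r := by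
  have hz : cor c u r i - c = -((2 * r : ℝ) * nrm u i) := by unfold cor; ring
  have hs := sqrt3_sq
  have hu2 : (conj u * u) = 1 := by
    rw [mul_comm, Complex.mul_conj, Complex.normSq_eq_norm_sq, hu]
    norm_num
  have key : ∀ w : ℂ, conj u * (-((2 * r : ℝ) * (u * w))) = -((2 * r : ℝ) * w) := by
    intro w
    calc conj u * (-((2 * r : ℝ) * (u * w))) = -((2 * r : ℝ) * (conj u * u) * w) := by ring
      _ = _ := by rw [hu2]; ring
  unfold frm
  rw [hz]
  have e0 : nrm u 0 = u * 1 := by simp [nrm]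
  have e1 : nrm u 1 = u * ⟨-1 / 2, Real.sqrt 3 / 2⟩ := by simp [nrm, zt]
  have e2 : nrm u 2 = u * ⟨-1 / 2, -(Real.sqrt 3 / 2)⟩ := by
    rw [← zt_sq]; simp [nrm]
  fin_cases i <;> fin_cases j <;>
    simp only [Fin.zero_eta, Fin.mk_one, Fin.reduceFinMk, form_zero, form_one, form_two] <;>
    first
      | rw [e0, key]
      | rw [e1, key]
      | rw [e2, key]
  all_goals
    simp
  all_goals
    first
      | ring1
      | linear_combination (-r / 2) * hs
      | linear_combination (r / 2) * hs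

lemma sum3 (g : Fin 3 → ℝ) (i j k : Fin 3) (hij : i ≠ j) (hik : i ≠ k) (hjk : j ≠ k) :
    g 0 + g 1 + g 2 = g i + g j + g k := by
  have h1 : (Finset.univ : Finset (Fin 3)) = {i, j, k} := by
    symm
    apply Finset.eq_univ_of_card
    rw [Finset.card_insert_of_notMem, Finset.card_insert_of_notMem, Finset.card_singleton]
    · rfl
    · rw [Finset.mem_singleton]; exact hjk
    · rw [Finset.mem_insert, Finset.mem_singleton]
      rintro (h | h)
      · exact hij h
      · exact hik h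
  rw [← Fin.sum_univ_three, h1, Finset.sum_insert, Finset.sum_insert, Finset.sum_singleton,
    add_assoc]
  · rw [Finset.mem_singleton]; exact hjk
  · rw [Finset.mem_insert, Finset.mem_singleton]
    rintro (h | h)
    · exact hij h
    · exact hik h

/-- distance to a corner from a point of a side -/
lemma dist_cor {u : ℂ} (hu : ‖u‖ = 1) (c : ℂ) (r : ℝ) (z : ℂ) (i j k : Fin 3) (hij : i ≠ j)
    (hik : i ≠ k) (hjk : j ≠ k) (hk : frm c u k z = r) :
    ‖z - cor c u r i‖ ^ 2 = 4 / 3 * (r - frm c u j z) ^ 2 := by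
  have h1 : ∀ l, frm (cor c u r i) u l z = frm c u l z - frm c u l (cor c u r i) :=
    fun l => (frm_sub c u z _ l).symm
  have h2 := frm_sq hu (cor c u r i) z
  have h3 := sum3 (fun l => frm (cor c u r i) u l z ^ 2) i j k hij hik hjk
  have h4 := sum3 (fun l => frm c u l z) i j k hij hik hjk
  rw [frm_sum, hk] at h4
  rw [h3, h1, h1, h1, frm_cor hu, frm_cor hu, frm_cor hu, if_pos rfl, if_neg hij, if_neg hik, hk]
    at h2
  have h5 : frm c u i z = -frm c u j z - r := by linarith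
  rw [h5] at h2
  linarith

/-- L3: a half disc at a boundary point away from the corners -/
lemma Tg.half_disc (T : Tg) {z₁ : ℂ} (hz : z₁ ∈ T.s) {k : Fin 3} (hk : frm T.c T.u k z₁ = T.r)
    {κ : ℝ} (hκ : 0 < κ) (hcor : ∀ i, κ ≤ ‖z₁ - cor T.c T.u T.r i‖) {z : ℂ}
    (hzd : ‖z - z₁‖ < κ / 2) (hzn : (conj (nrm T.u k) * (z - z₁)).re < 0) :
    z ∈ interior T.s := by
  apply strict_mem_interior
  intro j
  by_cases hj : j = k
  · subst hj
    have h1 := frm_sub T.c T.u z z₁ j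
    linarith
  · obtain ⟨i, hij, hik⟩ : ∃ i : Fin 3, i ≠ j ∧ i ≠ k := by
      have : ∀ j k : Fin 3, ∃ i : Fin 3, i ≠ j ∧ i ≠ k := by decide
      exact this j k
    have h1 := dist_cor T.hu T.c T.r z₁ i j k hij hik hj hk
    have h2 := hcor i
    have h3 : frm T.c T.u j z₁ ≤ T.r := hz j
    have h4 : κ / 2 ≤ T.r - frm T.c T.u j z₁ := by
      by_contra hcon
      push Not at hcon
      have e1 : κ ^ 2 ≤ ‖z₁ - cor T.c T.u T.r i‖ ^ 2 := by gcongr
      have e2 : (T.r - frm T.c T.u j z₁) ^ 2 < (κ / 2) ^ 2 := by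
        apply pow_lt_pow_left₀ hcon (by linarith) (by norm_num)
      nlinarith
    have h5 := abs_frm_sub T.hu T.c z z₁ j
    have h6 := (abs_le.1 h5).2
    linarith

/-- a point outside the interior is on a side -/
lemma Tg.exists_tight (T : Tg) {z : ℂ} (hz : z ∈ T.s) (hzi : z ∉ interior T.s) :
    ∃ k, frm T.c T.u k z = T.r := by
  by_contra hcon
  push Not at hcon
  exact hzi (strict_mem_interior fun k => lt_of_le_of_ne (hz k) (hcon k))

lemma Tg.subset_closure (T : Tg) : T.s ⊆ closure (interior T.s) := by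
  have h1 : Convex ℝ T.s := convex_Tri T.c T.u T.r
  rw [h1.closure_interior_eq_closure_of_nonempty_interior ⟨T.c, T.centre_mem⟩]
  exact _root_.subset_closure

lemma not_interior_of_common {T T' : Tg} (hd : Disjoint (interior T.s) (interior T'.s)) {z : ℂ}
    (hz' : z ∈ T'.s) : z ∉ interior T.s := by
  intro h
  have h1 := T'.subset_closure hz'
  rw [_root_.mem_closure_iff] at h1
  obtain ⟨y, hy1, hy2⟩ := h1 _ isOpen_interior h
  exact Set.disjoint_left.1 hd hy1 hy2

lemma six_diff {x y : ℂ} (hx : ‖x‖ = 1) (hy : ‖y‖ = 1) : ‖x ^ 6 - y ^ 6‖ ≤ 6 * ‖x - y‖ := by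
  have e : x ^ 6 - y ^ 6 = (x - y) * (x ^ 5 + x ^ 4 * y + x ^ 3 * y ^ 2 + x ^ 2 * y ^ 3 +
      x * y ^ 4 + y ^ 5) := by ring
  rw [e, norm_mul, mul_comm]
  apply mul_le_mul_of_nonneg_right _ (norm_nonneg _)
  refine (norm_add_le _ _).trans ?_
  have h1 := norm_add_le (x ^ 5 + x ^ 4 * y + x ^ 3 * y ^ 2 + x ^ 2 * y ^ 3) (x * y ^ 4)
  have h2 := norm_add_le (x ^ 5 + x ^ 4 * y + x ^ 3 * y ^ 2) (x ^ 2 * y ^ 3)
  have h3 := norm_add_le (x ^ 5 + x ^ 4 * y) (x ^ 3 * y ^ 2)
  have h4 := norm_add_le (x ^ 5) (x ^ 4 * y)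
  simp only [norm_mul, norm_pow, hx, hy, one_pow, mul_one] at h1 h2 h3 h4 ⊢
  linarith

/-- two disjoint triangles at distance `d`: the outer normals are almost opposite -/
lemma normals_close {T T' : Tg} (hd : Disjoint (interior T.s) (interior T'.s)) {z₁ z₂ : ℂ}
    (hz₁ : z₁ ∈ T.s) (hz₂ : z₂ ∈ T'.s) {k k' : Fin 3} (hk : frm T.c T.u k z₁ = T.r)
    (hk' : frm T'.c T'.u k' z₂ = T'.r) {κ : ℝ} (hκ : 0 < κ)
    (hcor : ∀ i, κ ≤ ‖z₁ - cor T.c T.u T.r i‖) (hcor' : ∀ i, κ ≤ ‖z₂ - cor T'.c T'.u T'.r i‖) :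
    ‖nrm T.u k + nrm T'.u k'‖ ≤ 8 * ‖z₁ - z₂‖ / κ := by
  set p := nrm T.u k with hp
  set q := nrm T'.u k' with hq
  have hp1 : ‖p‖ = 1 := norm_nrm T.hu k
  have hq1 : ‖q‖ = 1 := norm_nrm T'.hu k'
  set d := ‖z₁ - z₂‖ with hdd
  set N := ‖p + q‖ with hN
  have hN2 : N ≤ 2 := by
    have := norm_add_le p q
    rw [hp1, hq1] at this
    linarith
  by_contra hcon
  push Not at hcon
  rw [div_lt_iff₀ hκ] at hcon
  have hd0 : 0 ≤ d := norm_nonneg _
  have hN0 : 0 < N := by
    by_contra h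
    push Not at h
    nlinarith
  have hdκ : d < κ / 4 := by nlinarith
  -- inner products
  have hpp : (conj p * p).re = 1 := by
    rw [mul_comm, Complex.mul_conj, Complex.normSq_eq_norm_sq, hp1]; norm_num
  have hqq : (conj q * q).re = 1 := by
    rw [mul_comm, Complex.mul_conj, Complex.normSq_eq_norm_sq, hq1]; norm_num
  have hpq : (conj p * q).re = (conj q * p).re := by
    simp only [Complex.mul_re, Complex.conj_re, Complex.conj_im]; ring
  have hNsq : N ^ 2 = 2 + 2 * (conj p * q).re := by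
    rw [hN, Complex.sq_norm, Complex.normSq_add, Complex.normSq_eq_norm_sq,
      Complex.normSq_eq_norm_sq, hp1, hq1]
    have : (p * conj q).re = (conj p * q).re := by
      simp only [Complex.mul_re, Complex.conj_re, Complex.conj_im]; ring
    rw [this]
    ring
  set m : ℂ := (N⁻¹ : ℝ) * (p + q) with hm
  have hm1 : ‖m‖ = 1 := by
    rw [hm, norm_mul, Complex.norm_real, Real.norm_of_nonneg (by positivity), ← hN,
      inv_mul_cancel₀ hN0.ne']
  have hpm : (conj p * m).re = N / 2 := by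
    have e1 : conj p * m = (N⁻¹ : ℝ) * (conj p * p + conj p * q) := by rw [hm]; ring
    rw [e1, Complex.re_ofReal_mul, Complex.add_re, hpp]
    have : 1 + (conj p * q).re = N ^ 2 / 2 := by linarith
    rw [this]
    field_simp
  have hqm : (conj q * m).re = N / 2 := by
    have e1 : conj q * m = (N⁻¹ : ℝ) * (conj q * p + conj q * q) := by rw [hm]; ring
    rw [e1, Complex.re_ofReal_mul, Complex.add_re, hqq, ← hpq]
    have : (conj p * q).re + 1 = N ^ 2 / 2 := by linarith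
    rw [this]
    field_simp
  set y : ℂ := z₁ - ((κ / 4 : ℝ) : ℂ) * m with hy
  have hy1 : y - z₁ = -(((κ / 4 : ℝ) : ℂ) * m) := by rw [hy]; ring
  have hnorm1 : ‖y - z₁‖ = κ / 4 := by
    rw [hy1, norm_neg, norm_mul, hm1, Complex.norm_real, Real.norm_of_nonneg (by positivity),
      mul_one]
  have hyT : y ∈ interior T.s := by
    apply T.half_disc hz₁ hk hκ hcor
    · rw [hnorm1]; linarith
    · rw [hy1]
      have e1 : conj p * -(((κ / 4 : ℝ) : ℂ) * m) = -(((κ / 4 : ℝ) : ℂ) * (conj p * m)) := by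
        ring
      rw [← hp, e1, Complex.neg_re, Complex.re_ofReal_mul, hpm]
      have : 0 < κ / 4 * (N / 2) := by positivity
      linarith
  have hyT' : y ∈ interior T'.s := by
    have e0 : y - z₂ = (y - z₁) + (z₁ - z₂) := by ring
    apply T'.half_disc hz₂ hk' hκ hcor'
    · rw [e0]
      refine lt_of_le_of_lt (norm_add_le _ _) ?_
      rw [hnorm1, ← hdd]
      linarith
    · rw [e0, hy1]
      have e1 : conj q * (-(((κ / 4 : ℝ) : ℂ) * m) + (z₁ - z₂)) =
          -(((κ / 4 : ℝ) : ℂ) * (conj q * m)) + conj q * (z₁ - z₂) := by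
        ring
      rw [← hq, e1, Complex.add_re, Complex.neg_re, Complex.re_ofReal_mul, hqm]
      have e2 : (conj q * (z₁ - z₂)).re ≤ d := by
        refine (Complex.re_le_norm _).trans ?_
        rw [norm_mul, RCLike.norm_conj, hq1, one_mul]
      nlinarith
  exact Set.disjoint_left.1 hd hyT hyT'

/-- L5: the angle between two disjoint triangles is at most linear in their distance -/
theorem angle_gap {T T' : Tg} (hd : Disjoint (interior T.s) (interior T'.s)) {za zb : ℂ}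
    (hza : za ∈ T.s) (hzb : zb ∈ T'.s) {κ : ℝ} (hκ : 0 < κ)
    (hcor : ∀ i, ∀ z ∈ segment ℝ za zb, κ ≤ ‖z - cor T.c T.u T.r i‖)
    (hcor' : ∀ i, ∀ z ∈ segment ℝ za zb, κ ≤ ‖z - cor T'.c T'.u T'.r i‖) :
    ‖T.w - T'.w‖ ≤ 48 * ‖za - zb‖ / κ := by
  -- parametrise the segment
  set γ : ℝ → ℂ := fun s => za + s • (zb - za) with hγ
  have hγc : Continuous γ := by rw [hγ]; fun_prop
  have hγseg : ∀ s ∈ Icc (0 : ℝ) 1, γ s ∈ segment ℝ za zb := by
    intro s hs
    rw [segment_eq_image']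
    exact ⟨s, hs, rfl⟩
  have hγ0 : γ 0 = za := by simp [hγ]
  have hγ1 : γ 1 = zb := by simp [hγ]
  have hTc : IsClosed T.s := isClosed_Tri _ _ _
  have hTc' : IsClosed T'.s := isClosed_Tri _ _ _
  have hA : IsCompact (γ ⁻¹' T.s ∩ Icc (0 : ℝ) 1) :=
    isCompact_Icc.inter_left (hTc.preimage hγc)
  obtain ⟨s₁, hs₁, hmax⟩ := hA.exists_isGreatest ⟨0, by
    rw [mem_inter_iff, mem_preimage, hγ0]; exact ⟨hza, le_rfl, zero_le_one⟩⟩
  have hB : IsCompact (γ ⁻¹' T'.s ∩ Icc s₁ 1) :=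
    isCompact_Icc.inter_left (hTc'.preimage hγc)
  obtain ⟨s₂, hs₂, hmin⟩ := hB.exists_isLeast ⟨1, by
    rw [mem_inter_iff, mem_preimage, hγ1]; exact ⟨hzb, hs₁.2.2, le_rfl⟩⟩
  have h0s₁ : 0 ≤ s₁ := hs₁.2.1
  have hs₁₂ : s₁ ≤ s₂ := hs₂.2.1
  have hs₂1 : s₂ ≤ 1 := hs₂.2.2
  -- both points are boundary points
  have hb₁ : γ s₁ ∉ interior T.s := by
    rcases eq_or_lt_of_le hs₁₂ with h | h
    · have : γ s₁ ∈ T'.s := by rw [h]; exact hs₂.1
      exact not_interior_of_common hd this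
    · intro hint
      have hopen : IsOpen (γ ⁻¹' interior T.s) := isOpen_interior.preimage hγc
      obtain ⟨ε, hε, hball⟩ := Metric.isOpen_iff.1 hopen s₁ hint
      set s := min (s₁ + ε / 2) s₂ with hs
      have hs1 : s₁ < s := lt_min (by linarith) h
      have hs2 : s ≤ s₁ + ε / 2 := min_le_left _ _
      have hs3 : s ≤ s₂ := min_le_right _ _
      have hmem : γ s ∈ interior T.s := hball (by
        rw [mem_ball, Real.dist_eq, abs_of_pos (by linarith)]; linarith)
      have hmem' : γ s ∈ T.s := interior_subset hmem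
      have := hmax ⟨hmem', by linarith, by linarith⟩
      linarith
  have hb₂ : γ s₂ ∉ interior T'.s := by
    rcases eq_or_lt_of_le hs₁₂ with h | h
    · have : γ s₂ ∈ T.s := by rw [← h]; exact hs₁.1
      exact not_interior_of_common hd.symm this
    · intro hint
      have hopen : IsOpen (γ ⁻¹' interior T'.s) := isOpen_interior.preimage hγc
      obtain ⟨ε, hε, hball⟩ := Metric.isOpen_iff.1 hopen s₂ hint
      set s := max (s₂ - ε / 2) s₁ with hs
      have hs1 : s < s₂ := max_lt (by linarith) h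
      have hs2 : s₂ - ε / 2 ≤ s := le_max_left _ _
      have hs3 : s₁ ≤ s := le_max_right _ _
      have hmem : γ s ∈ interior T'.s := hball (by
        rw [mem_ball, Real.dist_eq, abs_of_neg (by linarith)]; linarith)
      have hmem' : γ s ∈ T'.s := interior_subset hmem
      have := hmin ⟨hmem', hs3, by linarith⟩
      linarith
  obtain ⟨k, hk⟩ := T.exists_tight hs₁.1 hb₁
  obtain ⟨k', hk'⟩ := T'.exists_tight hs₂.1 hb₂
  have h1 := normals_close hd hs₁.1 hs₂.1 hk hk' hκ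
    (fun i => hcor i _ (hγseg s₁ ⟨h0s₁, hs₁₂.trans hs₂1⟩))
    (fun i => hcor' i _ (hγseg s₂ ⟨h0s₁.trans hs₁₂, hs₂1⟩))
  have h2 : ‖γ s₁ - γ s₂‖ ≤ ‖za - zb‖ := by
    have e1 : γ s₁ - γ s₂ = (s₂ - s₁) • (za - zb) := by
      simp only [hγ]
      module
    rw [e1, norm_smul, Real.norm_of_nonneg (by linarith)]
    have : s₂ - s₁ ≤ 1 := by linarith
    calc (s₂ - s₁) * ‖za - zb‖ ≤ 1 * ‖za - zb‖ := by gcongr
      _ = _ := one_mul _
  have h3 : ‖T.w - T'.w‖ ≤ 6 * ‖nrm T.u k + nrm T'.u k'‖ := by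
    have e1 : T.w = nrm T.u k ^ 6 := (nrm_six _ _).symm
    have e2 : T'.w = (-nrm T'.u k') ^ 6 := by
      rw [show (-nrm T'.u k') ^ 6 = nrm T'.u k' ^ 6 by ring, nrm_six]
      rfl
    rw [e1, e2]
    have := six_diff (norm_nrm T.hu k) (show ‖-nrm T'.u k'‖ = 1 by
      rw [norm_neg]; exact norm_nrm T'.hu k')
    rwa [sub_neg_eq_add] at this
  calc ‖T.w - T'.w‖ ≤ 6 * ‖nrm T.u k + nrm T'.u k'‖ := h3
    _ ≤ 6 * (8 * ‖γ s₁ - γ s₂‖ / κ) := by gcongr
    _ ≤ 6 * (8 * ‖za - zb‖ / κ) := by gcongr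
    _ = 48 * ‖za - zb‖ / κ := by ring

end PST
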