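import Pool.Agent.PST.DefsS

/-! The numerical part of the linear stability of the minimal area of convex sets of given width
(helper51) -/

set_option autoImplicit false
set_option linter.unusedVariables false

namespace PST

/-- sixteen times the square of the area of a triangle with sides `x, y, z` -/
def sg (x y z : ℝ) : ℝ := 2 * (x ^ 2 * y ^ 2 + y ^ 2 * z ^ 2 + z ^ 2 * x ^ 2) - (x ^ 4 + y ^ 4 + z ^ 4)

lemma sg_fac (x y z : ℝ) :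
    sg x y z = (x + y + z) * (y + z - x) * (x + z - y) * (x + y - z) := by
  unfold sg; ring

lemma sg_rot (x y z : ℝ) : sg x y z = sg y z x := by unfold sg; ring

lemma sg_swap (x y z : ℝ) : sg x y z = sg x z y := by unfold sg; ring

/-- the triangle inequalities -/
lemma sg_tri {x y z : ℝ} (hx : 0 < x) (hy : 0 < y) (hz : 0 < z) (hs : 0 < sg x y z) :
    0 < x + y - z := by
  by_contra hcon
  push Not at hcon
  rw [sg_fac] at hs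
  have h1 : 0 < x + y + z := by linarith
  have h2 : 0 < y + z - x := by linarith
  have h3 : 0 < x + z - y := by linarith
  have h4 : 0 < (x + y + z) * (y + z - x) * (x + z - y) := by positivity
  have h5 := mul_nonpos_of_nonneg_of_nonpos h4.le hcon
  linarith

lemma amgm3 {a b c : ℝ} (ha : 0 ≤ a) (hb : 0 ≤ b) (hc : 0 ≤ c) :
    27 * (a * b * c) ≤ (a + b + c) ^ 3 := by
  nlinarith [mul_nonneg ha hb, mul_nonneg hb hc, mul_nonneg ha hc, mul_nonneg ha (sq_nonneg (b - c)),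
    mul_nonneg hb (sq_nonneg (a - c)), mul_nonneg hc (sq_nonneg (a - b)),
    mul_nonneg (add_nonneg (add_nonneg ha hb) hc) (sq_nonneg (a - b)),
    mul_nonneg (add_nonneg (add_nonneg ha hb) hc) (sq_nonneg (b - c)),
    mul_nonneg (add_nonneg (add_nonneg ha hb) hc) (sq_nonneg (a - c))]

lemma sg_le {x y z : ℝ} (hx : 0 < x) (hy : 0 < y) (hz : 0 < z) (hs : 0 < sg x y z) :
    27 * sg x y z ≤ (x + y + z) ^ 4 := by
  have h1 := sg_tri hx hy hz hs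
  have h2 := sg_tri hy hz hx (by rwa [← sg_rot])
  have h3 := sg_tri hz hx hy (by rwa [sg_rot])
  have h4 := amgm3 (a := y + z - x) (b := x + z - y) (c := x + y - z) h2.le (by linarith) h1.le
  have h5 : y + z - x + (x + z - y) + (x + y - z) = x + y + z := by ring
  rw [h5] at h4
  have h6 : 0 < x + y + z := by linarith
  rw [sg_fac]
  have h7 := mul_le_mul_of_nonneg_left h4 h6.le
  nlinarith

lemma sq_le_three {e : ℝ} (h0 : 0 ≤ e) (h1 : e ≤ 1) : (1 + e) ^ 2 - 1 ≤ 3 * e := by nlinarith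

/-- all `x ≥ 1` -/
lemma case_a {x y z e : ℝ} (hx : 1 ≤ x) (hy : 1 ≤ y) (hz : 1 ≤ z) (hs : 0 < sg x y z)
    (h0 : -1 ≤ e) (hP : (x - 1) + (y - 1) + (z - 1) ≤ 14 / 5)
    (h : 3 * (1 + ((x - 1) + (y - 1) + (z - 1))) ^ 2 ≤ (1 + e) ^ 2 * sg x y z) :
    0 ≤ e ∧ (x - 1) + (y - 1) + (z - 1) ≤ 169 * e := by
  set P : ℝ := (x - 1) + (y - 1) + (z - 1) with hPdef
  have hP0 : 0 ≤ P := by rw [hPdef]; linarith
  have hS : x + y + z = 3 + P := by rw [hPdef]; ring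
  have h1 := sg_le (by linarith : (0 : ℝ) < x) (by linarith : (0 : ℝ) < y)
    (by linarith : (0 : ℝ) < z) hs
  rw [hS] at h1
  have h01 : 0 ≤ 1 + e := by linarith
  have h2 : (9 * (1 + P)) ^ 2 ≤ ((1 + e) * (3 + P) ^ 2) ^ 2 := by
    have e1 : (9 * (1 + P)) ^ 2 = 27 * (3 * (1 + P) ^ 2) := by ring
    have e2 : ((1 + e) * (3 + P) ^ 2) ^ 2 = (1 + e) ^ 2 * (3 + P) ^ 4 := by ring
    rw [e1, e2]
    have h3 := mul_le_mul_of_nonneg_left h1 (sq_nonneg (1 + e))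
    linarith
  have h3 : 9 * (1 + P) ≤ (1 + e) * (3 + P) ^ 2 :=
    le_of_sq_le_sq h2 (mul_nonneg h01 (sq_nonneg _))
  have h4 : P * (3 - P) ≤ e * (3 + P) ^ 2 := by nlinarith
  have h7 : P * 0.2 ≤ P * (3 - P) := mul_le_mul_of_nonneg_left (by linarith) hP0
  have he : 0 ≤ e := by
    by_contra hcon
    push Not at hcon
    have : e * (3 + P) ^ 2 < 0 := mul_neg_of_neg_of_pos hcon (by positivity)
    nlinarith
  refine ⟨he, ?_⟩
  have h5 : (3 + P) ^ 2 ≤ 33.64 := by nlinarith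
  have h6 : e * (3 + P) ^ 2 ≤ e * 33.64 := mul_le_mul_of_nonneg_left h5 he
  nlinarith

/-- from a deficit to a bound -/
lemma of_deficit {e A s d c : ℝ} (he : -1 ≤ e) (hs : 0 < s) (hsc : s ≤ c) (h : A ≤ (1 + e) ^ 2 * s)
    (hd0 : 0 ≤ d) (hd : d ≤ A - s) : 0 ≤ e ∧ (e ≤ 1 → d ≤ 3 * e * c) := by
  have h1 : d ≤ ((1 + e) ^ 2 - 1) * s := by linarith
  have h2 : 0 ≤ e := by
    by_contra hcon
    push Not at hcon
    have h3 : (1 + e) ^ 2 - 1 < 0 := by nlinarith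
    have h4 : ((1 + e) ^ 2 - 1) * s < 0 := mul_neg_of_neg_of_pos h3 hs
    linarith
  refine ⟨h2, fun h3 => h1.trans ?_⟩
  exact mul_le_mul (sq_le_three h2 h3) hsc hs.le (by positivity)

/-- `z < 1 ≤ x, y` -/
lemma case_b {x y z e : ℝ} (hx : 1 ≤ x) (hy : 1 ≤ y) (hz : z < 1) (hz0 : 0 < z) (hx2 : x ≤ 2)
    (hy2 : y ≤ 2) (hs : 0 < sg x y z) (h0 : -1 ≤ e)
    (h : 3 * (1 + ((x - 1) + (y - 1))) ^ 2 ≤ (1 + e) ^ 2 * sg x y z) :
    0 ≤ e ∧ (e ≤ 1 → (x - 1) + (y - 1) + (1 - z) ≤ 169 * e) := by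
  set u : ℝ := x + y with hu
  have hz2 : z ^ 2 ≤ 1 := by nlinarith
  have hz3 : z ^ 2 ≤ z := by nlinarith
  have hsg : sg x y z = (u ^ 2 - z ^ 2) * (z ^ 2 - (x - y) ^ 2) := by
    unfold sg; rw [hu]; ring
  have hu2 : 2 ≤ u := by rw [hu]; linarith
  have hu4 : u ≤ 4 := by rw [hu]; linarith
  have h2 : sg x y z ≤ (u ^ 2 - z ^ 2) * z ^ 2 := by
    rw [hsg]
    apply mul_le_mul_of_nonneg_left
    · nlinarith [sq_nonneg (x - y)]
    · nlinarith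
  have h3 : (u ^ 2 - z ^ 2) * z ^ 2 ≤ u ^ 2 - 3 + 2 * z ^ 2 := by
    have e1 : u ^ 2 - 3 + 2 * z ^ 2 - (u ^ 2 - z ^ 2) * z ^ 2 = (1 - z ^ 2) * (u ^ 2 - 3 - z ^ 2) := by
      ring
    have e2 : 0 ≤ (1 - z ^ 2) * (u ^ 2 - 3 - z ^ 2) :=
      mul_nonneg (by linarith) (by nlinarith)
    linarith
  have h4 : sg x y z ≤ 15 := by nlinarith
  have h5 : 3 * (1 + ((x - 1) + (y - 1))) ^ 2 = 3 * (u - 1) ^ 2 := by rw [hu]; ring
  rw [h5] at h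
  have h6 : 2 * (u - 2) + 2 * (1 - z) ≤ 3 * (u - 1) ^ 2 - sg x y z := by nlinarith
  obtain ⟨h7, h8⟩ := of_deficit h0 hs h4 h (by linarith) h6
  refine ⟨h7, fun h1 => ?_⟩
  have h9 : (x - 1) + (y - 1) = u - 2 := by rw [hu]; ring
  have := h8 h1
  linarith

/-- `y, z < 1 ≤ x` -/
lemma case_c {x y z e : ℝ} (hx : 1 ≤ x) (hy : y < 1) (hz : z < 1) (hy0 : 0 < y) (hz0 : 0 < z)
    (hs : 0 < sg x y z) (h0 : -1 ≤ e)
    (h : 3 * (1 + (x - 1)) ^ 2 ≤ (1 + e) ^ 2 * sg x y z) :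
    0 ≤ e ∧ (e ≤ 1 → (x - 1) + (1 - y) + (1 - z) ≤ 169 * e) := by
  have hy2 : y ^ 2 ≤ y := by nlinarith
  have hz2 : z ^ 2 ≤ z := by nlinarith
  have hx1 : 1 ≤ x ^ 2 := by nlinarith
  have hsg : sg x y z + (y ^ 2 - z ^ 2) ^ 2 = x ^ 2 * (2 * y ^ 2 + 2 * z ^ 2 - x ^ 2) := by
    unfold sg; ring
  have h2 : sg x y z ≤ x ^ 2 * (2 * y ^ 2 + 2 * z ^ 2 - x ^ 2) := by
    nlinarith [sq_nonneg (y ^ 2 - z ^ 2)]
  have h3 : x ^ 2 * (2 * y ^ 2 + 2 * z ^ 2 - x ^ 2) ≤ 4 := by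
    nlinarith [sq_nonneg (x ^ 2 - 2)]
  have h4 : sg x y z ≤ 4 := h2.trans h3
  have h5 : (x - 1) + 2 * (1 - y) + 2 * (1 - z) ≤ 3 * x ^ 2 - sg x y z := by
    have e1 : 3 * x ^ 2 - x ^ 2 * (2 * y ^ 2 + 2 * z ^ 2 - x ^ 2) =
        x ^ 2 * ((x ^ 2 - 1) + 2 * (1 - y ^ 2) + 2 * (1 - z ^ 2)) := by ring
    have e2 : 0 ≤ (x ^ 2 - 1) + 2 * (1 - y ^ 2) + 2 * (1 - z ^ 2) := by linarith
    have e3 : (x ^ 2 - 1) + 2 * (1 - y ^ 2) + 2 * (1 - z ^ 2) ≤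
        x ^ 2 * ((x ^ 2 - 1) + 2 * (1 - y ^ 2) + 2 * (1 - z ^ 2)) := by
      nlinarith
    nlinarith
  have h6 : 3 * (1 + (x - 1)) ^ 2 = 3 * x ^ 2 := by ring
  rw [h6] at h
  obtain ⟨h7, h8⟩ := of_deficit h0 hs h4 h (by linarith) h5
  refine ⟨h7, fun h1 => ?_⟩
  have := h8 h1
  linarith

/-- all `x < 1` -/
lemma case_d {x y z e : ℝ} (hx : x < 1) (hy : y < 1) (hz : z < 1) (hx0 : 0 < x) (hy0 : 0 < y)
    (hz0 : 0 < z) (hs : 0 < sg x y z) (h0 : -1 ≤ e)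
    (h : 3 ≤ (1 + e) ^ 2 * sg x y z) :
    0 ≤ e ∧ (e ≤ 1 → (1 - x) + (1 - y) + (1 - z) ≤ 169 * e) := by
  have h2 := sg_le hx0 hy0 hz0 hs
  set s : ℝ := (x + y + z) / 3 with hsd
  have hs0 : 0 ≤ s := by rw [hsd]; linarith
  have hs1 : s ≤ 1 := by rw [hsd]; linarith
  have h3 : (x + y + z) ^ 4 = 81 * s ^ 4 := by rw [hsd]; ring
  rw [h3] at h2
  have h4 : s ^ 4 ≤ s := by
    calc s ^ 4 ≤ s ^ 1 := pow_le_pow_of_le_one hs0 hs1 (by norm_num)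
      _ = s := pow_one s
  have h5 : sg x y z ≤ 3 * s := by linarith
  obtain ⟨h7, h8⟩ := of_deficit (d := 3 - 3 * s) (c := 3) h0 hs (by linarith) h (by linarith)
    (by linarith)
  refine ⟨h7, fun h1 => ?_⟩
  have h9 : (1 - x) + (1 - y) + (1 - z) = 3 - 3 * s := by rw [hsd]; ring
  have := h8 h1
  linarith

/-- the ratios width / height are close to one -/
theorem num51 {x y z e : ℝ} (hx0 : 0 < x) (hy0 : 0 < y) (hz0 : 0 < z) (hx2 : x ≤ 2) (hy2 : y ≤ 2)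
    (hz2 : z ≤ 2) (hs : 0 < sg x y z) (h0 : -1 ≤ e)
    (hP : max (x - 1) 0 + max (y - 1) 0 + max (z - 1) 0 ≤ 14 / 5)
    (h : 3 * (1 + (max (x - 1) 0 + max (y - 1) 0 + max (z - 1) 0)) ^ 2 ≤ (1 + e) ^ 2 * sg x y z) :
    0 ≤ e ∧ (e ≤ 1 → |x - 1| + |y - 1| + |z - 1| ≤ 169 * e) := by
  have hge : ∀ a : ℝ, 1 ≤ a → max (a - 1) 0 = a - 1 ∧ |a - 1| = a - 1 := fun a ha =>
    ⟨max_eq_left (by linarith), abs_of_nonneg (by linarith)⟩
  have hlt : ∀ a : ℝ, a < 1 → max (a - 1) 0 = 0 ∧ |a - 1| = 1 - a := fun a ha =>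
    ⟨max_eq_right (by linarith), by rw [abs_of_nonpos (by linarith)]; ring⟩
  rcases le_or_gt 1 x with hx | hx <;> rcases le_or_gt 1 y with hy | hy <;>
    rcases le_or_gt 1 z with hz | hz
  · rw [(hge x hx).1, (hge y hy).1, (hge z hz).1] at h hP
    rw [(hge x hx).2, (hge y hy).2, (hge z hz).2]
    obtain ⟨h1, h2⟩ := case_a hx hy hz hs h0 hP h
    exact ⟨h1, fun _ => h2⟩
  · rw [(hge x hx).1, (hge y hy).1, (hlt z hz).1, add_zero] at h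
    rw [(hge x hx).2, (hge y hy).2, (hlt z hz).2]
    exact case_b hx hy hz hz0 hx2 hy2 hs h0 h
  · rw [(hge x hx).1, (hlt y hy).1, (hge z hz).1, add_zero] at h
    rw [(hge x hx).2, (hlt y hy).2, (hge z hz).2]
    rw [sg_swap] at hs h
    obtain ⟨h1, h2⟩ := case_b hx hz hy hy0 hx2 hz2 hs h0 h
    exact ⟨h1, fun h3 => by have := h2 h3; linarith⟩
  · rw [(hge x hx).1, (hlt y hy).1, (hlt z hz).1, add_zero, add_zero] at h
    rw [(hge x hx).2, (hlt y hy).2, (hlt z hz).2]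
    exact case_c hx hy hz hy0 hz0 hs h0 h
  · rw [(hlt x hx).1, (hge y hy).1, (hge z hz).1, zero_add] at h
    rw [(hlt x hx).2, (hge y hy).2, (hge z hz).2]
    rw [sg_rot] at hs h
    obtain ⟨h1, h2⟩ := case_b hy hz hx hx0 hy2 hz2 hs h0 h
    exact ⟨h1, fun h3 => by have := h2 h3; linarith⟩
  · rw [(hlt x hx).1, (hge y hy).1, (hlt z hz).1, zero_add, add_zero] at h
    rw [(hlt x hx).2, (hge y hy).2, (hlt z hz).2]
    rw [sg_rot] at hs h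
    obtain ⟨h1, h2⟩ := case_c hy hz hx hz0 hx0 hs h0 h
    exact ⟨h1, fun h3 => by have := h2 h3; linarith⟩
  · rw [(hlt x hx).1, (hlt y hy).1, (hge z hz).1, zero_add, zero_add] at h
    rw [(hlt x hx).2, (hlt y hy).2, (hge z hz).2]
    have h3 : sg x y z = sg z x y := by rw [sg_rot, sg_rot]
    rw [h3] at hs h
    obtain ⟨h1, h2⟩ := case_c hz hx hy hx0 hy0 hs h0 h
    exact ⟨h1, fun h3 => by have := h2 h3; linarith⟩
  · rw [(hlt x hx).1, (hlt y hy).1, (hlt z hz).1, add_zero, add_zero, add_zero, one_pow,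
      mul_one] at h
    rw [(hlt x hx).2, (hlt y hy).2, (hlt z hz).2]
    exact case_d hx hy hz hx0 hy0 hz0 hs h0 h

/-- the numerical inequality; `x i = w a_i / (2D)` -/
theorem S1b {x β : Fin 3 → ℝ} {e : ℝ} (hx : ∀ i, 0 < x i) (ht : ∀ i, x i ≤ x (i + 1) + x (i + 2)) (hβ : ∀ i, 0 ≤ β i ∧ β i ≤ 1)
    (hxβ : ∀ i, x i ≤ 1 + β i) (hn : ¬ (∀ i, 4 / 5 ≤ β i))
    (hs : 0 < 2 * (x 0 ^ 2 * x 1 ^ 2 + x 1 ^ 2 * x 2 ^ 2 + x 2 ^ 2 * x 0 ^ 2) - (x 0 ^ 4 + x 1 ^ 4 + x 2 ^ 4))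
    (he1 : -1 ≤ e)
    (he : 3 * (1 + ∑ i, β i) ^ 2 ≤ (1 + e) ^ 2 * (2 * (x 0 ^ 2 * x 1 ^ 2 + x 1 ^ 2 * x 2 ^ 2 + x 2 ^ 2 * x 0 ^ 2) - (x 0 ^ 4 + x 1 ^ 4 + x 2 ^ 4))) :
    0 ≤ e ∧ (e ≤ 1 → ∀ i, |x i - 1| ≤ 169 * e) := by
  have hp : ∀ i, max (x i - 1) 0 ≤ β i := fun i =>
    max_le (by have := hxβ i; linarith) (hβ i).1
  have hp0 : ∀ i, 0 ≤ max (x i - 1) 0 := fun i => le_max_right _ _
  have h2 : ∀ i, x i ≤ 2 := fun i => by have := hxβ i; have := (hβ i).2; linarith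
  have hsum : ∑ i, β i = β 0 + β 1 + β 2 := Fin.sum_univ_three β
  have hβs : ∑ i, β i ≤ 14 / 5 := by
    rw [hsum]
    by_contra hcon
    push Not at hcon
    apply hn
    have a0 := (hβ 0).2
    have a1 := (hβ 1).2
    have a2 := (hβ 2).2
    intro i
    fin_cases i
    · show 4 / 5 ≤ β 0; linarith
    · show 4 / 5 ≤ β 1; linarith
    · show 4 / 5 ≤ β 2; linarith
  have hPs : max (x 0 - 1) 0 + max (x 1 - 1) 0 + max (x 2 - 1) 0 ≤ ∑ i, β i := by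
    rw [hsum]
    have := hp 0
    have := hp 1
    have := hp 2
    linarith
  have hP0 : 0 ≤ max (x 0 - 1) 0 + max (x 1 - 1) 0 + max (x 2 - 1) 0 := by
    have := hp0 0
    have := hp0 1
    have := hp0 2
    linarith
  obtain ⟨h3, h4⟩ := num51 (x := x 0) (y := x 1) (z := x 2) (e := e) (hx 0) (hx 1) (hx 2) (h2 0)
    (h2 1) (h2 2) hs he1 (hPs.trans hβs) (by
      refine le_trans ?_ he
      have : (1 + (max (x 0 - 1) 0 + max (x 1 - 1) 0 + max (x 2 - 1) 0)) ^ 2 ≤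
          (1 + ∑ i, β i) ^ 2 := by
        apply pow_le_pow_left₀ (by linarith) (by linarith)
      linarith)
  refine ⟨h3, fun h5 i => ?_⟩
  have h6 := h4 h5
  have b0 := abs_nonneg (x 0 - 1)
  have b1 := abs_nonneg (x 1 - 1)
  have b2 := abs_nonneg (x 2 - 1)
  fin_cases i
  · show |x 0 - 1| ≤ 169 * e; linarith
  · show |x 1 - 1| ≤ 169 * e; linarith
  · show |x 2 - 1| ≤ 169 * e; linarith

end PST
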